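import Pool.Agent.H27.TC.EHall

set_option autoImplicit false

/-
[H27 TC EFinA]  Completing an embedding of T - A' by Hall's theorem (A' spread).

R = Q \ phi(univ \ A'). |R| >= |Q| - |{t not in A' : phi t in Q}| >= |A'|.
Cand a = {rho in R : rho adjacent to phi b for every neighbour b of a}. a has at most 2 neighbours
b, all outside A' with phi b in Q, and phi b has at most m non-neighbours in Q: so
|R| <= |Cand a| + 2m. For rho in R: if rho not in Cand a, some neighbour b of a has phi b in Q not
adjacent to rho. The map a -> phi b is injective (b determines a by hA3; phi injective outside A'),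
with values in {x in Q : not Adj rho x}, of size <= m. Apply hallA (hA: 3m <= |A'|).
f = psi on A', phi elsewhere. Injective: psi a in R avoids phi(univ \ A'). Adjacency: A' is
independent; edges between A' and the rest by the definition of Cand.
-/

namespace Pool.Agent.H27.TC

open Finset Classical

variable {V α : Type*} [Fintype α]

theorem finishA (T : SimpleGraph α) (G : SimpleGraph V) [Nonempty V] (A' : Finset α) (φ : α → V)
    (Q : Finset V) (m : ℕ) (hQ : Near G Q m)
    (hA1 : ∀ a ∈ A', ∀ b, T.Adj a b → b ∉ A' ∧ φ b ∈ Q)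
    (hA2 : ∀ a ∈ A', dg T a ≤ 2)
    (hA3 : ∀ a ∈ A', ∀ a' ∈ A', ∀ b, T.Adj a b → T.Adj a' b → a = a')
    (hinj : Set.InjOn φ {t | t ∉ A'})
    (hadj : ∀ x y, x ∉ A' → y ∉ A' → T.Adj x y → G.Adj (φ x) (φ y))
    (h3 : 3 * m ≤ A'.card)
    (hcount : A'.card + (univ.filter (fun t => t ∉ A' ∧ φ t ∈ Q)).card ≤ Q.card) : Emb T G := by
  set U : Finset V := (univ.filter (fun t => t ∉ A')).image φ with hU
  set R : Finset V := Q \ U with hR
  set Cand : α → Finset V := fun a => R.filter (fun ρ => ∀ b, T.Adj a b → G.Adj (φ b) ρ) with hCand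
  have hRc : A'.card ≤ R.card := by
    have e1 : Q ∩ U ⊆ (univ.filter (fun t => t ∉ A' ∧ φ t ∈ Q)).image φ := by
      intro x hx
      rw [mem_inter, hU, mem_image] at hx
      obtain ⟨hxQ, t, ht, rfl⟩ := hx
      rw [mem_filter] at ht
      rw [mem_image]
      exact ⟨t, mem_filter.mpr ⟨mem_univ _, ht.2, hxQ⟩, rfl⟩
    have e2 := (card_le_card e1).trans card_image_le
    have e3 : (Q \ U).card = Q.card - (Q ∩ U).card := by
      rw [card_sdiff, inter_comm]
    rw [← hR] at e3
    have e4 : (Q ∩ U).card ≤ Q.card := card_le_card inter_subset_left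
    omega
  obtain ⟨ψ, hψ1, hψ2⟩ := hallA A' R Cand m (fun a _ => filter_subset _ _) (by
      intro a ha
      -- the missed vertices
      have e1 : R \ Cand a ⊆ (univ.filter (fun y => T.Adj a y)).biUnion
          (fun b => Q.filter (fun x => ¬ G.Adj (φ b) x)) := by
        intro ρ hρ
        rw [mem_sdiff, hCand] at hρ
        simp only [mem_filter, not_and, not_forall] at hρ
        obtain ⟨b, hb1, hb2⟩ := hρ.2 hρ.1
        rw [mem_biUnion]
        refine ⟨b, mem_filter.mpr ⟨mem_univ _, hb1⟩, ?_⟩
        rw [mem_filter]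
        exact ⟨(mem_sdiff.mp hρ.1).1, hb2⟩
      have e2 : (R \ Cand a).card ≤ 2 * m := by
        refine (card_le_card e1).trans ?_
        refine card_biUnion_le.trans ?_
        have e3 : ∀ b ∈ univ.filter (fun y => T.Adj a y),
            (Q.filter (fun x => ¬ G.Adj (φ b) x)).card ≤ m := by
          intro b hb
          exact hQ (φ b) (hA1 a ha b (mem_filter.mp hb).2).2
        refine (sum_le_card_nsmul _ _ _ e3).trans ?_
        rw [smul_eq_mul]
        exact Nat.mul_le_mul_right m (hA2 a ha)
      have e4 : (R \ Cand a).card = R.card - (Cand a).card :=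
        card_sdiff_of_subset (filter_subset _ _)
      omega) (by
      intro ρ hρ
      have hex : ∀ a ∈ A'.filter (fun a => ρ ∉ Cand a), ∃ b, T.Adj a b ∧ ¬ G.Adj (φ b) ρ := by
        intro a ha
        rw [mem_filter, hCand] at ha
        simp only [mem_filter, not_and, not_forall] at ha
        obtain ⟨b, hb1, hb2⟩ := ha.2 hρ
        exact ⟨b, hb1, hb2⟩
      have : ∀ a, ∃ b, a ∈ A'.filter (fun a => ρ ∉ Cand a) → T.Adj a b ∧ ¬ G.Adj (φ b) ρ := by
        intro a
        by_cases ha : a ∈ A'.filter (fun a => ρ ∉ Cand a)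
        · obtain ⟨b, hb⟩ := hex a ha
          exact ⟨b, fun _ => hb⟩
        · exact ⟨a, fun h => absurd h ha⟩
      choose β hβ using this
      refine le_trans ?_ (hQ ρ (mem_sdiff.mp hρ).1)
      apply card_le_card_of_injOn (fun a => φ (β a))
      · intro a ha
        rw [Finset.mem_coe] at ha
        have h1 := hβ a ha
        have h2 := hA1 a (mem_filter.mp ha).1 (β a) h1.1
        rw [Finset.mem_coe, mem_filter]
        exact ⟨h2.2, fun h => h1.2 h.symm⟩
      · intro a ha b hb hab
        rw [Finset.mem_coe] at ha hb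
        simp only at hab
        have h1 := hβ a ha
        have h2 := hβ b hb
        have h3 := (hA1 a (mem_filter.mp ha).1 (β a) h1.1).1
        have h4 := (hA1 b (mem_filter.mp hb).1 (β b) h2.1).1
        have h5 : β a = β b := hinj h3 h4 hab
        have h6 := h2.1
        rw [← h5] at h6
        exact hA3 a (mem_filter.mp ha).1 b (mem_filter.mp hb).1 (β a) h1.1 h6) hRc h3
  -- the embedding
  have hψR : ∀ a ∈ A', ψ a ∈ Q ∧ ψ a ∉ U := by
    intro a ha
    have := hψ2 a ha
    rw [hCand] at this
    simp only [mem_filter] at this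
    exact mem_sdiff.mp this.1
  have hψadj : ∀ a ∈ A', ∀ b, T.Adj a b → G.Adj (φ b) (ψ a) := by
    intro a ha b hab
    have := hψ2 a ha
    rw [hCand] at this
    simp only [mem_filter] at this
    exact this.2 b hab
  have hφU : ∀ t, t ∉ A' → φ t ∈ U := by
    intro t ht
    rw [hU, mem_image]
    exact ⟨t, mem_filter.mpr ⟨mem_univ _, ht⟩, rfl⟩
  refine ⟨fun t => if t ∈ A' then ψ t else φ t, ?_, ?_⟩
  · intro a b hab
    simp only at hab
    by_cases ha : a ∈ A' <;> by_cases hb : b ∈ A'
    · rw [if_pos ha, if_pos hb] at hab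
      exact hψ1 ha hb hab
    · rw [if_pos ha, if_neg hb] at hab
      exact absurd (hab ▸ hφU b hb) (hψR a ha).2
    · rw [if_neg ha, if_pos hb] at hab
      exact absurd (hab ▸ hφU a ha) (hψR b hb).2
    · rw [if_neg ha, if_neg hb] at hab
      exact hinj ha hb hab
  · intro x y hxy
    simp only
    by_cases hx : x ∈ A' <;> by_cases hy : y ∈ A'
    · exact absurd hy (hA1 x hx y hxy).1
    · rw [if_pos hx, if_neg hy]
      exact (hψadj x hx y hxy).symm
    · rw [if_neg hx, if_pos hy]
      exact hψadj y hy x hxy.symm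
    · rw [if_neg hx, if_neg hy]
      exact hadj x y hx hy hxy

end Pool.Agent.H27.TC
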