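import Pool.Agent.H27.TC.EHall

set_option autoImplicit false

/-
[H27 TC EFinB]  Completing an embedding of P (all non-leaves and possibly some leaves) by placing the
leaves Sl (slots) in R = Q \ phi(P) by Hall, and last the leaves L0 attached to z0 in S'.

univ = P ∪ Sl ∪ L0 disjoint. Cand l = {rho in R : Adj (phi (pi l)) rho}; phi (pi l) in Q, so
|R| <= |Cand l| + m (Near). Bd = {rho in R : |{l in Sl : Adj (phi (pi l)) rho}| <= 2m}.
hallB gives psi with psi(Sl) containing Cv. Put f = phi on P, psi on Sl: injective, image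
U = phi(P) ∪ psi(Sl). |U ∩ S'| <= |phi(P) ∩ S'| + |psi(Sl) ∩ S'| and
|psi(Sl) ∩ S'| <= |Sl| - |Cv \ S'| (psi is injective and Cv \ S' is contained in psi(Sl) \ S').
So |S' \ U| >= |L0| by hlast (nothing to do if L0 is empty), and L0 is mapped injectively into
S' \ U. Edges: inside P by hadj;
a leaf l in Sl has the only neighbour pi l in P; a leaf in L0 has the only neighbour z0 in P, and
S' consists of neighbours of phi z0.
-/

namespace Pool.Agent.H27.TC

open Finset Classical

variable {V α : Type*} [Fintype α]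

theorem finishB (T : SimpleGraph α) (G : SimpleGraph V) [Nonempty V] (P Sl L0 : Finset α)
    (hcov : ∀ t, t ∈ P ∨ t ∈ Sl ∨ t ∈ L0) (hPS : Disjoint P Sl) (hPL : Disjoint P L0)
    (hSL : Disjoint Sl L0) (z0 : α) (hz0 : z0 ∈ P) (φ : α → V) (Q : Finset V) (m : ℕ)
    (hQ : Near G Q m) (pi : α → α)
    (hSl : ∀ l ∈ Sl, T.Adj l (pi l) ∧ (∀ b, T.Adj l b → b = pi l) ∧ pi l ∈ P ∧ φ (pi l) ∈ Q)
    (hL0 : ∀ l ∈ L0, ∀ b, T.Adj l b → b = z0)
    (hinj : Set.InjOn φ (P : Set α))
    (hadj : ∀ x ∈ P, ∀ y ∈ P, T.Adj x y → G.Adj (φ x) (φ y))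
    (Bd : Finset V)
    (hBd0 : Bd = (Q \ P.image φ).filter
      (fun ρ => (Sl.filter (fun l => G.Adj (φ (pi l)) ρ)).card ≤ 2 * m))
    (hBd : Sl.card + Bd.card ≤ (Q \ P.image φ).card)
    (Cv : Finset V) (hCv : Cv ⊆ (Q \ P.image φ) \ Bd) (hCvm : Cv.card ≤ m)
    (S' : Finset V) (hS' : ∀ x ∈ S', G.Adj (φ z0) x)
    (hlast : L0 = ∅ ∨
      L0.card + (P.image φ ∩ S').card + (Sl.card - (Cv \ S').card) ≤ S'.card) :
    Emb T G := by
  set R : Finset V := Q \ P.image φ with hR
  set Cand : α → Finset V := fun l => R.filter (fun ρ => G.Adj (φ (pi l)) ρ) with hCand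
  have hmemC : ∀ l ρ, ρ ∈ Cand l ↔ ρ ∈ R ∧ G.Adj (φ (pi l)) ρ := by
    intro l ρ
    rw [hCand]
    exact mem_filter
  obtain ⟨ψ, hψ1, hψ2, hψ3⟩ := hallB Sl R Cand m (fun l _ => filter_subset _ _) (by
      intro l hl
      have e1 : R \ Cand l ⊆ Q.filter (fun x => ¬ G.Adj (φ (pi l)) x) := by
        intro ρ hρ
        rw [mem_sdiff, hmemC] at hρ
        rw [mem_filter]
        exact ⟨(mem_sdiff.mp hρ.1).1, fun h => hρ.2 ⟨hρ.1, h⟩⟩
      have e2 := (card_le_card e1).trans (hQ _ (hSl l hl).2.2.2)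
      have e3 : (R \ Cand l).card = R.card - (Cand l).card :=
        card_sdiff_of_subset (filter_subset _ _)
      omega) Bd (by rw [hBd0]; exact filter_subset _ _) (by
      intro ρ hρ hρB
      rw [hBd0, mem_filter, not_and] at hρB
      have h1 := hρB hρ
      push Not at h1
      have e1 : Sl.filter (fun l => ρ ∈ Cand l) = Sl.filter (fun l => G.Adj (φ (pi l)) ρ) := by
        apply filter_congr
        intro l _
        rw [hmemC]
        exact ⟨fun h => h.2, fun h => ⟨hρ, h⟩⟩
      rw [e1]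
      exact h1) hBd Cv hCv hCvm
  set U : Finset V := P.image φ ∪ Sl.image ψ with hU
  have hχ : ∃ χ : α → V, (∀ a ∈ L0, χ a ∈ S' \ U) ∧ Set.InjOn χ (L0 : Set α) := by
    rcases hlast with h0 | hlast
    · rw [h0]
      exact ⟨fun _ => Classical.arbitrary V, by simp, by simp⟩
    · apply Pool.Agent.H28.TreeClique.exists_inj
      have e1 : (S' ∩ U).card ≤ (P.image φ ∩ S').card + (Sl.image ψ ∩ S').card := by
        refine le_trans (card_le_card ?_) (card_union_le _ _)
        intro x hx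
        rw [mem_inter, hU, mem_union] at hx
        rw [mem_union, mem_inter, mem_inter]
        rcases hx.2 with h | h
        · left; exact ⟨h, hx.1⟩
        · right; exact ⟨h, hx.1⟩
      have e2 : (Sl.image ψ).card = Sl.card := card_image_of_injOn hψ1
      have e3 : (Sl.image ψ \ S').card + (Sl.image ψ ∩ S').card = (Sl.image ψ).card :=
        card_sdiff_add_card_inter _ _
      have e4 : (Cv \ S').card ≤ (Sl.image ψ \ S').card :=
        card_le_card (sdiff_subset_sdiff hψ3 (subset_refl _))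
      have e5 : (S' \ U).card + (S' ∩ U).card = S'.card := card_sdiff_add_card_inter _ _
      omega
  obtain ⟨χ, hχ1, hχ2⟩ := hχ
  have hPU : ∀ t ∈ P, φ t ∈ U := by
    intro t ht
    rw [hU, mem_union]
    left; exact mem_image_of_mem φ ht
  have hSU : ∀ t ∈ Sl, ψ t ∈ U := by
    intro t ht
    rw [hU, mem_union]
    right; exact mem_image_of_mem ψ ht
  have hψP : ∀ t ∈ Sl, ψ t ∉ P.image φ := by
    intro t ht
    have := ((hmemC t _).mp (hψ2 t ht)).1
    exact (mem_sdiff.mp this).2
  have hnS : ∀ t ∈ Sl, t ∉ P := fun t ht h => (disjoint_left.mp hPS h) ht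
  have hnL : ∀ t ∈ L0, t ∉ P := fun t ht h => (disjoint_left.mp hPL h) ht
  have hnL' : ∀ t ∈ L0, t ∉ Sl := fun t ht h => (disjoint_left.mp hSL h) ht
  set f : α → V := fun t => if t ∈ P then φ t else if t ∈ Sl then ψ t else χ t with hf
  have fP : ∀ t ∈ P, f t = φ t := by
    intro t ht
    simp only [hf, if_pos ht]
  have fS : ∀ t ∈ Sl, f t = ψ t := by
    intro t ht
    simp only [hf, if_neg (hnS t ht), if_pos ht]
  have fL : ∀ t ∈ L0, f t = χ t := by
    intro t ht
    simp only [hf, if_neg (hnL t ht), if_neg (hnL' t ht)]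
  have hχU : ∀ t ∈ L0, χ t ∉ U := fun t ht => (mem_sdiff.mp (hχ1 t ht)).2
  refine ⟨f, ?_, ?_⟩
  · intro a b hab
    rcases hcov a with ha | ha | ha <;> rcases hcov b with hb | hb | hb
    · rw [fP a ha, fP b hb] at hab
      exact hinj ha hb hab
    · rw [fP a ha, fS b hb] at hab
      exact absurd (hab ▸ mem_image_of_mem φ ha) (hψP b hb)
    · rw [fP a ha, fL b hb] at hab
      exact absurd (hab ▸ hPU a ha) (hχU b hb)
    · rw [fS a ha, fP b hb] at hab
      exact absurd (hab ▸ mem_image_of_mem φ hb) (hψP a ha)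
    · rw [fS a ha, fS b hb] at hab
      exact hψ1 ha hb hab
    · rw [fS a ha, fL b hb] at hab
      exact absurd (hab ▸ hSU a ha) (hχU b hb)
    · rw [fL a ha, fP b hb] at hab
      exact absurd (hab ▸ hPU b hb) (hχU a ha)
    · rw [fL a ha, fS b hb] at hab
      exact absurd (hab ▸ hSU b hb) (hχU a ha)
    · rw [fL a ha, fL b hb] at hab
      exact hχ2 ha hb hab
  · have key : ∀ x y, T.Adj x y → x ∈ Sl ∨ x ∈ L0 → G.Adj (f x) (f y) := by
      intro x y hxy hx
      rcases hx with hx | hx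
      · obtain ⟨g1, g2, g3, g4⟩ := hSl x hx
        have hy := g2 y hxy
        rw [hy, fS x hx, fP _ g3]
        exact ((hmemC x _).mp (hψ2 x hx)).2.symm
      · have hy := hL0 x hx y hxy
        rw [hy, fL x hx, fP _ hz0]
        exact (hS' _ (mem_sdiff.mp (hχ1 x hx)).1).symm
    intro x y hxy
    rcases hcov x with hx | hx
    · rcases hcov y with hy | hy
      · rw [fP x hx, fP y hy]
        exact hadj x hx y hy hxy
      · exact (key y x hxy.symm hy).symm
    · exact key x y hxy hx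

end Pool.Agent.H27.TC
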