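import Pool.Agent.H27.TC.Defs

set_option autoImplicit false

/-
[H27 TC EHall]  Two applications of Hall's theorem
(Finset.all_card_le_biUnion_card_iff_exists_injective or its version for functions on a subtype).

hallA: A' slots, R free vertices, Cand a subset of R. For X subset of A', X nonempty: if |X| > m then
 every rho in R lies in some Cand a with a in X (hR: at most m slots miss rho), so the union is R and
 |R| >= |A'| >= |X|. If |X| <= m, take a in X: |Cand a| >= |R| - 2m >= 3m - 2m = m >= |X|.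

hallB: Sl slots, Bd bad vertices. First cover Cv: order Cv; each rho in Cv is not bad, so it is in
 Cand l for more than 2m slots l; since |Cv| <= m we can choose distinct slots l(rho) greedily.
 Let Sl' = Sl minus the used slots, R' = R \ Cv. Hall for Sl', R' with Cand' l = Cand l ∩ R':
 |R' \ Cand' l| <= m. For X subset of Sl' nonempty: if |X| + m <= |R'| then |Cand' l| >= |R'| - m
 >= |X| for any l in X. Otherwise |Sl \ X| = |Sl| - |X| < |Sl| - |R'| + m
 = |Sl| - |R| + |Cv| + m <= 2m (as |Sl| <= |R|, |Cv| <= m), so every rho in R' \ Bd has a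
 slot in X; the union of the Cand' contains R' \ Bd, of size >= |R'| - |Bd| = |R| - |Cv| - |Bd|
 >= |Sl| - |Cv| = |Sl'| >= |X|.  (hBd: |Sl| + |Bd| <= |R|.)
-/

namespace Pool.Agent.H27.TC

open Finset Classical

variable {V α : Type*}

lemma hall_on [Nonempty V] (A : Finset α) (Cand : α → Finset V)
    (h : ∀ X ⊆ A, X.card ≤ (X.biUnion Cand).card) :
    ∃ ψ : α → V, Set.InjOn ψ (A : Set α) ∧ ∀ a ∈ A, ψ a ∈ Cand a := by
  have h1 : ∀ s : Finset {a // a ∈ A}, s.card ≤ (s.biUnion (fun a => Cand a.1)).card := by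
    intro s
    have h2 := h (s.map (Function.Embedding.subtype _)) (by
      intro x hx
      rw [mem_map] at hx
      obtain ⟨y, -, rfl⟩ := hx
      exact y.2)
    rw [card_map] at h2
    refine h2.trans (card_le_card ?_)
    intro x hx
    rw [mem_biUnion] at hx ⊢
    obtain ⟨a, ha, hx⟩ := hx
    rw [mem_map] at ha
    obtain ⟨y, hy, rfl⟩ := ha
    exact ⟨y, hy, hx⟩
  obtain ⟨f, hf1, hf2⟩ := (Finset.all_card_le_biUnion_card_iff_exists_injective
    (fun a : {a // a ∈ A} => Cand a.1)).mp h1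
  refine ⟨fun a => if ha : a ∈ A then f ⟨a, ha⟩ else Classical.arbitrary V, ?_, ?_⟩
  · intro a ha b hb hab
    have ha' : a ∈ A := ha
    have hb' : b ∈ A := hb
    simp only [dif_pos ha', dif_pos hb'] at hab
    have := hf1 hab
    exact congrArg Subtype.val this
  · intro a ha
    simp only [dif_pos ha]
    exact hf2 ⟨a, ha⟩

theorem hallA [Nonempty V] (A' : Finset α) (R : Finset V) (Cand : α → Finset V) (m : ℕ)
    (hsub : ∀ a ∈ A', Cand a ⊆ R) (hA : ∀ a ∈ A', R.card ≤ (Cand a).card + 2 * m)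
    (hR : ∀ ρ ∈ R, (A'.filter (fun a => ρ ∉ Cand a)).card ≤ m)
    (hAR : A'.card ≤ R.card) (hm : 3 * m ≤ A'.card) :
    ∃ ψ : α → V, Set.InjOn ψ (A' : Set α) ∧ ∀ a ∈ A', ψ a ∈ Cand a := by
  apply hall_on
  intro X hX
  rcases X.eq_empty_or_nonempty with rfl | ⟨a, ha⟩
  · simp
  have hXA := card_le_card hX
  by_cases hXm : X.card ≤ m
  · have h1 : (Cand a).card ≤ (X.biUnion Cand).card :=
      card_le_card (subset_biUnion_of_mem Cand ha)
    have h2 := hA a (hX ha)
    omega
  · push Not at hXm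
    have h1 : R ⊆ X.biUnion Cand := by
      intro ρ hρ
      rw [mem_biUnion]
      by_contra hcon
      push Not at hcon
      have h2 : X ⊆ A'.filter (fun a => ρ ∉ Cand a) := by
        intro x hx
        exact mem_filter.mpr ⟨hX hx, hcon x hx⟩
      have h3 := card_le_card h2
      have h4 := hR ρ hρ
      omega
    have h2 := card_le_card h1
    omega

/-- Covering a small set `Cv` by distinct slots. -/
lemma cover_small [Nonempty V] (Sl : Finset α) (Cand : α → Finset V) (m : ℕ) (Cv : Finset V)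
    (hgood : ∀ ρ ∈ Cv, 2 * m < (Sl.filter (fun l => ρ ∈ Cand l)).card) (hCvm : Cv.card ≤ m) :
    ∃ (Sl0 : Finset α) (ψ : α → V), Sl0 ⊆ Sl ∧ Sl0.card = Cv.card ∧
      Set.InjOn ψ (Sl0 : Set α) ∧ (∀ l ∈ Sl0, ψ l ∈ Cand l) ∧ Sl0.image ψ = Cv := by
  induction Cv using Finset.induction_on with
  | empty =>
    exact ⟨∅, fun _ => Classical.arbitrary V, by simp, by simp, by simp, by simp, by simp⟩
  | insert ρ Cv hρ ih =>
    rw [card_insert_of_notMem hρ] at hCvm
    obtain ⟨Sl0, ψ, h1, h2, h3, h4, h5⟩ := ih (fun x hx => hgood x (mem_insert_of_mem hx)) (by omega)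
    have h6 := hgood ρ (mem_insert_self _ _)
    have h7 : 0 < ((Sl.filter (fun l => ρ ∈ Cand l)) \ Sl0).card := by
      have := le_card_sdiff Sl0 (Sl.filter (fun l => ρ ∈ Cand l))
      omega
    obtain ⟨l, hl⟩ := card_pos.mp h7
    rw [mem_sdiff, mem_filter] at hl
    obtain ⟨⟨hl1, hl2⟩, hl3⟩ := hl
    have hupd : ∀ t ∈ Sl0, Function.update ψ l ρ t = ψ t := by
      intro t ht
      have hne : t ≠ l := by
        intro h
        rw [h] at ht
        exact hl3 ht
      exact Function.update_of_ne hne _ _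
    have hupd0 : Function.update ψ l ρ l = ρ := Function.update_self _ _ _
    have hψ : ∀ t ∈ Sl0, ψ t ∈ Cv := by
      intro t ht
      rw [← h5]
      exact mem_image_of_mem ψ ht
    refine ⟨insert l Sl0, Function.update ψ l ρ, ?_, ?_, ?_, ?_, ?_⟩
    · exact insert_subset hl1 h1
    · rw [card_insert_of_notMem hl3, card_insert_of_notMem hρ, h2]
    · intro a ha b hb hab
      rw [Finset.mem_coe, mem_insert] at ha hb
      rcases ha with rfl | ha <;> rcases hb with rfl | hb
      · rfl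
      · rw [hupd0, hupd b hb] at hab
        exact absurd (hab ▸ hψ b hb) hρ
      · rw [hupd0, hupd a ha] at hab
        exact absurd (hab ▸ hψ a ha) hρ
      · rw [hupd a ha, hupd b hb] at hab
        exact h3 ha hb hab
    · intro t ht
      rw [mem_insert] at ht
      rcases ht with rfl | ht
      · rw [hupd0]; exact hl2
      · rw [hupd t ht]; exact h4 t ht
    · rw [image_insert, hupd0]
      congr 1
      rw [← h5]
      apply image_congr
      intro t ht
      exact hupd t ht

theorem hallB [Nonempty V] (Sl : Finset α) (R : Finset V) (Cand : α → Finset V) (m : ℕ)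
    (hsub : ∀ l ∈ Sl, Cand l ⊆ R) (hC : ∀ l ∈ Sl, R.card ≤ (Cand l).card + m)
    (Bd : Finset V) (hBdR : Bd ⊆ R)
    (hgood : ∀ ρ ∈ R, ρ ∉ Bd → 2 * m < (Sl.filter (fun l => ρ ∈ Cand l)).card)
    (hBd : Sl.card + Bd.card ≤ R.card)
    (Cv : Finset V) (hCv : Cv ⊆ R \ Bd) (hCvm : Cv.card ≤ m) :
    ∃ ψ : α → V, Set.InjOn ψ (Sl : Set α) ∧ (∀ l ∈ Sl, ψ l ∈ Cand l) ∧ Cv ⊆ Sl.image ψ := by
  have hCvR : Cv ⊆ R := hCv.trans sdiff_subset
  obtain ⟨Sl0, ψ0, h1, h2, h3, h4, h5⟩ := cover_small Sl Cand m Cv (by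
    intro ρ hρ
    have := mem_sdiff.mp (hCv hρ)
    exact hgood ρ this.1 this.2) hCvm
  have hSlc := card_le_card h1
  have hCvc := card_le_card hCvR
  have hR'c : (R \ Cv).card = R.card - Cv.card := card_sdiff_of_subset hCvR
  have hSl'c : (Sl \ Sl0).card = Sl.card - Sl0.card := card_sdiff_of_subset h1
  obtain ⟨ψ1, k1, k2⟩ := hall_on (Sl \ Sl0) (fun l => Cand l \ Cv) (by
    intro X hX
    rcases X.eq_empty_or_nonempty with rfl | ⟨a, ha⟩
    · simp
    have hXSl : X ⊆ Sl := hX.trans sdiff_subset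
    have hXc := card_le_card hX
    by_cases hbig : X.card + m ≤ (R \ Cv).card
    · have g1 : (Cand a \ Cv).card ≤ (X.biUnion (fun l => Cand l \ Cv)).card :=
        card_le_card (subset_biUnion_of_mem (fun l => Cand l \ Cv) ha)
      have g2 := hC a (hXSl ha)
      have g3 := le_card_sdiff Cv (Cand a)
      omega
    · push Not at hbig
      have g1 : (R \ Cv) \ Bd ⊆ X.biUnion (fun l => Cand l \ Cv) := by
        intro ρ hρ
        rw [mem_sdiff, mem_sdiff] at hρ
        rw [mem_biUnion]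
        by_contra hcon
        push Not at hcon
        have g2 : Sl.filter (fun l => ρ ∈ Cand l) ⊆ Sl \ X := by
          intro l hl
          rw [mem_filter] at hl
          rw [mem_sdiff]
          refine ⟨hl.1, fun hlX => ?_⟩
          exact hcon l hlX (mem_sdiff.mpr ⟨hl.2, hρ.1.2⟩)
        have g3 := card_le_card g2
        rw [card_sdiff_of_subset hXSl] at g3
        have g4 := hgood ρ hρ.1.1 hρ.2
        omega
      have g2 := card_le_card g1
      have g3 := le_card_sdiff Bd (R \ Cv)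
      omega)
  have hψ0 : ∀ l ∈ Sl0, ψ0 l ∈ Cv := by
    intro l hl
    rw [← h5]
    exact mem_image_of_mem ψ0 hl
  refine ⟨fun l => if l ∈ Sl0 then ψ0 l else ψ1 l, ?_, ?_, ?_⟩
  · intro a ha b hb hab
    rw [Finset.mem_coe] at ha hb
    simp only at hab
    by_cases ha0 : a ∈ Sl0 <;> by_cases hb0 : b ∈ Sl0
    · rw [if_pos ha0, if_pos hb0] at hab
      exact h3 ha0 hb0 hab
    · rw [if_pos ha0, if_neg hb0] at hab
      have := (mem_sdiff.mp (k2 b (mem_sdiff.mpr ⟨hb, hb0⟩))).2
      exact absurd (hab ▸ hψ0 a ha0) this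
    · rw [if_neg ha0, if_pos hb0] at hab
      have := (mem_sdiff.mp (k2 a (mem_sdiff.mpr ⟨ha, ha0⟩))).2
      exact absurd (hab ▸ hψ0 b hb0) this
    · rw [if_neg ha0, if_neg hb0] at hab
      exact k1 (mem_sdiff.mpr ⟨ha, ha0⟩) (mem_sdiff.mpr ⟨hb, hb0⟩) hab
  · intro l hl
    simp only
    by_cases hl0 : l ∈ Sl0
    · rw [if_pos hl0]
      exact h4 l hl0
    · rw [if_neg hl0]
      exact (mem_sdiff.mp (k2 l (mem_sdiff.mpr ⟨hl, hl0⟩))).1
  · intro ρ hρ
    rw [← h5, mem_image] at hρ
    obtain ⟨l, hl, rfl⟩ := hρ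
    rw [mem_image]
    exact ⟨l, h1 hl, if_pos hl⟩

end Pool.Agent.H27.TC
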