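import Pool.Agent.H27.TC.ERGP

set_option autoImplicit false

/-
[H27 TC ERG]  Greedy embedding with regions and classes (no potential): rgp with PC = ∅, Q = ∅,
m = 1, wt = 0.
-/

namespace Pool.Agent.H27.TC

open Finset Classical

variable {V α : Type*}

theorem rg (G : SimpleGraph V) [Nonempty V] (P : Finset α) (rk : α → ℕ)
    (hrk : Set.InjOn rk (P : Set α)) (par : α → α) (Con : Finset α)
    (hCon : ∀ t ∈ Con, t ∈ P ∧ par t ∈ P ∧ rk (par t) < rk t)
    (Reg : α → Finset V) (cl : α → ℕ)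
    (hdisj : ∀ t ∈ P, ∀ t' ∈ P, cl t ≠ cl t' → Disjoint (Reg t) (Reg t'))
    (h1 : ∀ t ∈ Con, ∀ y ∈ Reg (par t),
      (P.filter (fun t' => rk t' < rk t ∧ cl t' = cl t)).card + 1 ≤
        ((Reg t).filter (fun x => G.Adj y x)).card)
    (h2 : ∀ t ∈ P, t ∉ Con →
      (P.filter (fun t' => rk t' < rk t ∧ cl t' = cl t)).card + 1 ≤ (Reg t).card) :
    ∃ φ : α → V, Set.InjOn φ (P : Set α) ∧ (∀ t ∈ P, φ t ∈ Reg t) ∧
      (∀ t ∈ Con, G.Adj (φ (par t)) (φ t)) := by
  obtain ⟨φ, i1, i2, i3, -⟩ := rgp G P rk hrk par Con hCon Reg cl hdisj ∅ (empty_subset _) ∅ 1 le_rfl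
    (by intro y hy; exact absurd hy (notMem_empty _)) (by intro t ht; exact absurd ht (notMem_empty _))
    (by
      intro t ht y hy
      rw [if_neg (notMem_empty t)]
      exact h1 t ht y hy)
    (by
      intro t ht ht'
      rw [if_neg (notMem_empty t)]
      exact h2 t ht ht')
    (fun _ => 0) 1 le_rfl (by intro t ht; exact absurd ht (notMem_empty _)) (fun _ => 0) 0
  exact ⟨φ, i1, i2, i3⟩

end Pool.Agent.H27.TC
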