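import Pool.Agent.H27.TC.NBas

set_option autoImplicit false

/-
[H27 TC NBad]  The number x of bad vertices is tiny.
(a) bad1: 1 <= lam <= 1541 h, K/(2 lam) <= N (natural division), x * 4^N <= 2 * (2K)  ==>  4 x <= lam.
    Put s = K/(2 lam) >= 10 (as lam <= 1541 h and K >= 10^7 h). K < 2 lam (s+1), so
    x * 4^s <= x * 4^N <= 4K <= 8 lam (s+1), and 32 (s+1) <= 4^s for s >= 10 (induction), hence
    4 x * 4^s <= 32 lam (s+1) <= lam * 4^s; cancel.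
(b) bad2: K/(2*(1541 h)) <= N, x * 4^N <= 2 * (2K)  ==>  x <= h.
    s = K/(3082 h) >= 10; K < 3082 h (s+1); x 4^s <= 4K <= 12328 h (s+1) and 12328 (s+1) <= 4^s
    for s >= 10 (4^10 = 1048576 >= 12328 * 11 = 135608; induction), so x <= h.
(c) bad3: K/(2*(1541 h)) <= N, x * 4^N <= 2 * a + 1, a <= 1002 * g, 1 <= g  ==>  x + 1 <= g.
    4^N >= 4^10 > 2*1002*g/g + 1...: x * 4^N <= 2004 g + 1 <= 2005 g < 4^N g, so x < g.
-/

namespace Pool.Agent.H27.TC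

lemma four_pow_a (s : ℕ) (hs : 10 ≤ s) : 32 * (s + 1) ≤ 4 ^ s ∧ 12328 * (s + 1) ≤ 4 ^ s := by
  induction s, hs using Nat.le_induction with
  | base => norm_num
  | succ s hs ih =>
    have e : 4 ^ (s + 1) = 4 * 4 ^ s := pow_succ' 4 s
    rw [e]
    constructor <;> omega

theorem bad1 {K r L q h : ℕ} (P : Par K r L q h) (lam N x : ℕ) (h1 : 1 ≤ lam)
    (h2 : lam ≤ 1541 * h) (hN : K / (2 * lam) ≤ N) (hx : x * 4 ^ N ≤ 4 * K) : 4 * x ≤ lam := by
  obtain ⟨hr, hrK, hq, hqh, hbig, hh3, -⟩ := par_facts P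
  set s := K / (2 * lam) with hs
  have hs10 : 10 ≤ s := by
    rw [hs, Nat.le_div_iff_mul_le (by omega)]
    omega
  have hK : K < 2 * lam * (s + 1) := by
    rw [hs]
    exact Nat.lt_mul_div_succ _ (by omega)
  have h3 : 4 ^ s ≤ 4 ^ N := Nat.pow_le_pow_right (by norm_num) hN
  have h4 := (four_pow_a s hs10).1
  have h5 : 4 * x * 4 ^ s ≤ lam * 4 ^ s := by
    calc 4 * x * 4 ^ s = 4 * (x * 4 ^ s) := by ring
      _ ≤ 4 * (x * 4 ^ N) := Nat.mul_le_mul_left _ (Nat.mul_le_mul_left _ h3)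
      _ ≤ 4 * (4 * K) := Nat.mul_le_mul_left _ hx
      _ ≤ 4 * (4 * (2 * lam * (s + 1))) := by omega
      _ = lam * (32 * (s + 1)) := by ring
      _ ≤ lam * 4 ^ s := Nat.mul_le_mul_left _ h4
  exact Nat.le_of_mul_le_mul_right h5 (Nat.pow_pos (by norm_num))

theorem bad2 {K r L q h : ℕ} (P : Par K r L q h) (N x : ℕ)
    (hN : K / (2 * (1541 * h)) ≤ N) (hx : x * 4 ^ N ≤ 4 * K) : x ≤ h := by
  obtain ⟨hr, hrK, hq, hqh, hbig, hh3, -⟩ := par_facts P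
  set s := K / (2 * (1541 * h)) with hs
  have hs10 : 10 ≤ s := by
    rw [hs, Nat.le_div_iff_mul_le (by omega)]
    omega
  have hK : K < 2 * (1541 * h) * (s + 1) := by
    rw [hs]
    exact Nat.lt_mul_div_succ _ (by omega)
  have h3 : 4 ^ s ≤ 4 ^ N := Nat.pow_le_pow_right (by norm_num) hN
  have h4 := (four_pow_a s hs10).2
  have h5 : x * 4 ^ s ≤ h * 4 ^ s := by
    calc x * 4 ^ s ≤ x * 4 ^ N := Nat.mul_le_mul_left _ h3
      _ ≤ 4 * K := hx
      _ ≤ 4 * (2 * (1541 * h) * (s + 1)) := by omega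
      _ = h * (12328 * (s + 1)) := by ring
      _ ≤ h * 4 ^ s := Nat.mul_le_mul_left _ h4
  exact Nat.le_of_mul_le_mul_right h5 (Nat.pow_pos (by norm_num))

theorem bad3 {K r L q h : ℕ} (P : Par K r L q h) (N x a g : ℕ)
    (hN : K / (2 * (1541 * h)) ≤ N) (hx : x * 4 ^ N ≤ 2 * a + 1) (ha : a ≤ 1002 * g)
    (hg : 1 ≤ g) : x + 1 ≤ g := by
  obtain ⟨hr, hrK, hq, hqh, hbig, hh3, -⟩ := par_facts P
  set s := K / (2 * (1541 * h)) with hs
  have hs10 : 10 ≤ s := by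
    rw [hs, Nat.le_div_iff_mul_le (by omega)]
    omega
  have h3 : 4 ^ 10 ≤ 4 ^ N := Nat.pow_le_pow_right (by norm_num) (by omega)
  by_contra hcon
  push Not at hcon
  have h4 : g * 4 ^ 10 ≤ x * 4 ^ N := Nat.mul_le_mul (by omega) h3
  norm_num at h4
  omega

end Pool.Agent.H27.TC
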