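import Pool.Agent.H27.TC.Defs

set_option autoImplicit false

/-
[H27 TC NBas]  Elementary facts used everywhere.
(1) par_facts: from P: 2^13 <= 2^(L-1) <= r, r <= K, 3 <= q, 6 q <= K, 10000 q <= h, r * ... ;
    q >= 3: if q <= 2 then 2K <= 2 r <= (3K+1)/2, i.e. 4K <= 3K+1, K <= 1, contradiction to K >= r >= 4.
(2) W_mul: C(K,r) * r = K * C(K-1,r-1)  (Nat.succ_mul_choose_eq / add_one_mul_choose_eq).
(3) w2_mul: (K-1) * C(K-2,r-2) = (r-1) * C(K-1,r-1).
(4) theta_mul: 2 * (K * (theta - 1)) <= C(K,r): (theta-1) * 2r <= w, so 2 K (theta-1) r <= K w =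
    C(K,r) r; cancel r.
(5) lt_theta: w < 2 r theta (Nat.lt_div_mul_add / Nat.div_add_mod).
(6) w_pos.
-/

namespace Pool.Agent.H27.TC

open Finset Classical
open Pool.Agent.H28.TreeClique

theorem par_facts {K r L q h : ℕ} (P : Par K r L q h) :
    10000 ≤ r ∧ r ≤ K ∧ 3 ≤ q ∧ 10000 * q ≤ h ∧ 10 ^ 7 * h ≤ K ∧ 3 ≤ h ∧ K ≤ r * q := by
  have h1 : 2 ^ 15 ≤ 2 ^ L := Nat.pow_le_pow_right (by norm_num) (by have := P.hL; omega)
  have h2 := P.hr2
  have hr : 10000 ≤ r := by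
    norm_num at h1
    omega
  have hK := P.hrK
  have hrK : r ≤ K := by omega
  have hq1 := P.hq1
  have hq : 3 ≤ q := by
    by_contra hcon
    push Not at hcon
    have h3 : r * q ≤ r * 2 := Nat.mul_le_mul_left _ (by omega)
    omega
  have hqh : 10000 * q ≤ h := by
    rw [P.hh]
    exact Nat.mul_le_mul_right _ (by have := P.hL; omega)
  refine ⟨hr, hrK, hq, hqh, P.hbig, by omega, by omega⟩

theorem W_mul {K r L q h : ℕ} (P : Par K r L q h) :
    K.choose r * r = K * (K - 1).choose (r - 1) := by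
  obtain ⟨hr, hrK, -⟩ := par_facts P
  obtain ⟨K', rfl⟩ : ∃ K', K = K' + 1 := ⟨K - 1, by omega⟩
  obtain ⟨r', rfl⟩ : ∃ r', r = r' + 1 := ⟨r - 1, by omega⟩
  rw [Nat.add_sub_cancel, Nat.add_sub_cancel]
  exact (Nat.add_one_mul_choose_eq K' r').symm

theorem w2_mul {K r L q h : ℕ} (P : Par K r L q h) :
    (K - 1) * (K - 2).choose (r - 2) = (r - 1) * (K - 1).choose (r - 1) := by
  obtain ⟨hr, hrK, -⟩ := par_facts P
  obtain ⟨K', rfl⟩ : ∃ K', K = K' + 2 := ⟨K - 2, by omega⟩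
  obtain ⟨r', rfl⟩ : ∃ r', r = r' + 2 := ⟨r - 2, by omega⟩
  have e1 : K' + 2 - 1 = K' + 1 := by omega
  have e2 : r' + 2 - 1 = r' + 1 := by omega
  rw [Nat.add_sub_cancel, Nat.add_sub_cancel, e1, e2, Nat.add_one_mul_choose_eq K' r', mul_comm]

theorem theta_mul {K r L q h : ℕ} (P : Par K r L q h) :
    2 * (K * (theta K r - 1)) ≤ K.choose r := by
  obtain ⟨hr, hrK, -⟩ := par_facts P
  have h1 := W_mul P
  have h2 : 2 * r * ((K - 1).choose (r - 1) / (2 * r)) ≤ (K - 1).choose (r - 1) :=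
    Nat.mul_div_le _ _
  have h3 : theta K r - 1 = (K - 1).choose (r - 1) / (2 * r) := by
    unfold theta
    exact Nat.add_sub_cancel _ _
  rw [h3]
  have h4 : 2 * (K * ((K - 1).choose (r - 1) / (2 * r))) * r ≤ K.choose r * r := by
    calc 2 * (K * ((K - 1).choose (r - 1) / (2 * r))) * r
        = K * (2 * r * ((K - 1).choose (r - 1) / (2 * r))) := by ring
      _ ≤ K * (K - 1).choose (r - 1) := Nat.mul_le_mul_left _ h2
      _ = K.choose r * r := h1.symm
  exact Nat.le_of_mul_le_mul_right h4 (by omega)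

theorem lt_theta {K r L q h : ℕ} (P : Par K r L q h) :
    (K - 1).choose (r - 1) < 2 * r * theta K r := by
  obtain ⟨hr, hrK, -⟩ := par_facts P
  unfold theta
  exact Nat.lt_mul_div_succ _ (by omega)

theorem w_pos {K r L q h : ℕ} (P : Par K r L q h) : 0 < (K - 1).choose (r - 1) := by
  obtain ⟨hr, hrK, -⟩ := par_facts P
  exact Nat.choose_pos (by omega)

theorem W_split {K r L q h : ℕ} (P : Par K r L q h) :
    K.choose r = (K - 1).choose r + (K - 1).choose (r - 1) := by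
  obtain ⟨hr, hrK, -⟩ := par_facts P
  obtain ⟨K', rfl⟩ : ∃ K', K = K' + 1 := ⟨K - 1, by omega⟩
  obtain ⟨r', rfl⟩ : ∃ r', r = r' + 1 := ⟨r - 1, by omega⟩
  rw [Nat.add_sub_cancel, Nat.add_sub_cancel, Nat.choose_succ_succ, add_comm]

end Pool.Agent.H27.TC
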