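import Pool.Agent.H27.TC.NHalf

set_option autoImplicit false

/-
[H27 TC NGrow]  If C(b-1, r-1) is below the threshold then C(b+t, r-1) is still tiny for t <= 90q.

Write w = C(K-1, r-1), t0 = r - 1, f(N) = C(N, r-1) (nondecreasing in N).
Hypothesis: f(b-1) < w/(2r) + 1, i.e. f(b-1) * 2r <= w, and 2r >= 2^L, so f(b-1) * 2^L <= w.
Suppose f(b+t) * 2^(L/2) > w. Let N be the LEAST natural number with b - 1 <= N and
f(N) * 2^(L/2) > w. Then N <= b + t <= b + 90 q and N >= b (as f(b-1) * 2^(L/2) <= f(b-1) 2^L <= w),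
and f(N-1) * 2^(L/2) <= w.
(a) N <= K - 1: otherwise N - 1 >= K - 1 >= ... gives f(N-1) >= w and 2^(L/2) > 1, w > 0
    (w > 0 as r - 1 <= K - 1), contradiction with f(N-1) 2^(L/2) <= w. (If N - 1 < b - 1 impossible.)
(b) N > K - 1 - (L/2) q: otherwise f(N) * 2^(L/2) <= f(K-1-(L/2) q) * 2^(L/2) <= w by `half`
    (N := K-1, t := r-1, j := L/2).
(c) So b - 1 >= N - 90 q - 1 >= K - 2 - (L/2) q - 90 q, and with x >= b - 1:
    x + 2 - r >= K - r - (L/2) q - 90 q >= K/8, because r <= (3K+1)/4 and (L/2 + 91) q <= h <= K/10^7.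
    So for x in [b-1, N): f(x+1) = f(x) * (x+1)/(x+2-r)  (Nat: f(x+1) * (x+2-r) = f(x) * (x+1)),
    (x+1)/(x+2-r) = 1 + (r-1)/(x+2-r) <= 1 + 8 r/K.
(d) f(N) <= (1 + 8r/K)^(N-(b-1)) f(b-1), N - (b-1) <= 90 q + 1 <= 91 q, and
    (1 + 8r/K)^(91 q) <= exp(8 * 91 * r q/K) <= exp(2184) <= 4^2184 = 2^4368 (r q <= 3K; e <= 4;
    Real.add_one_le_exp).
    So w < f(N) 2^(L/2) <= 2^(4368 + L/2) f(b-1) <= 2^(4368 + L/2 - L) w <= w, since
    4368 <= L - L/2 (L >= 10000). Contradiction.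
-/

namespace Pool.Agent.H27.TC

open Finset Classical
open Pool.Agent.H28.TreeClique

lemma exp_bound (y : ℝ) (i : ℕ) (hy : 0 ≤ y) (h : y * i ≤ 2184) :
    (1 + y) ^ i ≤ (2 : ℝ) ^ 4368 := by
  calc (1 + y) ^ i ≤ (Real.exp y) ^ i := by
        apply pow_le_pow_left₀ (by linarith)
        have := Real.add_one_le_exp y
        linarith
    _ = Real.exp (i * y) := by rw [← Real.exp_nat_mul]
    _ ≤ Real.exp ((2184 : ℕ) * 1) := by
        apply Real.exp_le_exp.mpr
        push_cast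
        linarith
    _ = (Real.exp 1) ^ 2184 := by rw [Real.exp_nat_mul]
    _ ≤ (4 : ℝ) ^ 2184 := by
        apply pow_le_pow_left₀ (Real.exp_pos 1).le
        have := Real.exp_one_lt_d9
        linarith
    _ = ((2 : ℝ) ^ 2) ^ 2184 := by
        congr 1
        norm_num
    _ = (2 : ℝ) ^ 4368 := by rw [← pow_mul]

theorem growth {K r L q h : ℕ} (P : Par K r L q h) (b : ℕ) (hb : 1 ≤ b)
    (hlow : (b - 1).choose (r - 1) < theta K r) (t : ℕ) (ht : t ≤ 90 * q) :
    (b + t).choose (r - 1) * 2 ^ (L / 2) ≤ (K - 1).choose (r - 1) := by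
  obtain ⟨hr, hq, hqK, hrK⟩ := par_pre P
  by_contra hcon
  push Not at hcon
  have hwpos : 0 < (K - 1).choose (r - 1) := Nat.choose_pos (by omega)
  have hlow' : (b - 1).choose (r - 1) * 2 ^ L ≤ (K - 1).choose (r - 1) := by
    have h1 : (b - 1).choose (r - 1) ≤ (K - 1).choose (r - 1) / (2 * r) := by
      unfold theta at hlow
      exact Nat.le_of_lt_succ hlow
    have h2 := (Nat.le_div_iff_mul_le (show 0 < 2 * r by omega)).mp h1
    exact (Nat.mul_le_mul_left _ P.hr2).trans h2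
  generalize hw : (K - 1).choose (r - 1) = w at hcon hlow' hwpos
  have hex : ∃ N, b - 1 ≤ N ∧ w < N.choose (r - 1) * 2 ^ (L / 2) := ⟨b + t, by omega, hcon⟩
  obtain ⟨hN1, hN2⟩ := Nat.find_spec hex
  have hNle : Nat.find hex ≤ b + t := Nat.find_min' hex ⟨by omega, hcon⟩
  have hNmin : ∀ m, m < Nat.find hex → ¬ (b - 1 ≤ m ∧ w < m.choose (r - 1) * 2 ^ (L / 2)) :=
    fun m hm => Nat.find_min hex hm
  generalize Nat.find hex = N at hN1 hN2 hNle hNmin
  have hL := P.hL
  have h2L : 2 ^ (L / 2) ≤ 2 ^ L := Nat.pow_le_pow_right (by norm_num) (by omega)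
  have hNb : b ≤ N := by
    by_contra hc
    push Not at hc
    have : N = b - 1 := by omega
    rw [this] at hN2
    have h3 := Nat.mul_le_mul_left ((b - 1).choose (r - 1)) h2L
    omega
  have hpred : (N - 1).choose (r - 1) * 2 ^ (L / 2) ≤ w := by
    have := hNmin (N - 1) (by omega)
    rw [not_and] at this
    have h3 := this (by omega)
    omega
  have hNK : N ≤ K - 1 := by
    by_contra hc
    push Not at hc
    have h3 : w ≤ (N - 1).choose (r - 1) := by
      rw [← hw]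
      exact Nat.choose_le_choose _ (by omega)
    have h4 : 2 ^ 1 ≤ 2 ^ (L / 2) := Nat.pow_le_pow_right (by norm_num) (by omega)
    have h5 : w * 2 ≤ (N - 1).choose (r - 1) * 2 ^ (L / 2) := Nat.mul_le_mul h3 (by omega)
    omega
  have hNlow : K - 1 < N + (L / 2) * q := by
    by_contra hc
    push Not at hc
    have h3 := half P (K - 1) (r - 1) (L / 2) (by omega) (by omega)
    rw [hw] at h3
    have h4 : N.choose (r - 1) ≤ (K - 1 - L / 2 * q).choose (r - 1) :=
      Nat.choose_le_choose _ (by omega)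
    have h5 := Nat.mul_le_mul_right (2 ^ (L / 2)) h4
    omega
  -- sizes
  have hsz : (L / 2) * q + 91 * q ≤ h := by
    rw [P.hh, ← add_mul]
    exact Nat.mul_le_mul_right _ (by omega)
  have hbig := P.hbig
  have hrK4 := P.hrK
  have hstep : ∀ x, b - 1 ≤ x → x < N →
      ((x + 1).choose (r - 1) : ℝ) ≤ (1 + 8 * r / K) * (x.choose (r - 1) : ℝ) := by
    intro x hx1 hx2
    have hx3 : K ≤ 8 * (x + 2 - r) := by omega
    have hKpos : (0 : ℝ) < K := by
      have : 0 < K := by omega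
      exact_mod_cast this
    have h3 : x.choose (r - 1) * (x + 1) = (x + 1).choose (r - 1) * (x + 1 - (r - 1)) :=
      Nat.choose_mul_succ_eq x (r - 1)
    have h4 : x + 1 - (r - 1) = x + 2 - r := by omega
    rw [h4] at h3
    obtain ⟨d, hd⟩ : ∃ d, x + 2 - r = d := ⟨_, rfl⟩
    rw [hd] at h3 hx3
    have hx4 : x + 1 = d + (r - 1) := by omega
    have hdpos : (0 : ℝ) < d := by
      have : 0 < d := by omega
      exact_mod_cast this
    have h5 : (x.choose (r - 1) : ℝ) * (d + (r - 1 : ℕ)) = ((x + 1).choose (r - 1) : ℝ) * d := by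
      rw [hx4] at h3 ⊢
      exact_mod_cast h3
    have h6 : ((r - 1 : ℕ) : ℝ) ≤ 8 * r / K * d := by
      have h7 : ((r - 1 : ℕ) : ℝ) ≤ r := by exact_mod_cast Nat.sub_le r 1
      have h8 : (K : ℝ) ≤ 8 * d := by exact_mod_cast hx3
      have h9 : (r : ℝ) ≤ 8 * r / K * d := by
        rw [div_mul_eq_mul_div, le_div_iff₀ hKpos]
        have : (0 : ℝ) ≤ r := Nat.cast_nonneg _
        nlinarith
      linarith
    have h10 : ((x + 1).choose (r - 1) : ℝ) * d ≤ ((1 + 8 * r / K) * (x.choose (r - 1) : ℝ)) * d := by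
      rw [← h5]
      have h11 : (0 : ℝ) ≤ (x.choose (r - 1) : ℝ) := Nat.cast_nonneg _
      calc (x.choose (r - 1) : ℝ) * (d + (r - 1 : ℕ))
          ≤ (x.choose (r - 1) : ℝ) * (d + 8 * r / K * d) :=
            mul_le_mul_of_nonneg_left (by linarith) h11
        _ = _ := by ring
    exact le_of_mul_le_mul_right h10 hdpos
  have hind : ∀ i, b - 1 + i ≤ N →
      ((b - 1 + i).choose (r - 1) : ℝ) ≤ (1 + 8 * r / K) ^ i * ((b - 1).choose (r - 1) : ℝ) := by
    intro i
    induction i with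
    | zero => intro _; simp
    | succ i ih =>
      intro hi
      have h3 := ih (by omega)
      have h4 := hstep (b - 1 + i) (by omega) (by omega)
      have h5 : (0 : ℝ) ≤ 1 + 8 * r / K := by positivity
      calc ((b - 1 + (i + 1)).choose (r - 1) : ℝ)
          = ((b - 1 + i + 1).choose (r - 1) : ℝ) := by rw [add_assoc]
        _ ≤ (1 + 8 * r / K) * ((b - 1 + i).choose (r - 1) : ℝ) := h4
        _ ≤ (1 + 8 * r / K) * ((1 + 8 * r / K) ^ i * ((b - 1).choose (r - 1) : ℝ)) :=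
            mul_le_mul_of_nonneg_left h3 h5
        _ = _ := by ring
  obtain ⟨i, hi⟩ := Nat.exists_eq_add_of_le hN1
  have hi91 : i ≤ 91 * q := by omega
  have h3 := hind i (by omega)
  rw [← hi] at h3
  have hKpos : (0 : ℝ) < K := by
    have : 0 < K := by omega
    exact_mod_cast this
  have h4 : (8 * (r : ℝ) / K) * i ≤ 2184 := by
    rw [div_mul_eq_mul_div, div_le_iff₀ hKpos]
    have h5 : ((r : ℝ)) * q ≤ 3 * K := by exact_mod_cast P.hq2
    have h6 : (i : ℝ) ≤ 91 * q := by exact_mod_cast hi91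
    have h7 : (0 : ℝ) ≤ r := Nat.cast_nonneg _
    nlinarith
  have h5 := exp_bound (8 * (r : ℝ) / K) i (by positivity) h4
  have h6 : (N.choose (r - 1) : ℝ) ≤ (2 : ℝ) ^ 4368 * ((b - 1).choose (r - 1) : ℝ) :=
    h3.trans (mul_le_mul_of_nonneg_right h5 (Nat.cast_nonneg _))
  have h7 : N.choose (r - 1) ≤ 2 ^ 4368 * (b - 1).choose (r - 1) := by
    have e : ((2 ^ 4368 * (b - 1).choose (r - 1) : ℕ) : ℝ) =
        (2 : ℝ) ^ 4368 * ((b - 1).choose (r - 1) : ℝ) := by
      rw [Nat.cast_mul, Nat.cast_pow, Nat.cast_ofNat]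
    rw [← e] at h6
    exact Nat.cast_le.mp h6
  have h8 : 2 ^ 4368 * 2 ^ (L / 2) ≤ 2 ^ L := by
    rw [← pow_add]
    exact Nat.pow_le_pow_right (by norm_num) (by omega)
  have h9 : N.choose (r - 1) * 2 ^ (L / 2) ≤ w := by
    calc N.choose (r - 1) * 2 ^ (L / 2)
        ≤ (2 ^ 4368 * (b - 1).choose (r - 1)) * 2 ^ (L / 2) := Nat.mul_le_mul_right _ h7
      _ = (b - 1).choose (r - 1) * (2 ^ 4368 * 2 ^ (L / 2)) := by ring
      _ ≤ (b - 1).choose (r - 1) * 2 ^ L := Nat.mul_le_mul_left _ h8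
      _ ≤ w := hlow'
  exact absurd hN2 (not_lt.mpr h9)

end Pool.Agent.H27.TC
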