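import Pool.Agent.H27.TC.Defs

set_option autoImplicit false

/-
[H27 TC NHalf]  Halving of binomial coefficients.

STEP 1 (general, no Par): for natural n, t, i with i <= n:
    (n - i).choose t * n ^ i <= n.choose t * (n - t) ^ i.
  Induction on i. From (n - i) to (n - i - 1): for N = n - i >= 1 we have
    (N - 1).choose t * N = N.choose t * (N - t)     (Nat.choose_mul_succ_eq or similar; true also
    if t > N since then both sides vanish),
  and (N - t) * n <= N * (n - t) because N <= n (truncated subtraction is fine: if t >= N the left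
  side is 0). So (N-1).choose t * n^(i+1) * N = N.choose t * (N - t) * n^(i+1)
    <= (n.choose t * (n-t)^i) * (N - t) * n <= n.choose t * (n-t)^i * (n - t) * N; cancel N > 0.
STEP 2: if q * t >= n and t <= n and 1 <= q then 2 * (n - t) ^ q <= n ^ q.
  Indeed n = (n - t) + t, and Bernoulli: n^q = ((n-t)+t)^q >= (n-t)^q + q * t * (n-t)^(q-1)
  >= (n-t)^q + n * (n-t)^(q-1) >= 2 (n-t)^q   (first two terms of the binomial expansion; or
  one_add_mul_le_pow over the reals/rationals if n - t > 0; if n - t = 0 trivial as q >= 1).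
STEP 3: for n <= K and r <= t + 2: 2 * (n - q).choose t <= n.choose t.
  Numerics from P: r >= 2^L / 2 >= 2^9999, q >= 1 (from 2K <= r q and K >= 1 as 4 r <= 3K+1),
  q <= K/2 (from r q <= 3K and r >= 6), so t * q >= (r - 2) q >= 2 K - 2 q >= K >= n.
  If n < q then n - q = 0 and 0.choose t = 0 since t >= 1. Otherwise STEP 1 with i = q, then
  2 * (n-q).choose t * n^q <= n.choose t * (2 (n-t)^q) <= n.choose t * n^q and cancel n^q > 0
  (if t > n then n.choose t = 0 and (n-q).choose t = 0).
STEP 4: induction on j: (N - (j+1) q) = (N - j q) - q, and N - j q <= K.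
-/

namespace Pool.Agent.H27.TC

open Finset Classical
open Pool.Agent.H28.TreeClique

/-- Step 1. -/
lemma choose_ratio (n t i : ℕ) (hi : i ≤ n) :
    (n - i).choose t * n ^ i ≤ n.choose t * (n - t) ^ i := by
  induction i with
  | zero => simp
  | succ i ih =>
    have ih' := ih (by omega)
    obtain ⟨N, hN⟩ : ∃ N, n - i = N + 1 := ⟨n - i - 1, by omega⟩
    have e0 : n - (i + 1) = N := by omega
    rw [e0]
    rw [hN] at ih'
    -- N.choose t * (N+1) = (N+1).choose t * (N + 1 - t)
    have e1 : N.choose t * (N + 1) = (N + 1).choose t * (N + 1 - t) := Nat.choose_mul_succ_eq N t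
    have e2 : (N + 1 - t) * n ≤ (N + 1) * (n - t) := by
      by_cases ht : t ≤ N + 1
      · obtain ⟨a, ha⟩ := Nat.exists_eq_add_of_le ht
        obtain ⟨b, hb⟩ := Nat.exists_eq_add_of_le (show N + 1 ≤ n by omega)
        have e3 : N + 1 - t = a := by omega
        have e4 : n - t = a + b := by omega
        rw [e3, e4, hb, ha]
        nlinarith
      · push Not at ht
        have : N + 1 - t = 0 := by omega
        rw [this]
        simp
    have e5 : N.choose t * n ^ (i + 1) * (N + 1) ≤ n.choose t * (n - t) ^ (i + 1) * (N + 1) := by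
      calc N.choose t * n ^ (i + 1) * (N + 1)
          = (N.choose t * (N + 1)) * n ^ i * n := by ring
        _ = ((N + 1).choose t * n ^ i) * ((N + 1 - t) * n) := by rw [e1]; ring
        _ ≤ (n.choose t * (n - t) ^ i) * ((N + 1) * (n - t)) := Nat.mul_le_mul ih' e2
        _ = _ := by ring
    exact Nat.le_of_mul_le_mul_right e5 (by omega)

/-- Step 2. -/
lemma pow_half (n t q : ℕ) (ht : t ≤ n) (hq : 1 ≤ q) (h : n ≤ q * t) :
    2 * (n - t) ^ q ≤ n ^ q := by
  obtain ⟨a, ha⟩ := Nat.exists_eq_add_of_le ht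
  have e1 : n - t = a := by omega
  rw [e1]
  obtain ⟨p, rfl⟩ : ∃ p, q = p + 1 := ⟨q - 1, by omega⟩
  -- (a + t)^(p+1) ≥ a^(p+1) + (p+1) t a^p
  have e2 : ∀ p : ℕ, a ^ (p + 1) + (p + 1) * t * a ^ p ≤ (a + t) ^ (p + 1) := by
    intro p
    induction p with
    | zero => simp
    | succ p ih =>
      calc a ^ (p + 1 + 1) + (p + 1 + 1) * t * a ^ (p + 1)
          ≤ (a ^ (p + 1) + (p + 1) * t * a ^ p) * (a + t) := by
            have : 0 ≤ (p + 1) * t * a ^ p * t := Nat.zero_le _
            calc a ^ (p + 1 + 1) + (p + 1 + 1) * t * a ^ (p + 1)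
                ≤ a ^ (p + 1 + 1) + (p + 1 + 1) * t * a ^ (p + 1) + (p + 1) * t * a ^ p * t :=
                  Nat.le_add_right _ _
              _ = _ := by ring
        _ ≤ (a + t) ^ (p + 1) * (a + t) := Nat.mul_le_mul_right _ ih
        _ = (a + t) ^ (p + 1 + 1) := by ring
  have e3 := e2 p
  have e4 : a + t = n := by omega
  rw [e4] at e3
  have e5 : a ^ (p + 1) ≤ (p + 1) * t * a ^ p := by
    calc a ^ (p + 1) = a * a ^ p := by ring
      _ ≤ ((p + 1) * t) * a ^ p := Nat.mul_le_mul_right _ (by omega)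
  omega

lemma par_pre {K r L q h : ℕ} (P : Par K r L q h) :
    8 ≤ r ∧ 1 ≤ q ∧ 2 * q ≤ K ∧ r ≤ K := by
  have h1 : 2 ^ 4 ≤ 2 ^ L := Nat.pow_le_pow_right (by norm_num) (by have := P.hL; omega)
  have h2 := P.hr2
  have hr : 8 ≤ r := by omega
  have hK := P.hrK
  have hrK : r ≤ K := by omega
  have hq : 1 ≤ q := by
    by_contra hcon
    have : q = 0 := by omega
    have h3 := P.hq1
    rw [this] at h3
    omega
  refine ⟨hr, hq, ?_, hrK⟩
  have h3 := P.hq2
  have h4 : 8 * q ≤ r * q := Nat.mul_le_mul_right _ hr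
  omega

/-- Step 3. -/
lemma half_one {K r L q h : ℕ} (P : Par K r L q h) (n t : ℕ) (hn : n ≤ K) (ht : r ≤ t + 2) :
    (n - q).choose t * 2 ≤ n.choose t := by
  obtain ⟨hr, hq, hqK, hrK⟩ := par_pre P
  by_cases hqn : q ≤ n
  · by_cases htn : t ≤ n
    · have h1 := choose_ratio n t q hqn
      have h2 : n ≤ q * t := by
        have h3 := P.hq1
        have h4 : r * q ≤ (t + 2) * q := Nat.mul_le_mul_right _ ht
        have h5 : (t + 2) * q = q * t + 2 * q := by ring
        omega
      have h3 := pow_half n t q htn hq h2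
      have h4 : (n - q).choose t * 2 * n ^ q ≤ n.choose t * n ^ q := by
        calc (n - q).choose t * 2 * n ^ q = 2 * ((n - q).choose t * n ^ q) := by ring
          _ ≤ 2 * (n.choose t * (n - t) ^ q) := Nat.mul_le_mul_left _ h1
          _ = n.choose t * (2 * (n - t) ^ q) := by ring
          _ ≤ n.choose t * n ^ q := Nat.mul_le_mul_left _ h3
      have hnpos : 0 < n ^ q := Nat.pow_pos (by omega)
      exact Nat.le_of_mul_le_mul_right h4 hnpos
    · push Not at htn
      rw [Nat.choose_eq_zero_of_lt (show n - q < t by omega)]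
      simp
  · push Not at hqn
    have : n - q = 0 := by omega
    rw [this, Nat.choose_eq_zero_of_lt (show 0 < t by omega)]
    simp

theorem half {K r L q h : ℕ} (P : Par K r L q h) (N t j : ℕ) (hN : N ≤ K) (ht : r ≤ t + 2) :
    (N - j * q).choose t * 2 ^ j ≤ N.choose t := by
  induction j with
  | zero => simp
  | succ j ih =>
    have e1 : N - (j + 1) * q = (N - j * q) - q := by
      rw [add_mul, one_mul]
      omega
    rw [e1]
    have h1 := half_one P (N - j * q) t (by omega) ht
    calc ((N - j * q) - q).choose t * 2 ^ (j + 1)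
        = (((N - j * q) - q).choose t * 2) * 2 ^ j := by ring
      _ ≤ (N - j * q).choose t * 2 ^ j := Nat.mul_le_mul_right _ h1
      _ ≤ _ := ih

end Pool.Agent.H27.TC
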