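import Pool.Agent.H27.TC.NHalf

set_option autoImplicit false

/-
[H27 TC NLin]  Linear upper bound for a binomial coefficient near the top.

Claim: for x <= 6 q:  C(K-1-x, r-1) * 7q <= (7q - x) * C(K-1, r-1).

Put n = K - 1, t = r - 1 (t <= n: from 4r <= 3K+1 and r large). Facts from P: t * q >= n, because
(r-1) q = r q - q >= 2K - q and q <= K/2 (r q <= 3K, r >= 6).
STEP 1: (n - x).choose t * n ^ x <= n.choose t * (n - t) ^ x for x <= n (same induction as in
  NHalf STEP 1: (N-1).choose t * N = N.choose t * (N - t) and (N - t) * n <= N * (n - t)).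
STEP 2: (n - t)^x * (q + x) <= q * n^x.   Proof: over the reals, with s = t/n in [0,1]:
  (1 - s)^x (1 + s x) <= 1 since (1-s) <= 1/(1+s) and (1+s)^x >= 1 + s x (Bernoulli), so
  (1-s)^x <= 1/(1+ s x) <= 1/(1 + x/q) as s >= 1/q.
STEP 3: so C(n-x,t) (q+x) <= q C(n,t), and 7 q * q <= (7 q - x)(q + x) for 0 <= x <= 6 q
  (difference 6 q x - x^2 >= 0; natural subtraction is fine since x <= 6q <= 7q). Hence
  C(n-x,t) * 7q * (q+x) <= 7 q * q * C(n,t) <= (7q - x)(q+x) C(n,t); cancel q + x > 0.
x <= n holds since 6 q <= n (r q <= 3K and r huge).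
-/

namespace Pool.Agent.H27.TC

open Finset Classical
open Pool.Agent.H28.TreeClique

lemma lin_pow (n t q : ℕ) (ht : t ≤ n) (h : n ≤ q * t) (hq : 1 ≤ q) (x : ℕ) :
    (n - t) ^ x * (q + x) ≤ q * n ^ x := by
  obtain ⟨a, ha⟩ := Nat.exists_eq_add_of_le ht
  have e1 : n - t = a := by omega
  rw [e1]
  induction x with
  | zero => simp
  | succ x ih =>
    have e2 : a * (q + x + 1) ≤ n * (q + x) := by
      rw [ha]
      have e3 : (t + a) * (q + x) = a * (q + x) + t * q + t * x := by ring
      have e4 : a * (q + x + 1) = a * (q + x) + a := by ring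
      have e5 : q * t = t * q := by ring
      have e6 : 0 ≤ t * x := Nat.zero_le _
      omega
    have e7 : a ^ (x + 1) * (q + (x + 1)) * (q + x) ≤ q * n ^ (x + 1) * (q + x) := by
      calc a ^ (x + 1) * (q + (x + 1)) * (q + x)
          = (a ^ x * (q + x)) * (a * (q + x + 1)) := by ring
        _ ≤ (q * n ^ x) * (n * (q + x)) := Nat.mul_le_mul ih e2
        _ = _ := by ring
    exact Nat.le_of_mul_le_mul_right e7 (by omega)

theorem lin {K r L q h : ℕ} (P : Par K r L q h) (x : ℕ) (hx : x ≤ 6 * q) :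
    (K - 1 - x).choose (r - 1) * (7 * q) ≤ (7 * q - x) * (K - 1).choose (r - 1) := by
  obtain ⟨hr, hq, hqK, hrK⟩ := par_pre P
  have hr100 : 100 ≤ r := by
    have h1 : 2 ^ 8 ≤ 2 ^ L := Nat.pow_le_pow_right (by norm_num) (by have := P.hL; omega)
    have h2 := P.hr2
    omega
  have h6 : 6 * q ≤ K - 1 := by
    have h3 := P.hq2
    have h4 : 100 * q ≤ r * q := Nat.mul_le_mul_right _ hr100
    omega
  set n := K - 1 with hn
  set t := r - 1 with ht
  have htn : t ≤ n := by omega
  have hnq : n ≤ q * t := by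
    have h3 := P.hq1
    have h5 : r * q = q * t + q := by
      have : r = t + 1 := by omega
      rw [this]
      ring
    omega
  have h1 := choose_ratio n t x (by omega)
  have h2 := lin_pow n t q htn hnq hq x
  have h3 : (n - x).choose t * (q + x) ≤ n.choose t * q := by
    have h4 : (n - x).choose t * (q + x) * n ^ x ≤ n.choose t * q * n ^ x := by
      calc (n - x).choose t * (q + x) * n ^ x = ((n - x).choose t * n ^ x) * (q + x) := by ring
        _ ≤ (n.choose t * (n - t) ^ x) * (q + x) := Nat.mul_le_mul_right _ h1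
        _ = n.choose t * ((n - t) ^ x * (q + x)) := by ring
        _ ≤ n.choose t * (q * n ^ x) := Nat.mul_le_mul_left _ h2
        _ = _ := by ring
    exact Nat.le_of_mul_le_mul_right h4 (Nat.pow_pos (by omega))
  have h4 : 7 * q * q ≤ (7 * q - x) * (q + x) := by
    obtain ⟨b, hb⟩ := Nat.exists_eq_add_of_le hx
    have e1 : 7 * q - x = b + q := by omega
    rw [e1]
    have e2 : (b + q) * (q + x) = q * (b + x) + q * q + b * x := by ring
    rw [e2, show b + x = 6 * q by omega]
    have e3 : q * (6 * q) + q * q = 7 * q * q := by ring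
    omega
  have h5 : (n - x).choose t * (7 * q) * (q + x) ≤ (7 * q - x) * n.choose t * (q + x) := by
    calc (n - x).choose t * (7 * q) * (q + x) = ((n - x).choose t * (q + x)) * (7 * q) := by ring
      _ ≤ (n.choose t * q) * (7 * q) := Nat.mul_le_mul_right _ h3
      _ = n.choose t * (7 * q * q) := by ring
      _ ≤ n.choose t * ((7 * q - x) * (q + x)) := Nat.mul_le_mul_left _ h4
      _ = _ := by ring
  exact Nat.le_of_mul_le_mul_right h5 (by omega)

end Pool.Agent.H27.TC
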