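import Pool.Agent.H27.TC.Defs

set_option autoImplicit false

/-
[H27 TC NPar]  Existence of the parameters.

L := Nat.clog 2 r (so r <= 2^L and 2^(L-1) < r, hence 2^L <= 2 r); L >= 10000 because
r >= 2^10000 (if L < 10000 then r <= 2^L < 2^10000).
q := (2K + r - 1)/r: then r q >= 2K and r q <= 2K + r - 1 <= 3K (r <= K since 4 r <= 3K+1 and r >= 2).
h := (L+2) q. hbig: 10^7 (L+2) q <= K: since r q <= 3K it is enough that 3 * 10^7 (L+2) <= r
(multiply by q: 3*10^7 (L+2) q <= r q <= 3K), and r >= 2^(L-1) >= 3 * 10^7 (L+2) for L >= 10000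
(induction on L from 100, or 2^(L-1) >= 2^40 * (L+2) for L >= 100).
Careful with `decide`/`norm_num` on 2^10000: keep it symbolic, use pow_le_pow_right.
-/

namespace Pool.Agent.H27.TC

open Finset Classical
open Pool.Agent.H28.TreeClique

lemma lin_lt_pow (L : ℕ) (hL : 100 ≤ L) : 3 * 10 ^ 7 * (L + 2) ≤ 2 ^ (L - 1) := by
  induction L, hL using Nat.le_induction with
  | base => norm_num
  | succ L hL ih =>
    have e1 : 2 ^ (L + 1 - 1) = 2 * 2 ^ (L - 1) := by
      rw [← pow_succ']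
      congr 1
      omega
    rw [e1]
    omega

theorem exists_par (r K : ℕ) (hr : 2 ^ 10000 ≤ r) (hK : 4 * r ≤ 3 * K + 1) :
    ∃ L q h, Par K r L q h := by
  have hr2 : 2 ≤ r := by
    refine le_trans ?_ hr
    calc 2 = 2 ^ 1 := by norm_num
      _ ≤ 2 ^ 10000 := Nat.pow_le_pow_right (by norm_num) (by norm_num)
  have h1 : r ≤ 2 ^ (Nat.clog 2 r) := Nat.le_pow_clog (by norm_num) r
  have h2 : 2 ^ (Nat.clog 2 r - 1) < r := Nat.pow_pred_clog_lt_self (by norm_num) (by omega)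
  generalize Nat.clog 2 r = L at h1 h2
  have hL : 10000 ≤ L := by
    by_contra hcon
    push Not at hcon
    have h3 : 2 ^ L < 2 ^ 10000 := Nat.pow_lt_pow_right (by norm_num) hcon
    exact absurd (lt_of_le_of_lt (hr.trans h1) h3) (lt_irrefl _)
  have h3 : 2 ^ L = 2 * 2 ^ (L - 1) := by
    rw [← pow_succ']
    congr 1
    omega
  have h4 := lin_lt_pow L (by omega)
  have hdm := Nat.div_add_mod (2 * K + r - 1) r
  have hmod := Nat.mod_lt (2 * K + r - 1) (show r > 0 by omega)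
  generalize (2 * K + r - 1) / r = q at hdm
  generalize (2 * K + r - 1) % r = e at hdm hmod
  have hq1 : 2 * K ≤ r * q := by omega
  have hq2 : r * q ≤ 3 * K := by omega
  refine ⟨L, q, (L + 2) * q, hL, h1, ?_, hK, hq1, hq2, rfl, ?_⟩
  · omega
  · have h5 : 3 * 10 ^ 7 * (L + 2) ≤ r := by omega
    have h6 : 3 * 10 ^ 7 * (L + 2) * q ≤ r * q := Nat.mul_le_mul_right _ h5
    have h7 : 3 * (10 ^ 7 * ((L + 2) * q)) = 3 * 10 ^ 7 * (L + 2) * q := by ring
    omega

end Pool.Agent.H27.TC
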