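import Pool.Agent.H27.TC.SDeg

set_option autoImplicit false

/-
[H27 TC SClu]  Clusters. Q = clu G S C h u (ambient S ⊇ C), core = core G C h u.

core_sub_clu: |nn core v| <= 3h - 1 <= 30 h for v in core (core_nn), core ⊆ C ⊆ S.
clu_near: for core ⊆ Q' ⊆ clu with |Q'| <= K + h + 1, Q' is Near with m = 35 h: the non-neighbours of
 y in Q' are y itself, at most 30 h in the core, and at most |Q' \ core| <= K+h+1 - (K+2-3h) =
 4h - 1 others: total <= 34 h.
clu_out: x in S \ clu has more than 30 h non-neighbours in the core, x itself is not in the core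
 (core ⊆ clu); so |nb G Q' x| + 30 h + 1 <= |Q'| for every Q' ⊇ core with x not in Q'
 (nb Q' x is disjoint from nn core x ⊆ Q').
clu_out_nb: (S = C) x in C \ Q, |nb C x| >= K - h, |Q| <= K + h, then |nb (C \ Q) x| >= 28 h:
 |nb C x| = |nb Q x| + |nb (C\Q) x|.
-/

namespace Pool.Agent.H27.TC

open Finset Classical
open Pool.Agent.H28.TreeClique

variable {V : Type*}

theorem core_sub_clu {K r L q h : ℕ} (P : Par K r L q h) (G : SimpleGraph V) (S C : Finset V)
    (hCS : C ⊆ S) (u : V) (huC : u ∈ C) : core G C h u ⊆ clu G S C h u := by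
  intro v hv
  have h1 := (core_nn P G C u huC v hv).2
  unfold clu
  rw [mem_filter]
  exact ⟨hCS (core_sub G C h u huC hv), by omega⟩

theorem clu_near {K r L q h : ℕ} (P : Par K r L q h) (G : SimpleGraph V) (S C : Finset V)
    (hCS : C ⊆ S) (u : V) (huC : u ∈ C) (hu : theta K r ≤ cd G r C u)
    (hd : (nb G C u).card + 1 ≤ K) (Q' : Finset V) (h1 : core G C h u ⊆ Q')
    (h2 : Q' ⊆ clu G S C h u) (h3 : Q'.card ≤ K + h + 1) : Near G Q' (35 * h) := by
  intro y hy
  obtain ⟨c1, c2, c3⟩ := core_card P G C u huC hu hd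
  have h4 : (nn G (core G C h u) y).card ≤ 30 * h := by
    have := h2 hy
    unfold clu at this
    exact (mem_filter.mp this).2
  have h5 : Q'.filter (fun x => ¬ G.Adj y x) ⊆
      insert y (nn G (core G C h u) y ∪ (Q' \ core G C h u)) := by
    intro x hx
    rw [mem_filter] at hx
    rw [mem_insert, mem_union, mem_sdiff, nn, mem_filter]
    by_cases hxy : x = y
    · left; exact hxy
    · right
      by_cases hxc : x ∈ core G C h u
      · left; exact ⟨hxc, hxy, hx.2⟩
      · right; exact ⟨hx.1, hxc⟩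
  have h6 := card_le_card h5
  have h7 := card_insert_le y (nn G (core G C h u) y ∪ (Q' \ core G C h u))
  have h8 := card_union_le (nn G (core G C h u) y) (Q' \ core G C h u)
  have h9 : (Q' \ core G C h u).card = Q'.card - (core G C h u).card := card_sdiff_of_subset h1
  omega

theorem clu_out {h : ℕ} (G : SimpleGraph V) (S C : Finset V) (u : V) (Q' : Finset V)
    (h1 : core G C h u ⊆ Q') (x : V) (hx : x ∈ S) (hx' : x ∉ clu G S C h u) (hxQ : x ∉ Q') :
    (nb G Q' x).card + 30 * h + 1 ≤ Q'.card := by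
  have h2 : 30 * h < (nn G (core G C h u) x).card := by
    by_contra hcon
    push Not at hcon
    apply hx'
    unfold clu
    exact mem_filter.mpr ⟨hx, hcon⟩
  have h3 : Disjoint (nb G Q' x) (nn G (core G C h u) x) := by
    rw [disjoint_left]
    intro z hz hz'
    rw [nb, mem_filter] at hz
    rw [nn, mem_filter] at hz'
    exact hz'.2.2 hz.2
  have h4 : nb G Q' x ∪ nn G (core G C h u) x ⊆ Q' := by
    intro z hz
    rw [mem_union] at hz
    rcases hz with hz | hz
    · rw [nb, mem_filter] at hz
      exact hz.1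
    · rw [nn, mem_filter] at hz
      exact h1 hz.1
  have h5 := card_le_card h4
  rw [card_union_of_disjoint h3] at h5
  omega

theorem clu_out_nb {K r L q h : ℕ} (P : Par K r L q h) (G : SimpleGraph V) (C : Finset V)
    (u : V) (huC : u ∈ C) (x : V) (hx : x ∈ C \ clu G C C h u) (hdx : K ≤ (nb G C x).card + h)
    (hQ : (clu G C C h u).card ≤ K + h) :
    28 * h ≤ (nb G (C \ clu G C C h u) x).card := by
  rw [mem_sdiff] at hx
  have h1 := clu_out G C C u (clu G C C h u) (core_sub_clu P G C C (subset_refl _) u huC) x hx.1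
    hx.2 hx.2
  have h2 : nb G C x ⊆ nb G (clu G C C h u) x ∪ nb G (C \ clu G C C h u) x := by
    intro z hz
    rw [nb, mem_filter] at hz
    rw [mem_union, nb, nb, mem_filter, mem_filter, mem_sdiff]
    by_cases hzQ : z ∈ clu G C C h u
    · left; exact ⟨hzQ, hz.2⟩
    · right; exact ⟨⟨hz.1, hzQ⟩, hz.2⟩
  have h3 := (card_le_card h2).trans (card_union_le _ _)
  omega

end Pool.Agent.H27.TC
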