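import Pool.Agent.H27.TC.TBas

set_option autoImplicit false

/-
[H27 TC TFar]  A tree with few leaves has many vertices of degree 2 at pairwise distance >= 5.

|LF| <= l. X3 = {dg >= 3}: from dg_sum, sum (dg - 2) = -2, so sum_{X3} (dg - 2) = |LF| - 2, hence
|X3| <= l and sum_{X3} dg <= 3 l. Put X = LF ∪ X3, |X| <= 2 l, s0 = sum_X dg <= 4 l.
D0 = univ \ X = {dg = 2} (dg >= 1 always). D_{i+1} = {x in D_i : all neighbours of x are in D_i}.
|D_i \ D_{i+1}| <= sum of dg over univ \ D_i =: s_i (count pairs (x, neighbour not in D_i)), and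
s_{i+1} <= s_i + 2 |D_i \ D_{i+1}| <= 3 s_i (vertices of D_i have degree 2). So
|D_4| >= |T| - 2 l - (1 + 3 + 9 + 27) * 4 l = |T| - 162 l >= 81 * p (as |T| >= 1000 (l + p + 1)).
For x in D_4 all vertices at distance <= 4 have degree 2 (vertices at distance i are in D_{4-i}),
so the ball {y : dist x y <= 4} has at most 1 + 2 + 4 + 8 + 16 = 31 elements (every vertex at
distance i+1 is a neighbour of a vertex at distance i; crude count) -- 31 <= 81.
Greedy: choose a_1, a_2, ..., a_p in D_4, each outside the balls of radius 4 around the previous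
ones: possible as 31 (p-1) < |D_4|. T.dist is symmetric.
-/

namespace Pool.Agent.H27.TC

open Finset Classical
open Pool.Agent.H28.TreeClique

variable {α : Type*} [Fintype α]

/-- Vertices of degree two whose neighbourhood of radius `i` consists of such vertices. -/
noncomputable def dd (T : SimpleGraph α) : ℕ → Finset α
  | 0 => univ.filter (fun x => dg T x = 2)
  | i + 1 => (dd T i).filter (fun x => ∀ y, T.Adj x y → y ∈ dd T i)

theorem dd_succ (T : SimpleGraph α) (i : ℕ) :
    dd T (i + 1) = (dd T i).filter (fun x => ∀ y, T.Adj x y → y ∈ dd T i) := rfl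

theorem dd_sub (T : SimpleGraph α) (i : ℕ) : dd T (i + 1) ⊆ dd T i := by
  rw [dd_succ]
  exact filter_subset _ _

theorem dd_dg (T : SimpleGraph α) (i : ℕ) : ∀ x ∈ dd T i, dg T x = 2 := by
  induction i with
  | zero =>
    intro x hx
    rw [dd, mem_filter] at hx
    exact hx.2
  | succ i ih =>
    intro x hx
    exact ih x (dd_sub T i hx)

/-- The ball of radius `i`. -/
noncomputable def bl (T : SimpleGraph α) (x : α) : ℕ → Finset α
  | 0 => {x}
  | i + 1 => bl T x i ∪ (bl T x i).biUnion (fun y => univ.filter (fun z => T.Adj y z))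

theorem bl_succ (T : SimpleGraph α) (x : α) (i : ℕ) :
    bl T x (i + 1) = bl T x i ∪
      (bl T x i).biUnion (fun y => univ.filter (fun z => T.Adj y z)) := rfl

theorem bl_mem (T : SimpleGraph α) (x : α) (i j : ℕ) (hx : x ∈ dd T (i + j)) :
    bl T x i ⊆ dd T j := by
  induction i generalizing j with
  | zero =>
    intro y hy
    rw [bl, mem_singleton] at hy
    rw [hy]
    simpa using hx
  | succ i ih =>
    have h1 := ih (j + 1) (by
      have : i + (j + 1) = i + 1 + j := by ring
      rw [this]
      exact hx)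
    rw [bl_succ]
    intro y hy
    rw [mem_union, mem_biUnion] at hy
    rcases hy with hy | ⟨z, hz, hzy⟩
    · exact dd_sub T j (h1 hy)
    · rw [mem_filter] at hzy
      have h2 := h1 hz
      rw [dd_succ, mem_filter] at h2
      exact h2.2 y hzy.2

theorem bl_card (T : SimpleGraph α) (x : α) (i j : ℕ) (hx : x ∈ dd T (i + j)) :
    (bl T x i).card ≤ 3 ^ i := by
  induction i generalizing j with
  | zero => simp [bl]
  | succ i ih =>
    have hx' : x ∈ dd T (i + (j + 1)) := by
      have : i + (j + 1) = i + 1 + j := by ring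
      rw [this]
      exact hx
    have h1 := bl_mem T x i (j + 1) hx'
    have h2 := ih (j + 1) hx'
    rw [bl_succ]
    refine (card_union_le _ _).trans ?_
    have h3 : ((bl T x i).biUnion (fun y => univ.filter (fun z => T.Adj y z))).card ≤
        (bl T x i).card * 2 := by
      refine card_biUnion_le.trans ?_
      rw [← smul_eq_mul, ← sum_const]
      apply sum_le_sum
      intro y hy
      exact (dd_dg T _ y (h1 hy)).le
    rw [pow_succ]
    omega

theorem bl_walk (T : SimpleGraph α) (x y : α) (p : T.Walk x y) :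
    ∀ i, p.length ≤ i → ∀ z k, x ∈ bl T z k → y ∈ bl T z (k + i) := by
  induction p with
  | nil =>
    intro i _ z k h
    induction i with
    | zero => simpa using h
    | succ i ih =>
      rw [← add_assoc, bl_succ, mem_union]
      left
      exact ih (by simp)
  | cons hadj q ih =>
    intro i hi z k h
    rw [SimpleGraph.Walk.length_cons] at hi
    obtain ⟨i', rfl⟩ : ∃ i', i = i' + 1 := ⟨i - 1, by omega⟩
    have h1 := ih i' (by omega) z (k + 1) (by
      rw [bl_succ, mem_union, mem_biUnion]
      right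
      exact ⟨_, h, by rw [mem_filter]; exact ⟨mem_univ _, hadj⟩⟩)
    have : k + (i' + 1) = k + 1 + i' := by ring
    rw [this]
    exact h1

theorem bl_dist (T : SimpleGraph α) (hT : T.IsTree) (x y : α) (h : T.dist x y ≤ 4) :
    y ∈ bl T x 4 := by
  obtain ⟨p, hp⟩ := hT.connected.exists_walk_length_eq_dist x y
  have := bl_walk T x y p 4 (by omega) x 0 (by simp [bl])
  simpa using this

theorem far (T : SimpleGraph α) (hT : T.IsTree) (l p : ℕ) (hl : (LF T).card ≤ l)
    (hk : 1000 * (l + p + 1) ≤ Fintype.card α) :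
    ∃ a : Fin p → α, (∀ i, dg T (a i) = 2) ∧ ∀ i j, i ≠ j → 5 ≤ T.dist (a i) (a j) := by
  -- the complements of the sets dd
  have hs0 : ∑ x ∈ univ \ dd T 0, dg T x ≤ 4 * l ∧ (univ \ dd T 0).card ≤ 2 * l := by
    have h1 := dg_sum T hT
    have h2 : ∑ x ∈ univ \ dd T 0, dg T x + ∑ x ∈ dd T 0, dg T x = ∑ x, dg T x :=
      sum_sdiff (subset_univ _)
    have h3 : ∑ x ∈ dd T 0, dg T x = 2 * (dd T 0).card := by
      rw [card_eq_sum_ones, mul_sum]
      apply sum_congr rfl
      intro x hx
      rw [dd_dg T 0 x hx, mul_one]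
    have h4 : (univ \ dd T 0).card + (dd T 0).card = Fintype.card α := by
      rw [card_sdiff_add_card_eq_card (subset_univ _), card_univ]
    have h5 : LF T ⊆ univ \ dd T 0 := by
      intro x hx
      rw [LF, mem_filter] at hx
      rw [mem_sdiff]
      refine ⟨mem_univ _, fun h => ?_⟩
      have := dd_dg T 0 x h
      omega
    have h6 : ∑ x ∈ (univ \ dd T 0) \ LF T, dg T x + ∑ x ∈ LF T, dg T x =
        ∑ x ∈ univ \ dd T 0, dg T x := sum_sdiff h5
    have h7 : ∑ x ∈ LF T, dg T x = (LF T).card := by
      rw [card_eq_sum_ones]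
      apply sum_congr rfl
      intro v hv
      rw [LF, mem_filter] at hv
      exact hv.2
    have h8 : 3 * ((univ \ dd T 0) \ LF T).card ≤ ∑ x ∈ (univ \ dd T 0) \ LF T, dg T x := by
      rw [card_eq_sum_ones, mul_sum]
      apply sum_le_sum
      intro x hx
      rw [mem_sdiff, mem_sdiff] at hx
      have h9 := dg_pos T hT (by omega) x
      have h10 : dg T x ≠ 1 := fun h => hx.2 (by rw [LF, mem_filter]; exact ⟨mem_univ _, h⟩)
      have h11 : dg T x ≠ 2 := fun h => hx.1.2 (by
        rw [dd, mem_filter]; exact ⟨mem_univ _, h⟩)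
      omega
    have h9 : ((univ \ dd T 0) \ LF T).card + (LF T).card = (univ \ dd T 0).card :=
      card_sdiff_add_card_eq_card h5
    constructor <;> omega
  have hstep : ∀ i, (dd T i \ dd T (i + 1)).card ≤ ∑ x ∈ univ \ dd T i, dg T x := by
    intro i
    refine le_trans (card_le_card
      (t := (univ \ dd T i).biUnion (fun y => univ.filter (fun z => T.Adj y z))) ?_)
      card_biUnion_le
    intro x hx
    rw [mem_sdiff] at hx
    have h1 : ¬ ∀ y, T.Adj x y → y ∈ dd T i := fun h => hx.2 (by
      rw [dd_succ, mem_filter]; exact ⟨hx.1, h⟩)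
    push Not at h1
    obtain ⟨y, hy1, hy2⟩ := h1
    rw [mem_biUnion]
    refine ⟨y, ?_, ?_⟩
    · rw [mem_sdiff]
      exact ⟨mem_univ _, hy2⟩
    · rw [mem_filter]
      exact ⟨mem_univ _, hy1.symm⟩
  have hunion : ∀ i, univ \ dd T (i + 1) = (univ \ dd T i) ∪ (dd T i \ dd T (i + 1)) := by
    intro i
    ext x
    have := dd_sub T i
    simp only [mem_sdiff, mem_univ, true_and, mem_union]
    constructor
    · intro h
      by_cases h' : x ∈ dd T i
      · right; exact ⟨h', h⟩
      · left; exact h'
    · rintro (h | h)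
      · exact fun h' => h (this h')
      · exact h.2
  have hdis : ∀ i, Disjoint (univ \ dd T i) (dd T i \ dd T (i + 1)) := by
    intro i
    rw [disjoint_left]
    intro x hx hx'
    rw [mem_sdiff] at hx hx'
    exact hx.2 hx'.1
  have hcc : ∀ i, (univ \ dd T (i + 1)).card =
      (univ \ dd T i).card + (dd T i \ dd T (i + 1)).card := by
    intro i
    rw [hunion i, card_union_of_disjoint (hdis i)]
  have hss : ∀ i, ∑ x ∈ univ \ dd T (i + 1), dg T x =
      ∑ x ∈ univ \ dd T i, dg T x + 2 * (dd T i \ dd T (i + 1)).card := by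
    intro i
    rw [hunion i, sum_union (hdis i)]
    congr 1
    rw [card_eq_sum_ones, mul_sum]
    apply sum_congr rfl
    intro x hx
    rw [dd_dg T i x (mem_sdiff.mp hx).1, mul_one]
  have b0 := hstep 0
  have b1 := hstep 1
  have b2 := hstep 2
  have b3 := hstep 3
  have c0 := hcc 0
  have c1 := hcc 1
  have c2 := hcc 2
  have c3 := hcc 3
  have s0 := hss 0
  have s1 := hss 1
  have s2 := hss 2
  simp only [zero_add] at b0 c0 s0
  norm_num at b1 b2 b3 c1 c2 c3 s1 s2
  have hD4 : 81 * p ≤ (dd T 4).card := by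
    have h4 : (univ \ dd T 4).card + (dd T 4).card = Fintype.card α := by
      rw [card_sdiff_add_card_eq_card (subset_univ _), card_univ]
    omega
  -- a maximal subset of dd T 4 with distances at least 5
  obtain ⟨P, hPm, hPmax⟩ := exists_max_image
    ((dd T 4).powerset.filter (fun P => ∀ a ∈ P, ∀ b ∈ P, a ≠ b → 5 ≤ T.dist a b)) card
    ⟨∅, by
      rw [mem_filter, mem_powerset]
      exact ⟨empty_subset _, by simp⟩⟩
  rw [mem_filter, mem_powerset] at hPm
  obtain ⟨hPD, hPd⟩ := hPm
  have hcov : dd T 4 ⊆ P.biUnion (fun a => bl T a 4) := by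
    intro x hx
    rw [mem_biUnion]
    by_contra hcon
    push Not at hcon
    have hxP : x ∉ P := fun h => hcon x h (bl_dist T hT x x (by simp))
    have h1 := hPmax (insert x P) (by
      rw [mem_filter, mem_powerset]
      refine ⟨insert_subset hx hPD, ?_⟩
      have h5 : ∀ a ∈ P, 5 ≤ T.dist a x := by
        intro a ha
        by_contra h
        exact hcon a ha (bl_dist T hT a x (by omega))
      intro a ha b hb hab
      rw [mem_insert] at ha hb
      rcases ha with rfl | ha
      · rcases hb with rfl | hb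
        · exact absurd rfl hab
        · rw [SimpleGraph.dist_comm]
          exact h5 b hb
      · rcases hb with rfl | hb
        · exact h5 a ha
        · exact hPd a ha b hb hab)
    rw [card_insert_of_notMem hxP] at h1
    omega
  have hPc : p ≤ P.card := by
    have h1 := (card_le_card hcov).trans card_biUnion_le
    have h2 : ∑ a ∈ P, (bl T a 4).card ≤ ∑ _a ∈ P, 81 := by
      apply sum_le_sum
      intro a ha
      have := bl_card T a 4 0 (by simpa using hPD ha)
      omega
    rw [sum_const, smul_eq_mul] at h2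
    omega
  obtain ⟨Q, hQ1, hQ2⟩ := exists_subset_card_eq hPc
  have hcard : Fintype.card (Fin p) = Fintype.card Q := by simp [hQ2]
  let e := Fintype.equivOfCardEq hcard
  refine ⟨fun i => (e i).1, ?_, ?_⟩
  · intro i
    exact dd_dg T 4 _ (hPD (hQ1 (e i).2))
  · intro i j hij
    apply hPd _ (hQ1 (e i).2) _ (hQ1 (e j).2)
    intro h
    exact hij (e.injective (Subtype.ext h))

end Pool.Agent.H27.TC
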