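import Pool.Agent.H27.TC.TBas
import Pool.Agent.H27.TC.TSplit

set_option autoImplicit false

/-
[H27 TC TSplit3]  Components without single leaves.

Claim: for p >= 1 and |T| >= 4p + 1 (and >= 3) there are z0 (not a leaf) and W, Closed T z0 W, such
that no neighbour of z0 in W is a leaf of T, z0 has at most p neighbours in W, |W| <= 4p and
2p <= |W| + |lfs T z0|.

Proof. Take (c, A) from `split` (H28) with l = 2p: 2p <= |A| <= 4p - 1. z0 := c. c is not a leaf: if
dg c = 1, let y be its neighbour; A is nonempty and closed at c, T connected: from a in A walk to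
any vertex x <> c without passing through c (c is a leaf, so removing it keeps T connected: the path
from a to x does not use c as an interior vertex, since an interior vertex has degree >= 2), so
A = univ \ {c} and |A| = |T| - 1 >= 4p, contradiction.
Let W1 = A \ lfs T c (remove the single leaves attached to c); W1 is Closed T c (a leaf attached to c
has no other neighbour) and contains no leaf adjacent to c.
Among all W' subset of W1 with Closed T c W' and (2p <= |W'| or W' = W1) choose W of minimal
cardinality.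
 - If |W1| < 2p: then W = W1 is forced when |W'|<2p for all W' ; 2p <= |A| <= |W1| + |lfs T c|.
   Number of roots: every root x in W has a neighbour y <> c (dg x <> 1 and dg x >= 1), y in W is not
   a root (no triangles / unique paths) and different roots have different such y (no 4-cycles), so
   2 * (number of roots) <= |W| < 2p.
 - If |W1| >= 2p: W has |W| >= 2p. If W had >= p + 1 roots, remove the component W_x of one root x
   (see TSplit): the rest is Closed, and contains p roots and p further vertices (one child of each),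
   so at least 2p vertices: contradiction to minimality.
 |W| <= |A| <= 4p - 1.
-/

namespace Pool.Agent.H27.TC

open Finset Classical
open Pool.Agent.H28.TreeClique

variable {α : Type*} [Fintype α]

/-- The complement (without `c`) of a closed set is closed. -/
theorem closed_compl (T : SimpleGraph α) {c : α} {A : Finset α} (hA : Closed T c A) :
    Closed T c ((univ.erase c) \ A) := by
  obtain ⟨hcA, hA2⟩ := hA
  refine ⟨fun h => ?_, ?_⟩
  · rw [mem_sdiff, mem_erase] at h
    exact h.1.1 rfl
  · intro a ha x hax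
    rw [mem_sdiff, mem_erase] at ha
    by_cases hx : x = c
    · right; exact hx
    · left
      rw [mem_sdiff, mem_erase]
      refine ⟨⟨hx, mem_univ _⟩, fun h => ?_⟩
      rcases hA2 x h a hax.symm with h1 | h1
      · exact ha.2 h1
      · exact ha.1.1 h1

/-- Children of the roots. -/
theorem children (T : SimpleGraph α) (hT : T.IsTree) (h2 : 2 ≤ Fintype.card α) {c : α}
    {W : Finset α} (hW : Closed T c W) (hl : ∀ x ∈ W, T.Adj c x → dg T x ≠ 1) :
    ∃ ch : α → α, (∀ x ∈ W, T.Adj c x → ch x ∈ W ∧ T.Adj x (ch x) ∧ ¬ T.Adj c (ch x)) ∧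
      (∀ x ∈ W, T.Adj c x → ∀ x' ∈ W, T.Adj c x' → ch x = ch x' → x = x') := by
  have hex : ∀ x, ∃ y, x ∈ W → T.Adj c x → y ≠ c ∧ T.Adj x y := by
    intro x
    by_cases hx : x ∈ W ∧ T.Adj c x
    · have h3 := dg_pos T hT h2 x
      have h4 := hl x hx.1 hx.2
      have h5 : 1 < (univ.filter (fun y => T.Adj x y)).card := by
        unfold dg at h3 h4
        omega
      obtain ⟨y, hy1, hy2⟩ := exists_mem_ne h5 c
      rw [mem_filter] at hy1
      exact ⟨y, fun _ _ => ⟨hy2, hy1.2⟩⟩
    · exact ⟨x, fun h h' => absurd ⟨h, h'⟩ hx⟩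
  choose ch hch using hex
  have hin : ∀ x ∈ W, T.Adj c x → ch x ∈ W := by
    intro x hx hcx
    obtain ⟨h1, h2⟩ := hch x hx hcx
    exact (hW.2 x hx _ h2).resolve_right h1
  have hcomp : ∀ x ∈ W, T.Adj c x → ∀ A1, A1 ⊆ W → x ∈ A1 →
      (∀ a ∈ A1, ∀ y, T.Adj a y → y ∈ A1 ∨ (a = x ∧ y = c)) → ch x ∈ A1 := by
    intro x hx hcx A1 _ hxA1 key
    obtain ⟨h1, h2⟩ := hch x hx hcx
    rcases key x hxA1 _ h2 with h3 | h3
    · exact h3
    · exact absurd h3.2 h1
  refine ⟨ch, ?_, ?_⟩
  · intro x hx hcx
    obtain ⟨h1, h2⟩ := hch x hx hcx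
    refine ⟨hin x hx hcx, h2, fun h3 => ?_⟩
    obtain ⟨A1, hs, hxA1, key⟩ := comp_root T hT hW hx hcx
    have h4 := comp_uniq T hW hs key (hcomp x hx hcx A1 hs hxA1 key) h3
    rw [h4] at h2
    exact h2.ne rfl
  · intro x hx hcx x' hx' hcx' he
    obtain ⟨A1, hs, hxA1, key⟩ := comp_root T hT hW hx hcx
    have h4 := hcomp x hx hcx A1 hs hxA1 key
    rw [he] at h4
    obtain ⟨h5, h6⟩ := hch x' hx' hcx'
    have h7 : x' ∈ A1 := by
      rcases key _ h4 x' h6.symm with h8 | h8
      · exact h8
      · exfalso
        exact hW.1 (h8.2 ▸ hx')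
    exact (comp_uniq T hW hs key h7 hcx').symm

theorem split3 (T : SimpleGraph α) (hT : T.IsTree) (p : ℕ) (hp : 1 ≤ p)
    (hk : 4 * p + 1 ≤ Fintype.card α) (h3 : 3 ≤ Fintype.card α) :
    ∃ z0 W, z0 ∈ NL T ∧ Closed T z0 W ∧ (∀ x ∈ W, T.Adj z0 x → dg T x ≠ 1) ∧
      (W.filter (fun x => T.Adj z0 x)).card ≤ p ∧ W.card ≤ 4 * p ∧
      2 * p ≤ W.card + (lfs T z0).card := by
  obtain ⟨c, A, hA, hA1, hA2⟩ := split T hT (2 * p) (by omega) (by omega)
  have hNL : c ∈ NL T := by
    rw [NL, mem_filter]
    refine ⟨mem_univ _, fun hd => ?_⟩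
    obtain ⟨a, ha, hca⟩ := exists_root T hT hA (card_pos.mp (by omega))
    have hAc : A ⊆ univ.erase c := by
      intro a ha
      rw [mem_erase]
      exact ⟨fun h => hA.1 (h ▸ ha), mem_univ _⟩
    have hB : ((univ.erase c) \ A).Nonempty := by
      rw [← card_pos, card_sdiff_of_subset hAc, card_erase_of_mem (mem_univ _), card_univ]
      omega
    obtain ⟨b, hb, hcb⟩ := exists_root T hT (closed_compl T hA) hB
    unfold dg at hd
    rw [card_eq_one] at hd
    obtain ⟨y, hy⟩ := hd
    have e1 : a = y := by
      rw [← mem_singleton, ← hy, mem_filter]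
      exact ⟨mem_univ _, hca⟩
    have e2 : b = y := by
      rw [← mem_singleton, ← hy, mem_filter]
      exact ⟨mem_univ _, hcb⟩
    rw [mem_sdiff] at hb
    apply hb.2
    rw [e2, ← e1]
    exact ha
  -- the set W1
  set W1 := A \ lfs T c with hW1
  have hW1A : W1 ⊆ A := sdiff_subset
  have hclW1 : Closed T c W1 := by
    refine ⟨fun h => hA.1 (hW1A h), ?_⟩
    intro a ha x hax
    rcases hA.2 a (hW1A ha) x hax with h1 | h1
    · left
      rw [hW1, mem_sdiff]
      refine ⟨h1, fun h2 => ?_⟩
      rw [lfs, mem_filter] at h2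
      obtain ⟨-, h4, h5⟩ := h2
      unfold dg at h5
      rw [card_eq_one] at h5
      obtain ⟨y, hy⟩ := h5
      have e1 : c = y := by
        rw [← mem_singleton, ← hy, mem_filter]
        exact ⟨mem_univ _, h4.symm⟩
      have e2 : a = y := by
        rw [← mem_singleton, ← hy, mem_filter]
        exact ⟨mem_univ _, hax.symm⟩
      apply hA.1
      rw [e1, ← e2]
      exact hW1A ha
    · right; exact h1
  have hnl : ∀ x ∈ W1, T.Adj c x → dg T x ≠ 1 := by
    intro x hx hcx hd
    rw [hW1, mem_sdiff] at hx
    apply hx.2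
    rw [lfs, mem_filter]
    exact ⟨mem_univ _, hcx, hd⟩
  have hcnt : A.card ≤ W1.card + (lfs T c).card := by
    have h1 : A ⊆ W1 ∪ lfs T c := by
      intro x hx
      rw [mem_union, hW1, mem_sdiff]
      by_cases h : x ∈ lfs T c
      · right; exact h
      · left; exact ⟨hx, h⟩
    exact (card_le_card h1).trans (card_union_le _ _)
  -- sets of roots with children
  have hpair : ∀ W : Finset α, Closed T c W → W ⊆ W1 → ∀ R : Finset α, R ⊆ W →
      (∀ x ∈ R, T.Adj c x) → ∀ S : Finset α, (∀ x ∈ R, x ∈ S) →
      (∀ x ∈ R, ∀ y ∈ W, T.Adj x y → y ∈ S) → 2 * R.card ≤ S.card := by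
    intro W hW hWs R hR hRc S hS1 hS2
    obtain ⟨ch, hch1, hch2⟩ := children T hT (by omega) hW (fun x hx => hnl x (hWs hx))
    have e1 : (R.image ch).card = R.card := by
      apply card_image_of_injOn
      intro x hx x' hx' he
      rw [mem_coe] at hx hx'
      exact hch2 x (hR hx) (hRc x hx) x' (hR hx') (hRc x' hx') he
    have e2 : Disjoint R (R.image ch) := by
      rw [disjoint_left]
      intro x hx hx'
      rw [mem_image] at hx'
      obtain ⟨y, hy, rfl⟩ := hx'
      exact (hch1 y (hR hy) (hRc y hy)).2.2 (hRc _ hx)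
    have e3 : R ∪ R.image ch ⊆ S := by
      intro x hx
      rw [mem_union, mem_image] at hx
      rcases hx with hx | ⟨y, hy, rfl⟩
      · exact hS1 x hx
      · obtain ⟨h1, h2, -⟩ := hch1 y (hR hy) (hRc y hy)
        exact hS2 y hy _ h1 h2
    have e4 := card_le_card e3
    rw [card_union_of_disjoint e2, e1] at e4
    omega
  by_cases hcase : W1.card < 2 * p
  · refine ⟨c, W1, hNL, hclW1, hnl, ?_, by omega, by omega⟩
    have h1 := hpair W1 hclW1 (subset_refl _) (W1.filter (fun x => T.Adj c x))
      (filter_subset _ _) (fun x hx => (mem_filter.mp hx).2) W1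
      (fun x hx => (mem_filter.mp hx).1) (fun x _ y hy _ => hy)
    omega
  · push Not at hcase
    obtain ⟨W, hWm, hWmin⟩ := exists_min_image
      (W1.powerset.filter (fun W => Closed T c W ∧ 2 * p ≤ W.card)) card
      ⟨W1, by rw [mem_filter, mem_powerset]; exact ⟨subset_refl _, hclW1, hcase⟩⟩
    rw [mem_filter, mem_powerset] at hWm
    obtain ⟨hWs, hWc, hWp⟩ := hWm
    refine ⟨c, W, hNL, hWc, fun x hx => hnl x (hWs hx), ?_, ?_, by omega⟩
    · by_contra hcon
      push Not at hcon
      obtain ⟨x, hx⟩ : (W.filter (fun x => T.Adj c x)).Nonempty := card_pos.mp (by omega)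
      have hx2 := hx
      rw [mem_filter] at hx2
      obtain ⟨A1, hs, hxA1, key⟩ := comp_root T hT hWc hx2.1 hx2.2
      have hcl := comp_sdiff T hWc key
      have h1 := hpair W hWc hWs ((W.filter (fun x => T.Adj c x)).erase x)
        ((erase_subset _ _).trans (filter_subset _ _))
        (fun y hy => (mem_filter.mp (mem_of_mem_erase hy)).2) (W \ A1)
        (by
          intro y hy
          rw [mem_erase, mem_filter] at hy
          rw [mem_sdiff]
          exact ⟨hy.2.1, fun h => hy.1 (comp_uniq T hWc hs key h hy.2.2)⟩)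
        (by
          intro y hy z hz hyz
          rw [mem_erase, mem_filter] at hy
          rw [mem_sdiff]
          refine ⟨hz, fun h => ?_⟩
          rcases key z h y hyz.symm with h4 | h4
          · exact hy.1 (comp_uniq T hWc hs key h4 hy.2.2)
          · exact hWc.1 (h4.2 ▸ hy.2.1))
      rw [card_erase_of_mem hx] at h1
      have h2 := hWmin (W \ A1) (by
        rw [mem_filter, mem_powerset]
        exact ⟨sdiff_subset.trans hWs, hcl, by omega⟩)
      rw [card_sdiff_of_subset hs] at h2
      have h4 : 0 < A1.card := card_pos.mpr ⟨x, hxA1⟩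
      have h5 := card_le_card hs
      omega
    · have h1 := card_le_card hWs
      have h2 := card_le_card hW1A
      omega

end Pool.Agent.H27.TC
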