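import Pool.Agent.H27.TC.Defs
import Pool.Agent.H27.TC.TOrd
import Pool.Agent.H27.TC.TBas

set_option autoImplicit false

/-
Small counting lemmas for the embedding modules.
-/

namespace Pool.Agent.H27.TC

open Finset Classical
open Pool.Agent.H28.TreeClique

variable {V α : Type*}

theorem card_earlier (P S : Finset α) (rk cl : α → ℕ) (t : α) (ht : t ∈ S)
    (hS : ∀ t' ∈ P, rk t' < rk t → cl t' = cl t → t' ∈ S) :
    (P.filter (fun t' => rk t' < rk t ∧ cl t' = cl t)).card + 1 ≤ S.card := by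
  have h1 : P.filter (fun t' => rk t' < rk t ∧ cl t' = cl t) ⊆ S.erase t := by
    intro x hx
    rw [mem_filter] at hx
    rw [mem_erase]
    refine ⟨fun h => ?_, hS x hx.1 hx.2.1 hx.2.2⟩
    rw [h] at hx
    exact lt_irrefl _ hx.2.1
  have h2 := card_le_card h1
  rw [card_erase_of_mem ht] at h2
  have h3 : 0 < S.card := card_pos.mpr ⟨t, ht⟩
  omega

theorem near_adj {G : SimpleGraph V} {Q : Finset V} {m : ℕ} (hQ : Near G Q m) {y : V}
    (hy : y ∈ Q) : Q.card ≤ (Q.filter (fun x => G.Adj y x)).card + m := by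
  have h1 := hQ y hy
  have h2 := card_filter_add_card_filter_not (s := Q) (fun x => G.Adj y x)
  omega

theorem near_adj_erase {G : SimpleGraph V} {Q : Finset V} {m : ℕ} (hQ : Near G Q m) {y z : V}
    (hy : y ∈ Q) : Q.card ≤ ((Q.erase z).filter (fun x => G.Adj y x)).card + m + 1 := by
  have h1 := near_adj hQ hy
  have h2 : Q.filter (fun x => G.Adj y x) ⊆ insert z ((Q.erase z).filter (fun x => G.Adj y x)) := by
    intro x hx
    rw [mem_filter] at hx
    rw [mem_insert, mem_filter, mem_erase]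
    by_cases h : x = z
    · left; exact h
    · right; exact ⟨⟨h, hx.1⟩, hx.2⟩
  have h3 := (card_le_card h2).trans (card_insert_le _ _)
  omega

theorem sum_lfs_le [Fintype α] (T : SimpleGraph α) (hT : T.IsTree) (h3 : 3 ≤ Fintype.card α)
    (F S : Finset α) (h : ∀ t ∈ F, lfs T t ⊆ S) : ∑ t ∈ F, (lfs T t).card ≤ S.card := by
  obtain ⟨pi, hpi⟩ := leaf_nbr T hT h3
  have h1 : (F.biUnion (lfs T)).card = ∑ t ∈ F, (lfs T t).card := by
    apply card_biUnion
    intro x _ y _ hxy
    change Disjoint (lfs T x) (lfs T y)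
    rw [disjoint_left]
    intro z hz1 hz2
    rw [lfs, mem_filter] at hz1 hz2
    apply hxy
    rw [(hpi z hz1.2.2).2.1 x hz1.2.1.symm, (hpi z hz1.2.2).2.1 y hz2.2.1.symm]
  rw [← h1]
  apply card_le_card
  intro x hx
  rw [mem_biUnion] at hx
  obtain ⟨t, ht, hx⟩ := hx
  exact h t ht hx

/-- The parent of a non-leaf is not a leaf. -/
theorem par_NL [Fintype α] (T : SimpleGraph α) {c : α} (hc : c ∈ NL T) (par : α → α)
    (hpar : ∀ x, x ≠ c → T.Adj x (par x) ∧ T.dist c (par x) + 1 = T.dist c x) {t : α}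
    (_ht : t ∈ NL T) (htc : t ≠ c) : par t ∈ NL T := by
  rw [NL, mem_filter]
  refine ⟨mem_univ _, fun h => ?_⟩
  obtain ⟨h1, h2⟩ := hpar t htc
  by_cases hp : par t = c
  · rw [hp] at h
    rw [NL, mem_filter] at hc
    exact hc.2 h
  · obtain ⟨h3, h4⟩ := hpar _ hp
    unfold dg at h
    rw [card_eq_one] at h
    obtain ⟨y, hy⟩ := h
    have e1 : t = y := by
      rw [← mem_singleton, ← hy, mem_filter]
      exact ⟨mem_univ _, h1.symm⟩
    have e2 : par (par t) = y := by
      rw [← mem_singleton, ← hy, mem_filter]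
      exact ⟨mem_univ _, h3⟩
    have e3 : T.dist c t = T.dist c (par (par t)) := by rw [e2, ← e1]
    omega

end Pool.Agent.H27.TC
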