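import Pool.Agent.H27.TC.NBad
import Pool.Agent.H27.TC.TOrd
import Pool.Agent.H27.TC.TSplit3
import Pool.Agent.H27.TC.ERGP
import Pool.Agent.H27.TC.EFinB
import Pool.Agent.H27.TC.XAux

set_option autoImplicit false

/-
[H27 TC XBeta2]  Type II: a vertex of degree >= K inside a cluster.

Let l1 = max |lfs T c|, attained at z1 (z1 in NL, l1 >= 1 because there are leaves: |NL| <= 1540 h < K+1;
a vertex with a leaf neighbour is not a leaf, leaf_nbr). p := K + 1 - |Q| (natural), p <= 3h - 1.
Choice of (z0, W): if 2p <= l1: z0 = z1, W = ∅. Otherwise p >= 1 and split3 gives z0, W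
(4p + 1 <= K + 1 as p <= 3h). In both cases: z0 in NL, Closed T z0 W, no leaf of W is adjacent to z0, at
most p roots, |W| <= 4p <= 12 h, and
  (*)  K + 1 + l1 <= |Q| + |W| + |lfs z0| + (l1/2)   [l1/2 natural division; i.e.
       K + 1 - |W| - |lfs z0| + ceil(l1/2) <= |Q|]: first case K + 1 <= |Q| + p <= |Q| + l1/2;
       second case |W| + |lfs z0| >= 2p and l1 <= 2p - 1, ceil(l1/2) <= p.
P0 = NL ∪ W, L0 = lfs z0 (disjoint from P0), Sl = LF \ W \ lfs z0. Root z0, par, rk (exists_order).
Con = P0 \ {z0}. par t in P0 for t in Con: t in W: par t in W ∪ {z0}. t in NL \ W, t <> z0: par t is not in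
W (Closed), and par t in NL (either par t = z0 or par t has the two different neighbours t and
par (par t); dist differs).
Regions: z0: {y} (class 0); W: O = C \ Q (class 1); NL \ W \ {z0}: Q.erase y (class 2) = PC.
lam t = |lfs t|, lm = l1, m = 35 h, wt = 1, g0 = 70 h.
rgp h1: PC: earlier + 32 * 35 h <= 1540 h + 1120 h <= |Q| - 35 h - 1 <= |nb (Q.erase y) y'| for y' in Q
 (|Q| >= K + 2 - 3h, K >= 10^7 h). W: as in XOutI: roots: earlier + 1 <= #roots <= p <= |nb (C\Q) y|
 (|nb C y| >= K, |nb Q y| <= |Q| - 1; if p = 0 then W is empty); deeper: earlier + 1 <= |W| <= 12 h <= 28 h.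
 h2: only z0.
Potential: sum over PC of |lfs| = |LF| - |lfs z0| - sum over W ∩ NL of |lfs t| (sum_lfs), and leaves at
 vertices of W lie in W (Closed, not z0), so it is >= (K + 1 - 1540 h) - 1541 h - 12 h >= K/2 + 140 h, so
 N = (sum - 140 h)/l1 >= (K/2)/l1 = K/(2 l1). With B = {rho in Q : sum over t in PC adjacent <= 70 h}:
 |B| * 4^N <= |Q| <= 4K, so 4 |B| <= l1 by bad1.
finishB (m = 35h): pi from leaf_nbr. For l in Sl: pi l in NL, pi l not in W (else l in W), pi l <> z0,
 so phi (pi l) in Q. Bd ⊆ B because the slots at t in PC are all of lfs t (a leaf at t is not in W and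
 not in lfs z0), so sum over {t in PC : Adj (phi t) rho} |lfs t| = |{l in Sl : Adj (phi (pi l)) rho}|.
 |Q \ phi(P0)| >= |Q| - |NL \ W| (vertices of W are placed outside Q), |Sl| = K + 1 - |NL \ W| - |W| -
 |lfs z0|; by (*) the difference is >= ceil(l1/2) >= |Bd|.
 Cv = ∅, S' = nb G C y: L0.card + |phi(P0) ∩ S'| + |Sl| <= |lfs z0| + (|P0| - 1) + |Sl| = K <= |S'|
 (phi z0 = y is not in nb C y).
-/

namespace Pool.Agent.H27.TC

open Finset Classical
open Pool.Agent.H28.TreeClique

variable {V α : Type*} [Fintype α]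

theorem beta2_aux {K r L q h : ℕ} (P : Par K r L q h) (T : SimpleGraph α) (hT : T.IsTree)
    (hcard : Fintype.card α = K + 1) (hNLc : (NL T).card ≤ 1540 * h) (G : SimpleGraph V)
    (C Q : Finset V) (hQ : Near G Q (35 * h)) (hlow : K + 2 ≤ Q.card + 3 * h)
    (hup : Q.card ≤ K + h) (hout : ∀ x ∈ C \ Q, 28 * h ≤ (nb G (C \ Q) x).card) (y : V)
    (hyQ : y ∈ Q) (hy : K ≤ (nb G C y).card) (l1 : ℕ) (hl1 : 1 ≤ l1) (hl1h : l1 ≤ 1541 * h)
    (hlfs : ∀ c, (lfs T c).card ≤ l1) (z0 : α) (W : Finset α) (hz0 : z0 ∈ NL T)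
    (hW : Closed T z0 W) (hWl : ∀ x ∈ W, T.Adj z0 x → dg T x ≠ 1)
    (hroots : (W.filter (fun x => T.Adj z0 x)).card ≤ K + 1 - Q.card)
    (hWc : W.card ≤ 12 * h)
    (hstar : K + 1 + l1 ≤ Q.card + W.card + (lfs T z0).card + l1 / 2) : Emb T G := by
  obtain ⟨-, -, -, -, hbig, hh3, -⟩ := par_facts P
  have h3c : 3 ≤ Fintype.card α := by omega
  obtain ⟨pi, hpi⟩ := leaf_nbr T hT h3c
  have : Nonempty V := ⟨y⟩
  have hNLF := card_NL_LF T
  rw [hcard] at hNLF
  obtain ⟨par, rk, hrk, hpar1, hpar2, hrk2⟩ := exists_order T hT z0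
  obtain ⟨hz0W, hW2⟩ := hW
  have hz0d : dg T z0 ≠ 1 := by
    rw [NL, mem_filter] at hz0
    exact hz0.2
  have hQO : Disjoint Q (C \ Q) := by
    rw [disjoint_left]
    intro x hx hx'
    exact (mem_sdiff.mp hx').2 hx
  -- the sets
  set P0 := NL T ∪ W with hP0
  set Sl := (LF T \ W) \ lfs T z0 with hSl
  have hNP : ∀ t ∈ NL T, t ∈ P0 := fun t ht => mem_union_left _ ht
  have hWP : ∀ t ∈ W, t ∈ P0 := fun t ht => mem_union_right _ ht
  have hz0P : z0 ∈ P0 := hNP z0 hz0
  have hparW : ∀ t ∈ W, par t ∈ W ∨ par t = z0 := by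
    intro t ht
    exact hW2 t ht _ (hpar1 t (fun h => hz0W (h ▸ ht))).1
  have hparW' : ∀ t, t ∉ W → t ≠ z0 → par t ∉ W := by
    intro t ht htz h
    rcases hW2 _ h t (hpar1 t htz).1.symm with h1 | h1
    · exact ht h1
    · exact htz h1
  have hparP : ∀ t ∈ P0, t ≠ z0 → par t ∈ P0 := by
    intro t ht htz
    by_cases htW : t ∈ W
    · rcases hparW t htW with h1 | h1
      · exact hWP _ h1
      · rw [h1]; exact hz0P
    · rw [hP0, mem_union] at ht
      exact hNP _ (par_NL T hz0 par hpar1 (ht.resolve_right htW) htz)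
  set Reg : α → Finset V := fun t => if t = z0 then {y} else if t ∈ W then C \ Q else Q.erase y
    with hReg
  set cl : α → ℕ := fun t => if t = z0 then 0 else if t ∈ W then 1 else 2 with hcl
  have R0 : Reg z0 = {y} := by simp [hReg]
  have R1 : ∀ t ∈ W, Reg t = C \ Q := by
    intro t ht
    have : t ≠ z0 := fun h => hz0W (h ▸ ht)
    simp [hReg, this, ht]
  have R2 : ∀ t, t ∉ W → t ≠ z0 → Reg t = Q.erase y := by
    intro t ht h
    simp [hReg, h, ht]
  have c0 : cl z0 = 0 := by simp [hcl]
  have c1 : ∀ t ∈ W, cl t = 1 := by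
    intro t ht
    have : t ≠ z0 := fun h => hz0W (h ▸ ht)
    simp [hcl, this, ht]
  have c2 : ∀ t, t ∉ W → t ≠ z0 → cl t = 2 := by
    intro t ht h
    simp [hcl, h, ht]
  have htri : ∀ t, t = z0 ∨ t ∈ W ∨ (t ∉ W ∧ t ≠ z0) := by
    intro t
    by_cases h1 : t = z0
    · left; exact h1
    · by_cases h2 : t ∈ W
      · right; left; exact h2
      · right; right; exact ⟨h2, h1⟩
  have hRQ : ∀ t, t ∉ W → Reg t ⊆ Q := by
    intro t ht
    rcases htri t with h1 | h1 | h1
    · rw [h1, R0, singleton_subset_iff]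
      exact hyQ
    · exact absurd h1 ht
    · rw [R2 t h1.1 h1.2]
      exact erase_subset _ _
  set PC := (NL T \ W).erase z0 with hPC
  have hPCm : ∀ t, t ∈ PC ↔ t ≠ z0 ∧ t ∈ NL T ∧ t ∉ W := by
    intro t
    rw [hPC, mem_erase, mem_sdiff]
  have hPCc : PC.card ≤ 1540 * h := by
    refine le_trans (card_le_card ?_) hNLc
    intro t ht
    exact ((hPCm t).mp ht).2.1
  have hPCP : ∀ t ∈ P0, cl t = 2 → t ∈ PC := by
    intro t ht h
    rw [hPCm]
    rcases htri t with h1 | h1 | h1
    · rw [h1, c0] at h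
      omega
    · rw [c1 t h1] at h
      omega
    · rw [hP0, mem_union] at ht
      exact ⟨h1.2, ht.resolve_right h1.1, h1.1⟩
  have hWm : ∀ t, cl t = 1 → t ∈ W := by
    intro t h
    rcases htri t with h1 | h1 | h1
    · rw [h1, c0] at h
      omega
    · exact h1
    · rw [c2 t h1.1 h1.2] at h
      omega
  have hzm : ∀ t, cl t = 0 → t = z0 := by
    intro t h
    rcases htri t with h1 | h1 | h1
    · exact h1
    · rw [c1 t h1] at h
      omega
    · rw [c2 t h1.1 h1.2] at h
      omega
  -- neighbours of y outside Q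
  have hyO : K + 1 - Q.card ≤ (nb G (C \ Q) y).card := by
    have h1 : nb G C y ⊆ nb G (C \ Q) y ∪ Q.erase y := by
      intro x hx
      unfold nb at hx ⊢
      rw [mem_filter] at hx
      rw [mem_union, mem_filter, mem_sdiff, mem_erase]
      by_cases h : x ∈ Q
      · right
        exact ⟨fun h' => by rw [h'] at hx; exact hx.2.ne rfl, h⟩
      · left
        exact ⟨⟨hx.1, h⟩, hx.2⟩
    have h2 := (card_le_card h1).trans (card_union_le _ _)
    have h3 := card_erase_add_one hyQ
    omega
  obtain ⟨φ, i1, i2, i3, i4⟩ := rgp G P0 rk hrk.injOn par (P0.erase z0)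
    (by
      intro t ht
      rw [mem_erase] at ht
      refine ⟨ht.2, hparP t ht.2 ht.1, hrk2 _ _ ?_⟩
      have := (hpar1 t ht.1).2
      omega)
    Reg cl
    (by
      intro t _ t' _ hne
      have d1 : Disjoint ({y} : Finset V) (C \ Q) := by
        rw [disjoint_singleton_left]
        exact fun h => disjoint_left.mp hQO hyQ h
      have d2 : Disjoint ({y} : Finset V) (Q.erase y) := by
        rw [disjoint_singleton_left]
        exact notMem_erase _ _
      have d3 : Disjoint (C \ Q) (Q.erase y) := by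
        rw [disjoint_left]
        intro x hx hx'
        exact disjoint_left.mp hQO (mem_of_mem_erase hx') hx
      rcases htri t with h1 | h1 | h1 <;> rcases htri t' with h2 | h2 | h2
      · rw [h1, h2] at hne
        exact absurd rfl hne
      · rw [h1, R0, R1 t' h2]
        exact d1
      · rw [h1, R0, R2 t' h2.1 h2.2]
        exact d2
      · rw [h2, R0, R1 t h1]
        exact d1.symm
      · rw [c1 t h1, c1 t' h2] at hne
        exact absurd rfl hne
      · rw [R1 t h1, R2 t' h2.1 h2.2]
        exact d3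
      · rw [h2, R0, R2 t h1.1 h1.2]
        exact d2.symm
      · rw [R1 t' h2, R2 t h1.1 h1.2]
        exact d3.symm
      · rw [c2 t h1.1 h1.2, c2 t' h2.1 h2.2] at hne
        exact absurd rfl hne)
    PC (fun t ht => hNP t ((hPCm t).mp ht).2.1) Q (35 * h) (by omega) hQ
    (fun t ht => hRQ t ((hPCm t).mp ht).2.2)
    (by
      intro t ht y' hy'
      rw [mem_erase] at ht
      obtain ⟨htz, htP⟩ := ht
      obtain ⟨hadjp, hdist⟩ := hpar1 t htz
      by_cases htW : t ∈ W
      · have htPC : t ∉ PC := fun h => ((hPCm t).mp h).2.2 htW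
        rw [if_neg htPC, R1 t htW]
        rcases hparW t htW with h1 | h1
        · rw [R1 _ h1] at hy'
          have h2 := hout y' hy'
          have h4 := card_earlier P0 W rk cl t htW (by
            intro t' _ _ h4
            rw [c1 t htW] at h4
            exact hWm t' h4)
          unfold nb at h2
          omega
        · rw [h1, R0, mem_singleton] at hy'
          rw [hy']
          refine le_trans (card_earlier _ (W.filter (fun x => T.Adj z0 x)) rk cl t ?_ ?_)
            (hroots.trans hyO)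
          · rw [mem_filter]
            refine ⟨htW, ?_⟩
            rw [h1] at hadjp
            exact hadjp.symm
          · intro t' _ h3 h4
            rw [c1 t htW] at h4
            have h5 := hWm t' h4
            rw [mem_filter]
            refine ⟨h5, ?_⟩
            have h6 : t' ≠ z0 := fun h => hz0W (h ▸ h5)
            have h7 := (hpar1 t' h6).2
            rw [h1, SimpleGraph.dist_self] at hdist
            have h8 : ¬ T.dist z0 t < T.dist z0 t' := fun h => by
              have := hrk2 _ _ h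
              omega
            exact SimpleGraph.dist_eq_one_iff_adj.mp (by omega)
      · have htPC : t ∈ PC := hPCP t htP (c2 t htW htz)
        rw [if_pos htPC, R2 t htW htz]
        have h1 : y' ∈ Q := hRQ _ (hparW' t htW htz) hy'
        have h2 := near_adj_erase (z := y) hQ h1
        have h4 := card_earlier P0 PC rk cl t htPC (by
          intro t' ht' _ h4
          rw [c2 t htW htz] at h4
          exact hPCP t' ht' h4)
        omega)
    (by
      intro t ht htC
      have h1 : t = z0 := by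
        by_contra h
        exact htC (mem_erase.mpr ⟨h, ht⟩)
      have htPC : t ∉ PC := fun h => ((hPCm t).mp h).1 h1
      rw [if_neg htPC, h1, R0, card_singleton]
      have h2 := card_earlier P0 {z0} rk cl z0 (mem_singleton_self _) (by
        intro t' _ _ h4
        rw [c0] at h4
        rw [mem_singleton]
        exact hzm t' h4)
      rw [card_singleton] at h2
      exact h2)
    (fun t => (lfs T t).card) l1 hl1 (fun t _ => hlfs t) (fun _ => 1) (70 * h)
  simp only [sum_const, smul_eq_mul, mul_one] at i4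
  -- the potential
  have hsumPC : K / 2 + 140 * h ≤ ∑ t ∈ PC, (lfs T t).card := by
    have h1 : NL T ⊆ insert z0 (PC ∪ (NL T ∩ W)) := by
      intro t ht
      rw [mem_insert, mem_union, mem_inter, hPCm]
      by_cases h2 : t = z0
      · left; exact h2
      · by_cases h4 : t ∈ W
        · right; right; exact ⟨ht, h4⟩
        · right; left; exact ⟨h2, ht, h4⟩
    have h2 : ∑ t ∈ NL T, (lfs T t).card ≤ (lfs T z0).card +
        (∑ t ∈ PC, (lfs T t).card + ∑ t ∈ NL T ∩ W, (lfs T t).card) := by
      refine (sum_le_sum_of_subset h1).trans ?_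
      rw [sum_insert, sum_union]
      · rw [disjoint_left]
        intro t ht ht'
        exact ((hPCm t).mp ht).2.2 (mem_of_mem_inter_right ht')
      · rw [mem_union]
        rintro (h | h)
        · exact ((hPCm z0).mp h).1 rfl
        · exact hz0W (mem_of_mem_inter_right h)
    rw [sum_lfs T hT h3c] at h2
    have h4 : ∑ t ∈ NL T ∩ W, (lfs T t).card ≤ W.card := by
      apply sum_lfs_le T hT h3c
      intro t ht x hx
      rw [mem_inter] at ht
      rw [lfs, mem_filter] at hx
      rcases hW2 t ht.2 x hx.2.1 with h5 | h5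
      · exact h5
      · rw [h5] at hx
        exact absurd hx.2.2 hz0d
    have h5 := hlfs z0
    omega
  set Bg := Q.filter (fun ρ => ∑ t ∈ PC.filter (fun t => G.Adj (φ t) ρ),
    (lfs T t).card ≤ 70 * h) with hBg
  have hBgc : 4 * Bg.card ≤ l1 := by
    refine bad1 P l1 ((∑ t ∈ PC, (lfs T t).card - 2 * (70 * h)) / l1) Bg.card hl1 hl1h ?_
      (by omega)
    rw [← Nat.div_div_eq_div_mul]
    apply Nat.div_le_div_right
    omega
  -- sizes
  have hpart : (NL T \ W).card + W.card + (lfs T z0).card + Sl.card = K + 1 ∧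
      P0.card = (NL T \ W).card + W.card := by
    have e1 : P0.card = (NL T \ W).card + W.card := by
      rw [hP0, ← sdiff_union_self_eq_union, card_union_of_disjoint sdiff_disjoint]
    have e2 : univ = P0 ∪ (lfs T z0 ∪ Sl) := by
      ext t
      simp only [mem_univ, mem_union, true_iff, hP0, hSl, mem_sdiff]
      by_cases h1 : dg T t = 1
      · by_cases h2 : t ∈ W
        · left; right; exact h2
        · by_cases h4 : t ∈ lfs T z0
          · right; left; exact h4
          · right; right
            refine ⟨⟨?_, h2⟩, h4⟩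
            rw [LF, mem_filter]
            exact ⟨mem_univ _, h1⟩
      · left; left
        rw [NL, mem_filter]
        exact ⟨mem_univ _, h1⟩
    have e3 : Disjoint (lfs T z0) Sl := by
      rw [disjoint_left]
      intro t ht ht'
      rw [hSl, mem_sdiff] at ht'
      exact ht'.2 ht
    have e4 : Disjoint P0 (lfs T z0 ∪ Sl) := by
      rw [disjoint_left]
      intro t ht ht'
      rw [hP0, mem_union] at ht
      rw [mem_union, hSl, mem_sdiff, mem_sdiff] at ht'
      rcases ht with h1 | h1
      · rw [NL, mem_filter] at h1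
        rcases ht' with h2 | h2
        · rw [lfs, mem_filter] at h2
          exact h1.2 h2.2.2
        · have h4 := h2.1.1
          rw [LF, mem_filter] at h4
          exact h1.2 h4.2
      · rcases ht' with h2 | h2
        · rw [lfs, mem_filter] at h2
          exact hWl t h1 h2.2.1 h2.2.2
        · exact h2.1.2 h1
    have e5 : (univ : Finset α).card = P0.card + ((lfs T z0).card + Sl.card) := by
      rw [e2, card_union_of_disjoint e4, card_union_of_disjoint e3]
    rw [card_univ, hcard] at e5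
    constructor
    · omega
    · exact e1
  have hφz0 : φ z0 = y := by
    have := i2 z0 hz0P
    rw [R0, mem_singleton] at this
    exact this
  have hSlm : ∀ l ∈ Sl, dg T l = 1 ∧ l ∉ W ∧ ¬ T.Adj z0 l := by
    intro l hl
    rw [hSl, mem_sdiff, mem_sdiff, LF, mem_filter] at hl
    refine ⟨hl.1.1.2, hl.1.2, fun h => hl.2 ?_⟩
    rw [lfs, mem_filter]
    exact ⟨mem_univ _, h, hl.1.1.2⟩
  have hSlpi : ∀ l ∈ Sl, pi l ∈ PC := by
    intro l hl
    obtain ⟨l1', l2, l3⟩ := hSlm l hl
    obtain ⟨p1, p2, p3⟩ := hpi l l1'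
    rw [hPCm]
    refine ⟨fun h => l3 ?_, ?_, fun h => ?_⟩
    · rw [← h]
      exact p1.symm
    · rw [NL, mem_filter]
      exact ⟨mem_univ _, p3⟩
    · rcases hW2 _ h l p1.symm with h1 | h1
      · exact l2 h1
      · rw [h1] at l1'
        exact hz0d l1'
  refine finishB T G P0 Sl (lfs T z0) ?_ ?_ ?_ ?_ z0 hz0P φ Q (35 * h) hQ pi ?_ ?_ i1 ?_ _ rfl
    ?_ ∅ (empty_subset _) (by simp) (nb G C y) ?_ (Or.inr ?_)
  · intro t
    by_cases h1 : dg T t = 1
    · by_cases h2 : t ∈ W
      · left; exact hWP t h2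
      · by_cases h4 : t ∈ lfs T z0
        · right; right; exact h4
        · right; left
          rw [hSl, mem_sdiff, mem_sdiff, LF, mem_filter]
          exact ⟨⟨⟨mem_univ _, h1⟩, h2⟩, h4⟩
    · left
      apply hNP
      rw [NL, mem_filter]
      exact ⟨mem_univ _, h1⟩
  · rw [disjoint_left]
    intro t ht ht'
    obtain ⟨l1', l2, l3⟩ := hSlm t ht'
    rw [hP0, mem_union] at ht
    rcases ht with h1 | h1
    · rw [NL, mem_filter] at h1
      exact h1.2 l1'
    · exact l2 h1
  · rw [disjoint_left]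
    intro t ht ht'
    rw [hP0, mem_union] at ht
    rw [lfs, mem_filter] at ht'
    rcases ht with h1 | h1
    · rw [NL, mem_filter] at h1
      exact h1.2 ht'.2.2
    · exact hWl t h1 ht'.2.1 ht'.2.2
  · rw [disjoint_left]
    intro t ht ht'
    rw [lfs, mem_filter] at ht'
    exact (hSlm t ht).2.2 ht'.2.1
  · intro l hl
    obtain ⟨p1, p2, p3⟩ := hpi l (hSlm l hl).1
    have h1 := (hPCm _).mp (hSlpi l hl)
    exact ⟨p1, p2, hNP _ h1.2.1, hRQ _ h1.2.2 (i2 _ (hNP _ h1.2.1))⟩
  · intro l hl b hb
    rw [lfs, mem_filter] at hl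
    rw [(hpi l hl.2.2).2.1 b hb, (hpi l hl.2.2).2.1 z0 hl.2.1.symm]
  · intro x hx y hy hxy
    rcases hpar2 x y hxy with ⟨h1, h2, -⟩ | ⟨h1, h2, -⟩
    · have := i3 x (mem_erase.mpr ⟨h2, hx⟩)
      rw [← h1] at this
      exact this.symm
    · have := i3 y (mem_erase.mpr ⟨h2, hy⟩)
      rw [← h1] at this
      exact this
  · have h1 : ((Q \ P0.image φ).filter
        (fun ρ => (Sl.filter (fun l => G.Adj (φ (pi l)) ρ)).card ≤ 2 * (35 * h))) ⊆ Bg := by
      intro ρ hρ
      rw [mem_filter, mem_sdiff] at hρ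
      rw [hBg, mem_filter]
      refine ⟨hρ.1.1, ?_⟩
      refine le_trans (sum_lfs_le T hT h3c _
        (Sl.filter (fun l => G.Adj (φ (pi l)) ρ)) ?_) (by omega)
      intro t ht x hx
      rw [mem_filter, hPCm] at ht
      rw [lfs, mem_filter] at hx
      have hpx : t = pi x := (hpi x hx.2.2).2.1 t hx.2.1.symm
      rw [mem_filter, hSl, mem_sdiff, mem_sdiff, LF, mem_filter]
      refine ⟨⟨⟨⟨mem_univ _, hx.2.2⟩, fun h => ?_⟩, fun h => ?_⟩, ?_⟩
      · rcases hW2 x h t hx.2.1.symm with h4 | h4
        · exact ht.1.2.2 h4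
        · exact ht.1.1 h4
      · rw [lfs, mem_filter] at h
        apply ht.1.1
        rw [hpx, (hpi x hx.2.2).2.1 z0 h.2.1.symm]
      · rw [← hpx]
        exact ht.2
    have h2 := card_le_card h1
    have h4 : Q.card ≤ (Q \ P0.image φ).card + (NL T \ W).card := by
      have h5 : Q ⊆ (Q \ P0.image φ) ∪ (NL T \ W).image φ := by
        intro x hx
        rw [mem_union, mem_sdiff]
        by_cases hxi : x ∈ P0.image φ
        · right
          rw [mem_image] at hxi ⊢
          obtain ⟨t, ht, rfl⟩ := hxi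
          refine ⟨t, ?_, rfl⟩
          have htW : t ∉ W := by
            intro h
            have h6 := i2 t ht
            rw [R1 t h] at h6
            exact (mem_sdiff.mp h6).2 hx
          rw [hP0, mem_union] at ht
          rw [mem_sdiff]
          exact ⟨ht.resolve_right htW, htW⟩
        · left; exact ⟨hx, hxi⟩
      exact (card_le_card h5).trans ((card_union_le _ _).trans
        (Nat.add_le_add_left card_image_le _))
    omega
  · intro x hx
    rw [hφz0]
    unfold nb at hx
    exact (mem_filter.mp hx).2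
  · have h1 : P0.image φ ∩ nb G C y ⊆ (P0.image φ).erase y := by
      intro x hx
      rw [mem_inter] at hx
      rw [mem_erase]
      refine ⟨fun h => ?_, hx.1⟩
      have h2 := hx.2
      unfold nb at h2
      rw [mem_filter, h] at h2
      exact h2.2.ne rfl
    have h2 := card_le_card h1
    have h4 : y ∈ P0.image φ := by
      rw [mem_image]
      exact ⟨z0, hz0P, hφz0⟩
    have h5 := card_erase_add_one h4
    have h6 : (P0.image φ).card = P0.card := card_image_of_injOn i1
    have h7 : ((∅ : Finset V) \ nb G C y).card = 0 := by simp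
    omega

theorem beta2 {K r L q h : ℕ} (P : Par K r L q h) (T : SimpleGraph α) (hT : T.IsTree)
    (hcard : Fintype.card α = K + 1) (hII : TypeII T (1540 * h) (1541 * h)) (G : SimpleGraph V)
    (C Q : Finset V) (hQC : Q ⊆ C) (hQ : Near G Q (35 * h)) (hlow : K + 2 ≤ Q.card + 3 * h)
    (hup : Q.card ≤ K + h) (hout : ∀ x ∈ C \ Q, 28 * h ≤ (nb G (C \ Q) x).card) (y : V)
    (hyQ : y ∈ Q) (hy : K ≤ (nb G C y).card) : Emb T G := by
  obtain ⟨-, -, -, -, hbig, hh3, -⟩ := par_facts P
  obtain ⟨hNLc, hlfs⟩ := hII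
  have h3c : 3 ≤ Fintype.card α := by omega
  obtain ⟨pi, hpi⟩ := leaf_nbr T hT h3c
  have hNLF := card_NL_LF T
  rw [hcard] at hNLF
  obtain ⟨z1, -, hz1⟩ := exists_max_image (univ : Finset α) (fun c => (lfs T c).card)
    (by
      obtain ⟨x⟩ : Nonempty α := Fintype.card_pos_iff.mp (by omega)
      exact ⟨x, mem_univ _⟩)
  have hmax : ∀ c, (lfs T c).card ≤ (lfs T z1).card := fun c => hz1 c (mem_univ _)
  have hl1 : 1 ≤ (lfs T z1).card := by
    obtain ⟨x, hx⟩ : (LF T).Nonempty := card_pos.mp (by omega)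
    rw [LF, mem_filter] at hx
    refine le_trans ?_ (hmax (pi x))
    apply card_pos.mpr
    refine ⟨x, ?_⟩
    rw [lfs, mem_filter]
    exact ⟨mem_univ _, (hpi x hx.2).1.symm, hx.2⟩
  have hz1N : z1 ∈ NL T := by
    obtain ⟨x, hx⟩ : (lfs T z1).Nonempty := card_pos.mp (by omega)
    rw [lfs, mem_filter] at hx
    rw [NL, mem_filter]
    refine ⟨mem_univ _, ?_⟩
    rw [(hpi x hx.2.2).2.1 z1 hx.2.1.symm]
    exact (hpi x hx.2.2).2.2
  by_cases hcase : 2 * (K + 1 - Q.card) ≤ (lfs T z1).card
  · refine beta2_aux P T hT hcard hNLc G C Q hQ hlow hup hout y hyQ hy (lfs T z1).card hl1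
      (hlfs z1) hmax z1 ∅ hz1N ⟨notMem_empty _, ?_⟩ ?_ ?_ ?_ ?_
    · intro a ha
      exact absurd ha (notMem_empty _)
    · intro a ha
      exact absurd ha (notMem_empty _)
    · simp
    · simp
    · rw [card_empty]
      omega
  · push Not at hcase
    obtain ⟨z0, W, w1, w2, w3, w4, w5, w6⟩ := split3 T hT (K + 1 - Q.card) (by omega) (by omega)
      h3c
    exact beta2_aux P T hT hcard hNLc G C Q hQ hlow hup hout y hyQ hy (lfs T z1).card hl1
      (hlfs z1) hmax z0 W w1 w2 w3 w4 (by omega) (by omega)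

end Pool.Agent.H27.TC
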