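import Pool.Agent.H27.TC.YBase

set_option autoImplicit false

/-
[H27 TC YAvg]  A vertex with many neighbours of large clique-degree.

w = C(K-1,r-1), th = theta K r, n = |S| >= K + 1, a = n/K >= 1.
(1) 2 |KS C| >= a C(K,r): |KS C| >= |KS S| - |S\C| (th-1) > F(n) - K (th-1) >= a W - W/2 (theta_mul).
(2) sum_{v in C} cd = r |KS C| (cd_sum), so 2 sum cd >= a r W = a K w (W_mul); |C| <= n < (a+1) K <= 2 a K;
    so 4 sum cd >= |C| w.
(3) cd_C(v) <= C(K-1,r-1) = w for v in C (cd_le, |nb C v| <= K-1). Good = {v in C : w <= 16 cd}. Then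
    16 sum cd <= 16 |Good| w + |C| w, hence 4 |C| w <= 16 |Good| w + |C| w, 3 |C| <= 16 |Good| (w > 0).
    C is nonempty (|KS C| > 0).
(4) sum_{u in C} |insert u (nb C u) ∩ Good| = sum_{v in Good} (|nb C v| + 1) >= |Good| (K - h + 1)
    (deg_lower; adjacency symmetric). So some u in C has 16 |N[u] ∩ Good| >= 3 (K - h + 1).
(5) |nb C u \ core| < 2h (core_card), so 16 |core ∩ Good| >= 3 (K-h+1) - 32 h >= K.
-/

namespace Pool.Agent.H27.TC

open Finset Classical
open Pool.Agent.H28.TreeClique

variable {V : Type*}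

theorem y_avg {K r L q h : ℕ} (P : Par K r L q h) (G : SimpleGraph V) (S C : Finset V)
    (hCS : C ⊆ S) (hSK : K + 1 ≤ S.card) (hbad : F K r S.card < (KS G r S).card)
    (hth : ∀ u ∈ C, theta K r ≤ cd G r C u) (hSC : (S \ C).card < K)
    (hKS : (KS G r S).card ≤ (S \ C).card * (theta K r - 1) + (KS G r C).card)
    (hD : ∀ u ∈ C, (nb G C u).card + 1 ≤ K) :
    ∃ u ∈ C, K ≤ 16 * ((core G C h u).filter
      (fun v => (K - 1).choose (r - 1) ≤ 16 * cd G r C v)).card := by
  obtain ⟨hr, hrK, hq, hqh, hbig, hh3, -⟩ := par_facts P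
  have hw := w_pos P
  have hWm := W_mul P
  have hthm := theta_mul P
  have hcdw : ∀ v ∈ C, cd G r C v ≤ (K - 1).choose (r - 1) := by
    intro v hv
    have := hD v hv
    exact (cd_le G r (by omega) C v).trans (Nat.choose_le_choose _ (by omega))
  have hFa : (S.card / K) * K.choose r ≤ F K r S.card := by
    unfold F
    exact Nat.le_add_right _ _
  have hdm := Nat.div_add_mod S.card K
  have hmod := Nat.mod_lt S.card (show K > 0 by omega)
  have hCS' := card_le_card hCS
  have hsum := cd_sum G r C
  generalize hwdef : (K - 1).choose (r - 1) = w at hw hWm hcdw ⊢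
  generalize K.choose r = W at hWm hthm hFa
  generalize S.card / K = a at hFa hdm
  generalize S.card % K = b at hdm hmod
  have ha : 1 ≤ a := by
    by_contra hc
    have : a = 0 := by omega
    rw [this] at hdm
    omega
  -- (1)
  have h1 : a * W ≤ 2 * (KS G r C).card := by
    have g1 : (S \ C).card * (theta K r - 1) ≤ K * (theta K r - 1) :=
      Nat.mul_le_mul_right _ hSC.le
    have g2 : W ≤ a * W := Nat.le_mul_of_pos_left _ (by omega)
    omega
  -- (2)
  have h2 : C.card * w ≤ 4 * ∑ v ∈ C, cd G r C v := by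
    have g1 : C.card ≤ 2 * (a * K) := by
      have : K ≤ a * K := Nat.le_mul_of_pos_left _ (by omega)
      have e : K * a = a * K := mul_comm _ _
      omega
    calc C.card * w ≤ (2 * (a * K)) * w := Nat.mul_le_mul_right _ g1
      _ = 2 * (a * (K * w)) := by ring
      _ = 2 * (a * (W * r)) := by rw [← hWm]
      _ = 2 * (a * W) * r := by ring
      _ ≤ 2 * (2 * (KS G r C).card) * r :=
          Nat.mul_le_mul_right _ (Nat.mul_le_mul_left _ h1)
      _ = 4 * (r * (KS G r C).card) := by ring
      _ = 4 * ∑ v ∈ C, cd G r C v := by rw [hsum]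
  -- (3)
  set Good := C.filter (fun v => w ≤ 16 * cd G r C v) with hGood
  have h3 : 16 * ∑ v ∈ C, cd G r C v ≤ 16 * Good.card * w + C.card * w := by
    rw [mul_sum]
    calc ∑ v ∈ C, 16 * cd G r C v
        ≤ ∑ v ∈ C, ((if w ≤ 16 * cd G r C v then 16 * w else 0) + w) := by
          apply sum_le_sum
          intro v hv
          have := hcdw v hv
          split_ifs with hc
          · omega
          · omega
      _ = 16 * Good.card * w + C.card * w := by
          rw [sum_add_distrib, sum_const, smul_eq_mul, ← sum_filter, sum_const, smul_eq_mul]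
          ring
  have h4 : 3 * C.card ≤ 16 * Good.card := by
    have g1 : 3 * C.card * w ≤ 16 * Good.card * w := by
      have e1 : 3 * C.card * w = 3 * (C.card * w) := by ring
      omega
    exact Nat.le_of_mul_le_mul_right g1 hw
  have hWpos : 0 < W := by
    by_contra hc
    have : W = 0 := by omega
    rw [this, zero_mul] at hWm
    have : 0 < K * w := Nat.mul_pos (by omega) hw
    omega
  have hCne : 1 ≤ C.card := by
    have g1 : 0 < a * W := Nat.mul_pos ha hWpos
    have g2 : 0 < (KS G r C).card := by omega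
    obtain ⟨Q, hQ⟩ := card_pos.mp g2
    rw [mem_KS] at hQ
    have := card_le_card hQ.1.1
    omega
  -- (4)
  have h5 : Good.card * (K - h + 1) ≤
      ∑ u ∈ C, (Good.filter (fun v => v = u ∨ G.Adj u v)).card := by
    have e1 : ∑ u ∈ C, (Good.filter (fun v => v = u ∨ G.Adj u v)).card =
        ∑ v ∈ Good, (C.filter (fun u => v = u ∨ G.Adj u v)).card := by
      simp only [card_filter]
      exact sum_comm
    rw [e1, ← smul_eq_mul]
    apply card_nsmul_le_sum
    intro v hv
    have hvC : v ∈ C := (mem_filter.mp hv).1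
    have g1 : insert v (nb G C v) ⊆ C.filter (fun u => v = u ∨ G.Adj u v) := by
      intro x hx
      rw [mem_insert] at hx
      rw [mem_filter]
      rcases hx with rfl | hx
      · exact ⟨hvC, Or.inl rfl⟩
      · rw [nb, mem_filter] at hx
        exact ⟨hx.1, Or.inr hx.2.symm⟩
    have g2 : (insert v (nb G C v)).card = (nb G C v).card + 1 := by
      apply card_insert_of_notMem
      intro hc
      rw [nb, mem_filter] at hc
      exact G.loopless.irrefl _ hc.2
    have g3 := card_le_card g1
    have g4 := deg_lower P G C v (hth v hvC)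
    omega
  have h6 : ∃ u ∈ C, 3 * (K - h + 1) ≤ 16 * (Good.filter (fun v => v = u ∨ G.Adj u v)).card := by
    by_contra hcon
    push Not at hcon
    have hne : C.Nonempty := card_pos.mp hCne
    have g1 : ∑ u ∈ C, 16 * (Good.filter (fun v => v = u ∨ G.Adj u v)).card <
        ∑ u ∈ C, 3 * (K - h + 1) := sum_lt_sum_of_nonempty hne hcon
    rw [← mul_sum, sum_const, smul_eq_mul] at g1
    have g2 : C.card * (3 * (K - h + 1)) ≤ 16 * (Good.card * (K - h + 1)) := by
      calc C.card * (3 * (K - h + 1)) = (3 * C.card) * (K - h + 1) := by ring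
        _ ≤ (16 * Good.card) * (K - h + 1) := Nat.mul_le_mul_right _ h4
        _ = _ := by ring
    omega
  obtain ⟨u, huC, hu⟩ := h6
  refine ⟨u, huC, ?_⟩
  obtain ⟨c1, c2, c3⟩ := core_card P G C u huC (hth u huC) (hD u huC)
  have h7 : Good.filter (fun v => v = u ∨ G.Adj u v) ⊆
      (core G C h u).filter (fun v => w ≤ 16 * cd G r C v) ∪ (nb G C u \ core G C h u) := by
    intro v hv
    rw [mem_filter, hGood, mem_filter] at hv
    obtain ⟨⟨k1, k2⟩, k3⟩ := hv
    rw [mem_union, mem_filter, mem_sdiff]
    by_cases hvc : v ∈ core G C h u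
    · left; exact ⟨hvc, k2⟩
    · right
      refine ⟨?_, hvc⟩
      rw [nb, mem_filter]
      rcases k3 with rfl | k3
      · exfalso
        apply hvc
        unfold core
        exact mem_insert_self _ _
      · exact ⟨k1, k3⟩
  have h8 := (card_le_card h7).trans (card_union_le _ _)
  omega

end Pool.Agent.H27.TC
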