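import Pool.Agent.H27.TC.YBase

set_option autoImplicit false

/-
[H27 TC YChao]  A minimal counterexample has a vertex with at least K neighbours (done by helper27).
-/

namespace Pool.Agent.H27.TC

open Finset Classical
open Pool.Agent.H28.TreeClique

variable {V : Type*}

theorem y_chao {K r L q h : ℕ} (P : Par K r L q h) (G : SimpleGraph V) (S : Finset V)
    (hmin : ∀ S' ⊂ S, (KS G r S').card ≤ F K r S'.card)
    (hbad : F K r S.card < (KS G r S).card) (hD : ∀ u ∈ S, (nb G S u).card + 1 ≤ K) : False := by
  obtain ⟨hr1, hrK, -⟩ := par_facts P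
  have hK := y_card P G S hbad
  have hne : S.Nonempty := card_pos.mp (by omega)
  obtain ⟨v, hv, hle⟩ := exists_vertex G (r := r) (by omega) S hne
  set M := NS G S v with hM
  have hMS : M ⊆ S := insert_subset hv (filter_subset _ _)
  have hvM : v ∈ M := mem_insert_self _ _
  have hMK : M.card ≤ K := by
    have h1 : M.card ≤ (nb G S v).card + 1 := card_insert_le _ _
    have h2 := hD v hv
    omega
  have h1 : KS G r S ⊆ (KS G r S).filter (fun C => ¬ Disjoint C M) ∪ KS G r (S \ M) := by
    intro C hC
    rw [mem_union]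
    by_cases hd : Disjoint C M
    · right
      rw [mem_KS] at hC ⊢
      refine ⟨⟨?_, hC.1.2⟩, hC.2⟩
      intro x hx
      rw [mem_sdiff]
      exact ⟨hC.1.1 hx, disjoint_left.mp hd hx⟩
    · left
      rw [mem_filter]
      exact ⟨hC, hd⟩
  have h2 := (card_le_card h1).trans (card_union_le _ _)
  have hMpos : 1 ≤ M.card := card_pos.mpr ⟨v, hvM⟩
  have hMle : M.card ≤ S.card := card_le_card hMS
  have hss : S \ M ⊂ S := by
    refine ⟨sdiff_subset, ?_⟩
    intro hcon
    exact (mem_sdiff.mp (hcon (hMS hvM))).2 hvM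
  have h3 := hmin (S \ M) hss
  rw [card_sdiff_of_subset hMS] at h3
  have h4 := F_add K r (S.card - M.card) M.card (by omega) hMK (by omega)
  rw [Nat.sub_add_cancel hMle] at h4
  omega

end Pool.Agent.H27.TC
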