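import Pool.Agent.H27.TC.NLin
import Pool.Agent.H27.TC.YBase

set_option autoImplicit false

/-
[H27 TC YDef]  The deficiency of a good cluster.

w = C(K-1,r-1), W = C(K,r), N = |KS G r Q|, g = |Q| - K (natural), d(v) = |nb Q v|.
Let s = min over v in Q of K - 1 - d(v); s >= 1 by H1, 1000 g <= s by H2, s <= 6q - 1 by hQ1
(some v in Q has K <= d(v) + 6q as K >= 1).
(i) r N = sum_{v in Q} cd_Q(v) <= |Q| C(K-1-s, r-1) (cd_sum, cd_le), and C(K-1-s,r-1) 7q <= (7q - s) w
    (lin). |Q| <= K + g. So 7 q r N <= (K + g)(7q - s) w <= 7 q K w - s K w + 7 q g w. With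
    r W = K w (W_mul): 7 q r W = 7 q K w. So N < W and
    7 q r (W - N) >= s K w - 7 q g w >= s K w (1 - 7q/(1000 K)) , q <= K/6. And r q <= 3K:
    21 K (W - N) >= s K w * (1 - 7/6000), so 22 (W - N) >= s w >= w.   (first two claims)
(ii) dd := W - N, kap := 25 (dd / w) + 52. Claim K <= 16 |Gam|, Gam = {v in Q : K <= d(v) + kap}.
    Suppose 16 |Gam| < K. If kap >= 6 q then Gam contains the set of hQ1: contradiction. So kap < 6q.
    For v in Q \ Gam: d(v) <= K - 1 - kap, cd_Q(v) <= C(K-1-kap, r-1); for v in Gam cd_Q(v) <= w.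
    7 q r N <= 7 q |Gam| w + (|Q| - |Gam|)(7 q - kap) w = 7 q |Q| w - kap (|Q| - |Gam|) w.
    So kap (|Q| - |Gam|) w <= 7 q g w + 7 q r dd <= 7 q g w + 21 K dd, and 1000 g w <= s w <= 22 dd,
    7 q g w <= 7 q * 22 dd/1000 <= K dd (q <= K/6). So kap (|Q| - |Gam|) w <= 22 K dd.
    |Q| >= K + 1 - 6q (v with K <= d(v) + 6q), so |Q| - |Gam| >= K - 6q - K/16 >= (9/10) K
    (q <= K/1000). So 9 kap w <= 220 dd. But kap w >= 25 (dd/w) w + 52 w >= 25 (dd - w) + 52 w
    = 25 dd + 27 w, 225 dd + 243 w <= 220 dd: contradiction (w > 0).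
(iii) kap <= 30 q: dd <= W, 2 W r = 2 K w <= r q w, so 2 W <= q w, dd/w <= q/2,
    kap <= 25 q/2 + 52 <= 30 q as q >= 3 (25 * (q/2) + 52 <= 30 q for natural q >= 3: 2*(30 q) >= 25 q + 104
    iff 35 q >= 104).
(iv) kap w <= 25 dd + 52 w <= 25 dd + 52 * 22 dd = 1169 dd.
-/

namespace Pool.Agent.H27.TC

open Finset Classical
open Pool.Agent.H28.TreeClique

variable {V : Type*}

lemma def_one (K r q g s w W N : ℤ) (hK : 0 < K) (hq : 0 ≤ q) (hr : 0 ≤ r) (hg : 0 ≤ g)
    (hs : 1 ≤ s) (hw : 0 < w) (hWm : W * r = K * w) (hqK : 6 * q ≤ K) (hrq : r * q ≤ 3 * K)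
    (hgs : 1000 * g ≤ s) (hN : 7 * q * (r * N) ≤ (K + g) * ((7 * q - s) * w)) :
    0 < W - N ∧ s * w ≤ 22 * (W - N) := by
  have e2 : (s * K - 7 * q * g) * w ≤ 7 * q * r * (W - N) := by
    have t1 : 7 * q * r * (W - N) = 7 * q * (K * w) - 7 * q * (r * N) := by
      rw [← hWm]; ring
    have t2 : 0 ≤ g * s * w := by positivity
    have t3 : (K + g) * ((7 * q - s) * w) =
        7 * q * (K * w) - s * K * w + 7 * q * g * w - g * s * w := by ring
    have t4 : (s * K - 7 * q * g) * w = s * K * w - 7 * q * g * w := by ring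
    rw [t1, t4]
    linarith
  have e3 : 5993 * (s * K) ≤ 6000 * (s * K - 7 * q * g) := by
    have t1 : 6000 * (7 * q * g) ≤ 42 * q * s := by
      have : q * (1000 * g) ≤ q * s := mul_le_mul_of_nonneg_left hgs hq
      nlinarith
    have t2 : 42 * q * s ≤ 7 * (s * K) := by
      have : s * (6 * q) ≤ s * K := mul_le_mul_of_nonneg_left hqK (by linarith)
      nlinarith
    linarith
  have e4 : 5993 * (s * K) * w ≤ 6000 * (7 * q * r * (W - N)) := by
    calc 5993 * (s * K) * w ≤ 6000 * (s * K - 7 * q * g) * w :=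
          mul_le_mul_of_nonneg_right e3 hw.le
      _ = 6000 * ((s * K - 7 * q * g) * w) := by ring
      _ ≤ _ := mul_le_mul_of_nonneg_left e2 (by norm_num)
  have hsKw : 0 < s * K * w := by positivity
  have hD : 0 < W - N := by
    by_contra hc
    push Not at hc
    have : 7 * q * r * (W - N) ≤ 0 := mul_nonpos_of_nonneg_of_nonpos (by positivity) hc
    linarith
  refine ⟨hD, ?_⟩
  have e5 : 7 * q * r * (W - N) ≤ 21 * K * (W - N) := by
    apply mul_le_mul_of_nonneg_right _ hD.le
    linarith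
  have e6 : (5993 * (s * w)) * K ≤ (126000 * (W - N)) * K := by
    calc (5993 * (s * w)) * K = 5993 * (s * K) * w := by ring
      _ ≤ 6000 * (7 * q * r * (W - N)) := e4
      _ ≤ 6000 * (21 * K * (W - N)) := mul_le_mul_of_nonneg_left e5 (by norm_num)
      _ = _ := by ring
  have e7 := le_of_mul_le_mul_right e6 hK
  linarith

lemma def_two (K r q g s w W N a b kap e : ℤ) (hK : 0 < K) (hq : 0 ≤ q) (hr : 0 ≤ r)
    (hg : 0 ≤ g) (hw : 0 < w) (hWm : W * r = K * w) (hqK : 200 * q ≤ K)
    (hrq : r * q ≤ 3 * K) (hgs : 1000 * g ≤ s) (hD : 0 < W - N) (hsD : s * w ≤ 22 * (W - N))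
    (ha : 16 * a < K) (hb : 0 ≤ b) (hab : K + 1 - 6 * q ≤ a + b) (hab2 : a + b ≤ K + g)
    (hk : kap = 25 * e + 52) (he : W - N < (e + 1) * w) (he0 : 0 ≤ e)
    (hN : 7 * q * (r * N) ≤ a * (7 * q * w) + b * ((7 * q - kap) * w)) : False := by
  have hkap : 0 < kap := by linarith
  have e1 : kap * b * w ≤ 7 * q * g * w + 7 * q * r * (W - N) := by
    have t1 : 7 * q * r * (W - N) = 7 * q * (K * w) - 7 * q * (r * N) := by
      rw [← hWm]; ring
    have t2 : a * (7 * q * w) + b * ((7 * q - kap) * w) = 7 * q * w * (a + b) - kap * b * w := by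
      ring
    have t3 : 7 * q * w * (a + b) ≤ 7 * q * w * (K + g) :=
      mul_le_mul_of_nonneg_left hab2 (by positivity)
    have t4 : 7 * q * w * (K + g) = 7 * q * (K * w) + 7 * q * g * w := by ring
    linarith
  have e2 : 7 * q * r * (W - N) ≤ 21 * K * (W - N) := by
    apply mul_le_mul_of_nonneg_right _ hD.le
    linarith
  have e3 : 7 * q * g * w ≤ K * (W - N) := by
    have t1 : 1000 * g * w ≤ 22 * (W - N) := (mul_le_mul_of_nonneg_right hgs hw.le).trans hsD
    have t2 : 1000 * (7 * q * g * w) ≤ 154 * (q * (W - N)) := by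
      have : 7 * q * (1000 * g * w) ≤ 7 * q * (22 * (W - N)) :=
        mul_le_mul_of_nonneg_left t1 (by positivity)
      linarith
    have t3 : 200 * q * (W - N) ≤ K * (W - N) := mul_le_mul_of_nonneg_right hqK hD.le
    have t4 : 0 < K * (W - N) := by positivity
    linarith
  have e4 : kap * b * w ≤ 22 * K * (W - N) := by linarith
  have e5 : 9 * K ≤ 10 * b := by linarith
  have e6 : (9 * (kap * w)) * K ≤ (220 * (W - N)) * K := by
    have t1 : (9 * K) * (kap * w) ≤ (10 * b) * (kap * w) :=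
      mul_le_mul_of_nonneg_right e5 (by positivity)
    have t2 : (10 * b) * (kap * w) = 10 * (kap * b * w) := by ring
    calc (9 * (kap * w)) * K = (9 * K) * (kap * w) := by ring
      _ ≤ 10 * (kap * b * w) := by rw [← t2]; exact t1
      _ ≤ 10 * (22 * K * (W - N)) := mul_le_mul_of_nonneg_left e4 (by norm_num)
      _ = _ := by ring
  have e7 := le_of_mul_le_mul_right e6 hK
  have e8 : kap * w = 25 * (e * w) + 52 * w := by rw [hk]; ring
  have e9 : (e + 1) * w = e * w + w := by ring
  linarith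

theorem y_def {K r L q h : ℕ} (P : Par K r L q h) (G : SimpleGraph V) (Q : Finset V)
    (hQ1 : K ≤ 16 * (Q.filter (fun v => K ≤ (nb G Q v).card + 6 * q)).card)
    (H1 : ∀ v ∈ Q, (nb G Q v).card + 2 ≤ K)
    (H2 : ∀ v ∈ Q, 1000 * (Q.card - K) + (nb G Q v).card + 1 ≤ K) (dd kap : ℕ)
    (hdd : dd = K.choose r - (KS G r Q).card)
    (hkap : kap = 25 * (dd / (K - 1).choose (r - 1)) + 52) :
    (KS G r Q).card < K.choose r ∧ (K - 1).choose (r - 1) ≤ 22 * dd ∧
      K ≤ 16 * (Q.filter (fun v => K ≤ (nb G Q v).card + kap)).card ∧ kap ≤ 30 * q ∧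
      kap * (K - 1).choose (r - 1) ≤ 1200 * dd := by
  obtain ⟨hr, hrK, hq, hqh, hbig, hh3, -⟩ := par_facts P
  have hw := w_pos P
  have hWm := W_mul P
  have hrq := P.hq2
  have hrq1 := P.hq1
  have hsum := cd_sum G r Q
  -- a vertex of large degree
  obtain ⟨v1, hv1⟩ : (Q.filter (fun v => K ≤ (nb G Q v).card + 6 * q)).Nonempty := by
    apply card_pos.mp
    omega
  rw [mem_filter] at hv1
  obtain ⟨v0, hv0, hmax⟩ := exists_max_image Q (fun v => (nb G Q v).card) ⟨v1, hv1.1⟩
  have hv01 := hmax v1 hv1.1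
  have hQlow := nb_nn_card G Q v1 hv1.1
  obtain ⟨s, hs⟩ : ∃ s, s = K - 1 - (nb G Q v0).card := ⟨_, rfl⟩
  have hs1 : 1 ≤ s := by
    have := H1 v0 hv0
    omega
  have hs2 : 1000 * (Q.card - K) ≤ s := by
    have := H2 v0 hv0
    omega
  have hs3 : s ≤ 6 * q := by omega
  have hlin := lin P s hs3
  obtain ⟨g, hg⟩ : ∃ g, g = Q.card - K := ⟨_, rfl⟩
  rw [← hg] at hs2
  have hQg : Q.card ≤ K + g := by omega
  -- (i)
  have hN1 : 7 * q * (r * (KS G r Q).card) ≤ (K + g) * ((7 * q - s) * (K - 1).choose (r - 1)) := by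
    have t1 : r * (KS G r Q).card ≤ Q.card * (K - 1 - s).choose (r - 1) := by
      rw [← hsum, ← smul_eq_mul]
      apply sum_le_card_nsmul
      intro v hv
      refine (cd_le G r (by omega) Q v).trans (Nat.choose_le_choose _ ?_)
      have := hmax v hv
      omega
    calc 7 * q * (r * (KS G r Q).card) ≤ 7 * q * (Q.card * (K - 1 - s).choose (r - 1)) :=
          Nat.mul_le_mul_left _ t1
      _ = Q.card * ((K - 1 - s).choose (r - 1) * (7 * q)) := by ring
      _ ≤ (K + g) * ((7 * q - s) * (K - 1).choose (r - 1)) := Nat.mul_le_mul hQg hlin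
  have hcd : ∀ v ∈ Q, cd G r Q v ≤ ((nb G Q v).card).choose (r - 1) :=
    fun v _ => cd_le G r (by omega) Q v
  have hGdef := hsum
  -- second estimate, used below
  have hN2 : kap < 6 * q → 7 * q * (r * (KS G r Q).card) ≤
      (Q.filter (fun v => K ≤ (nb G Q v).card + kap)).card *
        (7 * q * (K - 1).choose (r - 1)) +
      (Q.filter (fun v => ¬ K ≤ (nb G Q v).card + kap)).card *
        ((7 * q - kap) * (K - 1).choose (r - 1)) := by
    intro hk6
    have hlin2 := lin P kap hk6.le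
    rw [← hsum, mul_sum, ← sum_filter_add_sum_filter_not Q
      (fun v => K ≤ (nb G Q v).card + kap)]
    apply Nat.add_le_add
    · rw [← smul_eq_mul (Finset.card _)]
      apply sum_le_card_nsmul
      intro v hv
      have hvQ := (mem_filter.mp hv).1
      apply Nat.mul_le_mul_left
      refine (hcd v hvQ).trans (Nat.choose_le_choose _ ?_)
      have := H1 v hvQ
      omega
    · rw [← smul_eq_mul (Finset.card _)]
      apply sum_le_card_nsmul
      intro v hv
      rw [mem_filter] at hv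
      calc 7 * q * cd G r Q v ≤ 7 * q * (K - 1 - kap).choose (r - 1) := by
            apply Nat.mul_le_mul_left
            refine (hcd v hv.1).trans (Nat.choose_le_choose _ ?_)
            have := hv.2
            omega
        _ = (K - 1 - kap).choose (r - 1) * (7 * q) := by ring
        _ ≤ _ := hlin2
  have hGamsplit := card_filter_add_card_filter_not (s := Q)
    (fun v => K ≤ (nb G Q v).card + kap)
  have hmono : 6 * q ≤ kap → K ≤ 16 * (Q.filter (fun v => K ≤ (nb G Q v).card + kap)).card := by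
    intro hk6
    refine hQ1.trans (Nat.mul_le_mul_left _ (card_le_card ?_))
    intro v hv
    rw [mem_filter] at hv ⊢
    exact ⟨hv.1, by omega⟩
  generalize (Q.filter (fun v => K ≤ (nb G Q v).card + kap)).card = a at *
  generalize (Q.filter (fun v => ¬ K ≤ (nb G Q v).card + kap)).card = b at *
  generalize (KS G r Q).card = N at *
  generalize (K - 1).choose (r - 1) = w at *
  generalize K.choose r = W at *
  have hWmZ : (W : ℤ) * r = K * w := by exact_mod_cast hWm
  have hrqZ : (r : ℤ) * q ≤ 3 * K := by exact_mod_cast hrq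
  have hN1Z : 7 * (q : ℤ) * (r * N) ≤ (K + g) * ((7 * q - s) * w) := by
    have e : ((7 * q - s : ℕ) : ℤ) = 7 * q - s := by
      rw [Nat.cast_sub (by omega)]
      push_cast
      ring
    rw [← e]
    exact_mod_cast hN1
  obtain ⟨hD, hsD⟩ := def_one K r q g s w W N (by omega) (by omega) (by omega) (by omega)
    (by omega) (by omega) hWmZ (by omega) hrqZ (by omega) hN1Z
  have hNW : N < W := by omega
  have hddZ : (dd : ℤ) = W - N := by omega
  have hwdd : w ≤ 22 * dd := by
    have : (w : ℤ) ≤ s * w := by nlinarith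
    have h2 : (w : ℤ) ≤ 22 * dd := by rw [hddZ]; linarith
    exact_mod_cast h2
  have hew : (dd / w) * w ≤ dd := Nat.div_mul_le_self _ _
  have hew2 : dd < w * (dd / w + 1) := Nat.lt_mul_div_succ _ hw
  generalize dd / w = e at hkap hew hew2
  refine ⟨hNW, hwdd, ?_, ?_, ?_⟩
  · by_contra hcon
    push Not at hcon
    have hk6 : kap < 6 * q := by
      by_contra hc
      push Not at hc
      have := hmono hc
      omega
    have hN2' := hN2 hk6
    have hN2Z : 7 * (q : ℤ) * (r * N) ≤ a * (7 * q * w) + b * ((7 * q - kap) * w) := by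
      have e : ((7 * q - kap : ℕ) : ℤ) = 7 * q - kap := by
        rw [Nat.cast_sub (by omega)]
        push_cast
        ring
      rw [← e]
      exact_mod_cast hN2'
    refine def_two K r q g s w W N a b kap e (by omega) (by omega) (by omega) (by omega)
      (by omega) hWmZ (by omega) hrqZ (by omega) hD hsD (by omega) (by omega) (by omega)
      (by omega) (by omega) ?_ (by omega) hN2Z
    rw [← hddZ]
    have : ((w * (e + 1) : ℕ) : ℤ) = ((e : ℤ) + 1) * w := by push_cast; ring
    rw [← this]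
    exact_mod_cast hew2
  · -- kap ≤ 30 q
    have t1 : 2 * W ≤ q * w := by
      have t2 : 2 * W * r ≤ q * w * r := by
        calc 2 * W * r = 2 * (W * r) := by ring
          _ = (2 * K) * w := by rw [hWm]; ring
          _ ≤ (r * q) * w := Nat.mul_le_mul_right _ hrq1
          _ = q * w * r := by ring
      exact Nat.le_of_mul_le_mul_right t2 (by omega)
    have t3 : (2 * e) * w ≤ q * w := by
      have : (2 * e) * w = 2 * (e * w) := by ring
      omega
    have t4 := Nat.le_of_mul_le_mul_right t3 hw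
    omega
  · rw [hkap]
    have : (25 * e + 52) * w = 25 * (e * w) + 52 * w := by ring
    omega

end Pool.Agent.H27.TC
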