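import Pool.Agent.H27.TC.YBase

set_option autoImplicit false

/-
[H27 TC YGam]  Good vertices of the core have large degree inside the cluster.

w = C(K-1,r-1), Q = clu G S C h u, Q0 = Q ∩ C ⊇ core. v in core with w <= 16 cd_C(v).
cd_out (S := C, Q := Q0): cd_C(v) <= cd_{Q0}(v) + sum over x in nb C v \ Q0 of #(cliques with v, x).
For such x (x in C ⊆ S, x not in clu): |nn core x| >= 30 h + 1. v is adjacent to x, so v is not in
nn core x. The elements of nn core x that are not in nn core v lie in nb C v (they are in core ⊆ C,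
different from v, adjacent to v), so nb C v contains at least 30h+1-(3h-1) = 27 h + 2 vertices
different from x and not adjacent to x, and x itself; hence |nb (nb C v) x| <= K - 1 - 1 - (27h+2)
<= K - 2 - 27 h. pair_le: #(cliques with v,x) <= C(K-2-27h, r-2). At most K such x. By `half`
(N = K-2, t = r-2, j = 27 (L+2)), C(K-2-27h, r-2) 2^(27(L+2)) <= C(K-2,r-2), and
K C(K-2,r-2) <= 2 (K-1) C(K-2,r-2) = 2 (r-1) w <= 2^(L+1) w. So the sum is at most w/32.
Hence w <= 32 cd_{Q0}(v) <= 32 C(|nb Q v|, r-1) (cd_le, nb Q0 v ⊆ nb Q v). If |nb Q v| + 6 q < K then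
|nb Q v| <= K - 1 - 6 q and C(.., r-1) 2^6 <= w by half, so w <= w/2, contradiction to w > 0.
-/

namespace Pool.Agent.H27.TC

open Finset Classical
open Pool.Agent.H28.TreeClique

variable {V : Type*}

theorem y_gam0 {K r L q h : ℕ} (P : Par K r L q h) (G : SimpleGraph V) (S C : Finset V)
    (hCS : C ⊆ S) (hD : ∀ u ∈ C, (nb G C u).card + 1 ≤ K) (u : V) (huC : u ∈ C) (v : V)
    (hv : v ∈ core G C h u) (hcd : (K - 1).choose (r - 1) ≤ 16 * cd G r C v) :
    K ≤ (nb G (clu G S C h u) v).card + 6 * q := by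
  obtain ⟨hr, hrK, hq, hqh, hbig, hh3, -⟩ := par_facts P
  have hw := w_pos P
  have hvQ := core_sub_clu P G S C hCS u huC hv
  have hvC := core_sub G C h u huC hv
  have hnnv := (core_nn P G C u huC v hv).2
  set Q := clu G S C h u with hQ
  have h1 := cd_out G r C (Q ∩ C) inter_subset_right v (mem_inter.mpr ⟨hvQ, hvC⟩)
  have h2 : ∀ x ∈ nb G C v \ (Q ∩ C), ((KS G r C).filter (fun D => v ∈ D ∧ x ∈ D)).card ≤
      (K - 2 - (27 * (L + 2)) * q).choose (r - 2) := by
    intro x hx
    rw [mem_sdiff, mem_inter, nb, mem_filter] at hx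
    obtain ⟨⟨hxC, hvx⟩, hxQ⟩ := hx
    have hxQ' : x ∉ Q := fun hc => hxQ ⟨hc, hxC⟩
    refine (pair_le G r (by omega) C v x hvx.ne).trans (Nat.choose_le_choose _ ?_)
    have e1 : (27 * (L + 2)) * q = 27 * h := by rw [P.hh]; ring
    rw [e1]
    have g1 : 30 * h < (nn G (core G C h u) x).card := by
      by_contra hcon
      push Not at hcon
      apply hxQ'
      rw [hQ]
      unfold clu
      exact mem_filter.mpr ⟨hCS hxC, hcon⟩
    have g2 : nn G (core G C h u) x \ nn G (core G C h u) v ⊆ nn G (nb G C v) x := by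
      intro z hz
      rw [mem_sdiff, nn, nn, mem_filter, mem_filter] at hz
      obtain ⟨⟨k1, k2, k3⟩, k4⟩ := hz
      have hzv : z ≠ v := by
        rintro rfl
        exact k3 hvx.symm
      have hvz : G.Adj v z := by
        by_contra hc
        exact k4 ⟨k1, hzv, hc⟩
      rw [nn, mem_filter, nb, mem_filter]
      exact ⟨⟨core_sub G C h u huC k1, hvz⟩, k2, k3⟩
    have g3 := card_le_card g2
    have g4 := le_card_sdiff (nn G (core G C h u) v) (nn G (core G C h u) x)
    have g5 := nb_nn_card G (nb G C v) x (by rw [nb, mem_filter]; exact ⟨hxC, hvx⟩)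
    have g6 := hD v hvC
    omega
  have h3 : ∑ x ∈ nb G C v \ (Q ∩ C), ((KS G r C).filter (fun D => v ∈ D ∧ x ∈ D)).card ≤
      K * (K - 2 - (27 * (L + 2)) * q).choose (r - 2) := by
    refine (sum_le_card_nsmul _ _ _ h2).trans ?_
    rw [smul_eq_mul]
    apply Nat.mul_le_mul_right
    have g1 : (nb G C v \ (Q ∩ C)).card ≤ (nb G C v).card := card_le_card sdiff_subset
    have g2 := hD v hvC
    omega
  have h4 : cd G r (Q ∩ C) v ≤ ((nb G Q v).card).choose (r - 1) := by
    refine (cd_le G r (by omega) (Q ∩ C) v).trans (Nat.choose_le_choose _ (card_le_card ?_))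
    intro x hx
    rw [nb, mem_filter] at hx ⊢
    exact ⟨(mem_inter.mp hx.1).1, hx.2⟩
  have h6 := half P (K - 2) (r - 2) (27 * (L + 2)) (by omega) (by omega)
  have h7 := w2_mul P
  by_contra hcon
  push Not at hcon
  have h8 : ((nb G Q v).card).choose (r - 1) ≤ (K - 1 - 6 * q).choose (r - 1) :=
    Nat.choose_le_choose _ (by omega)
  have h9 := half P (K - 1) (r - 1) 6 (by omega) (by omega)
  have h10 := P.hr1
  generalize (K - 2 - (27 * (L + 2)) * q).choose (r - 2) = B at h3 h6
  generalize (K - 1 - 6 * q).choose (r - 1) = A at h8 h9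
  generalize (K - 2).choose (r - 2) = w2 at h6 h7
  generalize (K - 1).choose (r - 1) = w at hcd h7 h9 hw
  have g1 : K * w2 ≤ 2 ^ (L + 1) * w := by
    calc K * w2 ≤ (2 * (K - 1)) * w2 := Nat.mul_le_mul_right _ (by omega)
      _ = 2 * ((K - 1) * w2) := by ring
      _ = 2 * ((r - 1) * w) := by rw [h7]
      _ ≤ 2 * (2 ^ L * w) := Nat.mul_le_mul_left _ (Nat.mul_le_mul_right _ (by omega))
      _ = 2 ^ (L + 1) * w := by ring
  have g2 : 32 * (K * B) ≤ w := by
    have g3 : 32 * (K * B) * 2 ^ (L + 1) ≤ w * 2 ^ (L + 1) := by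
      calc 32 * (K * B) * 2 ^ (L + 1) = K * (B * 2 ^ (L + 6)) := by ring
        _ ≤ K * (B * 2 ^ (27 * (L + 2))) :=
          Nat.mul_le_mul_left _ (Nat.mul_le_mul_left _
            (Nat.pow_le_pow_right (by norm_num) (by omega)))
        _ ≤ K * w2 := Nat.mul_le_mul_left _ h6
        _ ≤ 2 ^ (L + 1) * w := g1
        _ = w * 2 ^ (L + 1) := mul_comm _ _
    exact Nat.le_of_mul_le_mul_right g3 (Nat.pow_pos (by norm_num))
  norm_num at h9
  omega

end Pool.Agent.H27.TC
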