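import Pool.Agent.H27.TC.NGrow
import Pool.Agent.H27.TC.YBase

set_option autoImplicit false

/-
[H27 TC YStar]  Minimality forces many vertices of Q with many neighbours outside Q.

w = C(K-1,r-1), W = C(K,r), n = |S|, b = n % K, dd = W - |KS Q|, O = Cj \ Q,
Y = {y in Q : 2 kap <= |nb O y|}, Z = Q \ Y. Suppose |Y| < 2 kap.
(1) |Z| >= |Q| - 2 kap + 1 >= K + 1 - 3 kap >= 1, so S \ Z is a proper subset and
    |KS (S \ Z)| <= F(n - |Z|) <= F(n - K + 3 kap) (F_mono; n >= K).
    growth with t = 3 kap <= 90 q: C(b + 3 kap, r-1) 2^(L/2) <= w; in particular b + 3 kap < K (otherwise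
    C(b+3kap, r-1) >= w > 0 and 2^(L/2) >= 2). F_incr: F(n-K+3kap) + W <= F(n) + 3 kap bet,
    bet = C(b+3 kap, r-1), and 3 kap bet * 2^(L/2) <= 3 kap w <= 3600 dd, so 4 * 3 kap bet <= dd
    (2^(L/2) >= 2^5000 >= 14400).
(2) E1 = cliques of S not contained in Cj: |E1| = |KS S| - |KS Cj| <= C(10 kap + 1, r).
    With j = 10 kap + 1 <= 11 kap <= 330 q: r C(j,r) = j C(j-1,r-1), j - 1 <= K - 1 - 20 q,
    C(j-1,r-1) 2^20 <= w (half). So C(j,r) 2^20 <= r C(j,r) 2^20 = j C(j-1,r-1) 2^20 <= 11 kap w <= 13200 dd,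
    so 4 C(j,r) <= dd. (r >= 1; if r C <= X then C <= X.)
(3) E2 = cliques of Cj meeting Z and not contained in Q: each contains y in Z and x outside Q, adjacent,
    x in O, so x in nb O y. |nb O y| < 2 kap. For x in O ⊆ S \ Q: |nb Q x| <= |Q| - 30 h - 1 <= K - 29 h - 1.
    nb (nb Cj y) x ⊆ nb Q x ∪ nb O y, so it has at most K - 29 h - 1 + 2 kap <= K - 28 h elements
    (2 kap <= 60 q <= h). pair_le: at most C(K-28h, r-2) cliques for each pair.
    |E2| <= |Q| * 2 kap * C(K-28h, r-2). C(K-28h, r-2) 2^(27 (L+2)) <= C(K-h, r-2) <= C(K-2, r-2)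
    (half with N = K - h, j = 27 (L+2), 27h = 27 (L+2) q; h >= 2). |Q| <= K + h <= 2K <= 4 (K-1).
    So |E2| 2^(27(L+2)) <= 8 kap (K-1) C(K-2,r-2) = 8 kap (r-1) w <= 8 * 2^L * 1200 dd, so 4 |E2| <= dd.
(4) Every clique of S is contained in Q, or is disjoint from Z (contained in S \ Z), or is in E1 or E2:
    |KS S| <= |KS Q| + F(n-K+3kap) + |E1| + |E2| <= (W - dd) + F(n) - W + 3 dd/4 <= F(n),
    contradiction to hbad (dd >= 1 since kap w >= 1 and kap w <= 1200 dd).  (|KS Q| = W - dd by hQW.)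
-/

namespace Pool.Agent.H27.TC

open Finset Classical
open Pool.Agent.H28.TreeClique

variable {V : Type*}

lemma sdiff_ssub_aux {S P : Finset V} (hP : P ⊆ S) (hne : 1 ≤ P.card) : S \ P ⊂ S := by
  obtain ⟨y, hy⟩ : P.Nonempty := card_pos.mp hne
  exact ⟨sdiff_subset, fun hc => (mem_sdiff.mp (hc (hP hy))).2 hy⟩

/-- Cliques of `S` not contained in `Cj`. -/
lemma out_card (G : SimpleGraph V) (r : ℕ) (S Cj : Finset V) (hCj : Cj ⊆ S) :
    ((KS G r S).filter (fun D => ¬ D ⊆ Cj)).card + (KS G r Cj).card ≤ (KS G r S).card := by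
  have h1 : (KS G r S).filter (fun D => D ⊆ Cj) = KS G r Cj := by
    ext D
    rw [mem_filter, mem_KS, mem_KS]
    constructor
    · rintro ⟨⟨⟨k1, k2⟩, k3⟩, k4⟩
      exact ⟨⟨k4, k2⟩, k3⟩
    · rintro ⟨⟨k1, k2⟩, k3⟩
      exact ⟨⟨⟨k1.trans hCj, k2⟩, k3⟩, k1⟩
  have h2 := card_filter_add_card_filter_not (s := KS G r S) (fun D => D ⊆ Cj)
  rw [h1] at h2
  omega

theorem y_star {K r L q h : ℕ} (P : Par K r L q h) (G : SimpleGraph V) (S Q Cj : Finset V)
    (hQS : Q ⊆ S) (hSK : K + 1 ≤ S.card)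
    (hmin : ∀ S' ⊂ S, (KS G r S').card ≤ F K r S'.card)
    (hbad : F K r S.card < (KS G r S).card)
    (hb1 : 1 ≤ S.card % K) (hb2 : (S.card % K - 1).choose (r - 1) < theta K r)
    (hup : Q.card ≤ K + h) (hout : ∀ x ∈ S \ Q, (nb G Q x).card + 30 * h + 1 ≤ Q.card)
    (kap : ℕ) (hk1 : 1 ≤ kap) (hk2 : kap ≤ 30 * q) (hk3 : K + 1 ≤ Q.card + kap)
    (hQW : (KS G r Q).card ≤ K.choose r)
    (hk4 : kap * (K - 1).choose (r - 1) ≤ 1200 * (K.choose r - (KS G r Q).card))
    (hCj : Cj ⊆ S) (hCjK : (KS G r S).card ≤ (KS G r Cj).card + (10 * kap + 1).choose r) :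
    2 * kap ≤ (Q.filter (fun y => 2 * kap ≤ (nb G (Cj \ Q) y).card)).card := by
  obtain ⟨hr, hrK, hq, hqh, hbig, hh3, -⟩ := par_facts P
  have hw := w_pos P
  by_contra hcon
  push Not at hcon
  set Y := Q.filter (fun y => 2 * kap ≤ (nb G (Cj \ Q) y).card) with hY
  set Z := Q \ Y with hZ
  have hYQ : Y ⊆ Q := filter_subset _ _
  have hZc : Z.card = Q.card - Y.card := card_sdiff_of_subset hYQ
  have hZQ : Z ⊆ Q := sdiff_subset
  have hZS : Z ⊆ S := hZQ.trans hQS
  have hZcS := card_le_card hZS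
  have hQc := card_le_card hQS
  -- the four classes
  set E1 := (KS G r S).filter (fun D => ¬ D ⊆ Cj) with hE1
  set E2 := Z.biUnion (fun y => (nb G (Cj \ Q) y).biUnion
    (fun x => (KS G r Cj).filter (fun D => y ∈ D ∧ x ∈ D))) with hE2
  have hcover : KS G r S ⊆ (KS G r Q ∪ KS G r (S \ Z)) ∪ (E1 ∪ E2) := by
    intro D hD
    have hD' := hD
    rw [mem_KS] at hD'
    obtain ⟨⟨k1, k2⟩, k3⟩ := hD'
    rw [mem_union, mem_union, mem_union]
    by_cases hDQ : D ⊆ Q
    · left; left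
      rw [mem_KS]
      exact ⟨⟨hDQ, k2⟩, k3⟩
    by_cases hDZ : Disjoint D Z
    · left; right
      rw [mem_KS]
      refine ⟨⟨?_, k2⟩, k3⟩
      intro x hx
      rw [mem_sdiff]
      exact ⟨k1 hx, disjoint_left.mp hDZ hx⟩
    right
    by_cases hDC : D ⊆ Cj
    · right
      rw [not_disjoint_iff] at hDZ
      obtain ⟨y, hyD, hyZ⟩ := hDZ
      rw [not_subset] at hDQ
      obtain ⟨x, hxD, hxQ⟩ := hDQ
      have hne : y ≠ x := by
        rintro rfl
        exact hxQ (hZQ hyZ)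
      rw [hE2, mem_biUnion]
      refine ⟨y, hyZ, ?_⟩
      rw [mem_biUnion]
      refine ⟨x, ?_, ?_⟩
      · rw [nb, mem_filter, mem_sdiff]
        exact ⟨⟨hDC hxD, hxQ⟩, k3 hyD hxD hne⟩
      · rw [mem_filter, mem_KS]
        exact ⟨⟨⟨hDC, k2⟩, k3⟩, hyD, hxD⟩
    · left
      exact mem_filter.mpr ⟨hD, hDC⟩
  have hcard := card_le_card hcover
  have hu1 := card_union_le (KS G r Q ∪ KS G r (S \ Z)) (E1 ∪ E2)
  have hu2 := card_union_le (KS G r Q) (KS G r (S \ Z))
  have hu3 := card_union_le E1 E2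
  have hE1c := out_card G r S Cj hCj
  rw [← hE1] at hE1c
  -- (1)
  have hSZ := hmin (S \ Z) (sdiff_ssub_aux hZS (by omega))
  rw [card_sdiff_of_subset hZS] at hSZ
  have hSZ2 : F K r (S.card - Z.card) ≤ F K r (S.card - K + 3 * kap) := F_mono P (by omega)
  have hgr := growth P (S.card % K) hb1 hb2 (3 * kap) (by omega)
  have hpow1 : 2 ^ 14 ≤ 2 ^ (L / 2) := Nat.pow_le_pow_right (by norm_num) (by have := P.hL; omega)
  norm_num at hpow1
  have hbK : S.card % K + 3 * kap < K := by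
    by_contra hc
    push Not at hc
    have g1 : (K - 1).choose (r - 1) ≤ (S.card % K + 3 * kap).choose (r - 1) :=
      Nat.choose_le_choose _ (by omega)
    have g2 : (K - 1).choose (r - 1) * 2 ≤
        (S.card % K + 3 * kap).choose (r - 1) * 2 ^ (L / 2) := Nat.mul_le_mul g1 (by omega)
    omega
  have hinc := F_incr P (n := S.card) (by omega) (3 * kap) hbK
  -- E1
  have hE1b : (10 * kap + 1).choose r * 2 ^ 20 ≤ 11 * (kap * (K - 1).choose (r - 1)) := by
    have g1 : (10 * kap + 1).choose r * r = (10 * kap + 1) * (10 * kap).choose (r - 1) := by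
      obtain ⟨r', rfl⟩ : ∃ r', r = r' + 1 := ⟨r - 1, by omega⟩
      rw [Nat.add_sub_cancel]
      exact (Nat.add_one_mul_choose_eq (10 * kap) r').symm
    have g2 : (10 * kap).choose (r - 1) ≤ (K - 1 - 20 * q).choose (r - 1) :=
      Nat.choose_le_choose _ (by omega)
    have g3 := half P (K - 1) (r - 1) 20 (by omega) (by omega)
    calc (10 * kap + 1).choose r * 2 ^ 20 ≤ ((10 * kap + 1).choose r * r) * 2 ^ 20 := by
          apply Nat.mul_le_mul_right
          exact Nat.le_mul_of_pos_right _ (by omega)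
      _ = (10 * kap + 1) * ((10 * kap).choose (r - 1) * 2 ^ 20) := by rw [g1]; ring
      _ ≤ (11 * kap) * (K - 1).choose (r - 1) := by
          apply Nat.mul_le_mul (by omega)
          exact (Nat.mul_le_mul_right _ g2).trans g3
      _ = _ := by ring
  -- E2
  have hE2b : E2.card ≤ (2 * K) * ((2 * kap) * (K - h - (27 * (L + 2)) * q).choose (r - 2)) := by
    refine card_biUnion_le.trans ?_
    refine (sum_le_card_nsmul Z _ ((2 * kap) * (K - h - (27 * (L + 2)) * q).choose (r - 2))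
      ?_).trans ?_
    · intro y hy
      rw [hZ, mem_sdiff, hY, mem_filter, not_and] at hy
      have g1 := hy.2 hy.1
      push Not at g1
      refine card_biUnion_le.trans ?_
      refine (sum_le_card_nsmul _ _ ((K - h - (27 * (L + 2)) * q).choose (r - 2)) ?_).trans ?_
      · intro x hx
        rw [nb, mem_filter, mem_sdiff] at hx
        obtain ⟨⟨hxC, hxQ⟩, hyx⟩ := hx
        refine (pair_le G r (by omega) Cj y x hyx.ne).trans (Nat.choose_le_choose _ ?_)
        have e : (27 * (L + 2)) * q = 27 * h := by rw [P.hh]; ring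
        rw [e]
        have g2 := hout x (mem_sdiff.mpr ⟨hCj hxC, hxQ⟩)
        have g3 : nb G (nb G Cj y) x ⊆ nb G Q x ∪ nb G (Cj \ Q) y := by
          intro z hz
          rw [nb, mem_filter, nb, mem_filter] at hz
          rw [mem_union, nb, nb, mem_filter, mem_filter, mem_sdiff]
          by_cases hzQ : z ∈ Q
          · left; exact ⟨hzQ, hz.2⟩
          · right; exact ⟨⟨hz.1.1, hzQ⟩, hz.1.2⟩
        have g4 := (card_le_card g3).trans (card_union_le _ _)
        omega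
      · rw [smul_eq_mul]
        exact Nat.mul_le_mul_right _ g1.le
    · rw [smul_eq_mul]
      apply Nat.mul_le_mul_right
      have := card_le_card hZQ
      omega
  have hhalf := half P (K - h) (r - 2) (27 * (L + 2)) (by omega) (by omega)
  have hmono2 : (K - h).choose (r - 2) ≤ (K - 2).choose (r - 2) :=
    Nat.choose_le_choose _ (by omega)
  have hw2 := w2_mul P
  have hr1 := P.hr1
  obtain ⟨dd, hdd⟩ : ∃ dd, dd = K.choose r - (KS G r Q).card := ⟨_, rfl⟩
  rw [← hdd] at hk4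
  generalize (K - h - (27 * (L + 2)) * q).choose (r - 2) = B at hE2b hhalf
  generalize (K - h).choose (r - 2) = w3 at hhalf hmono2
  generalize (K - 2).choose (r - 2) = w2 at hmono2 hw2
  generalize (S.card % K + 3 * kap).choose (r - 1) = bet at hgr hinc
  generalize (10 * kap + 1).choose r = c at hE1b hCjK
  generalize (K - 1).choose (r - 1) = w at *
  have hddpos : 1 ≤ dd := by
    by_contra hc
    have h0 : dd = 0 := by omega
    rw [h0] at hk4
    have : 0 < kap * w := Nat.mul_pos (by omega) hw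
    omega
  have m1 : 4 * (3 * kap * bet) ≤ dd := by
    have g1 : (3 * kap * bet) * 16384 ≤ 3600 * dd := by
      calc (3 * kap * bet) * 16384 ≤ (3 * kap * bet) * 2 ^ (L / 2) := Nat.mul_le_mul_left _ hpow1
        _ = 3 * kap * (bet * 2 ^ (L / 2)) := by ring
        _ ≤ 3 * kap * w := Nat.mul_le_mul_left _ hgr
        _ = 3 * (kap * w) := by ring
        _ ≤ 3 * (1200 * dd) := Nat.mul_le_mul_left _ hk4
        _ = 3600 * dd := by ring
    omega
  have m2 : 4 * c ≤ dd := by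
    norm_num at hE1b
    omega
  have m3 : 4 * E2.card ≤ dd := by
    have g1 : K * w2 ≤ 2 * (2 ^ L * w) := by
      calc K * w2 ≤ (2 * (K - 1)) * w2 := Nat.mul_le_mul_right _ (by omega)
        _ = 2 * ((K - 1) * w2) := by ring
        _ = 2 * ((r - 1) * w) := by rw [hw2]
        _ ≤ 2 * (2 ^ L * w) := Nat.mul_le_mul_left _ (Nat.mul_le_mul_right _ (by omega))
    have g2 : E2.card * 2 ^ (27 * (L + 2)) ≤ dd * 2 ^ (L + 14) := by
      calc E2.card * 2 ^ (27 * (L + 2))
          ≤ ((2 * K) * ((2 * kap) * B)) * 2 ^ (27 * (L + 2)) := Nat.mul_le_mul_right _ hE2b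
        _ = (4 * kap) * (K * (B * 2 ^ (27 * (L + 2)))) := by ring
        _ ≤ (4 * kap) * (K * w2) :=
            Nat.mul_le_mul_left _ (Nat.mul_le_mul_left _ (hhalf.trans hmono2))
        _ ≤ (4 * kap) * (2 * (2 ^ L * w)) := Nat.mul_le_mul_left _ g1
        _ = (8 * 2 ^ L) * (kap * w) := by ring
        _ ≤ (8 * 2 ^ L) * (1200 * dd) := Nat.mul_le_mul_left _ hk4
        _ = (9600 * dd) * 2 ^ L := by ring
        _ ≤ (16384 * dd) * 2 ^ L := Nat.mul_le_mul_right _ (Nat.mul_le_mul_right _ (by norm_num))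
        _ = dd * 2 ^ (L + 14) := by ring
    have g3 : 2 ^ (L + 14) * 4 ≤ 2 ^ (27 * (L + 2)) := by
      calc 2 ^ (L + 14) * 4 = 2 ^ (L + 16) := by ring
        _ ≤ 2 ^ (27 * (L + 2)) := Nat.pow_le_pow_right (by norm_num) (by omega)
    have g4 : (4 * E2.card) * 2 ^ (L + 14) ≤ dd * 2 ^ (L + 14) := by
      calc (4 * E2.card) * 2 ^ (L + 14) = E2.card * (2 ^ (L + 14) * 4) := by ring
        _ ≤ E2.card * 2 ^ (27 * (L + 2)) := Nat.mul_le_mul_left _ g3
        _ ≤ _ := g2
    exact Nat.le_of_mul_le_mul_right g4 (Nat.pow_pos (by norm_num))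
  omega

end Pool.Agent.H27.TC
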