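import Pool.Agent.H27.TC.NBas
import Pool.Agent.H27.TC.TBas
import Pool.Agent.H27.TC.TOrd

set_option autoImplicit false

/-
Auxiliary lemmas for the final embeddings (helper27).
-/

namespace Pool.Agent.H27.TC

open Finset Classical
open Pool.Agent.H28.TreeClique

variable {V α : Type*}

/-- Few vertices of `Q` miss more than `kap` elements of `Y`. -/
lemma atyp_card (G : SimpleGraph V) (Q Y : Finset V) (m kap : ℕ) (hQ : Near G Q m) (hY : Y ⊆ Q)
    (hYc : Y.card = 2 * kap) :
    (Q.filter (fun v => kap < (Y.filter (fun y => ¬ G.Adj v y)).card)).card ≤ 2 * m := by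
  set A := Q.filter (fun v => kap < (Y.filter (fun y => ¬ G.Adj v y)).card) with hA
  have h1 : A.card * (kap + 1) ≤ ∑ v ∈ A, (Y.filter (fun y => ¬ G.Adj v y)).card := by
    rw [← smul_eq_mul]
    apply card_nsmul_le_sum
    intro v hv
    exact (mem_filter.mp hv).2
  have h2 : ∑ v ∈ A, (Y.filter (fun y => ¬ G.Adj v y)).card ≤
      ∑ v ∈ Q, (Y.filter (fun y => ¬ G.Adj v y)).card :=
    sum_le_sum_of_subset (filter_subset _ _)
  have h3 : ∑ v ∈ Q, (Y.filter (fun y => ¬ G.Adj v y)).card =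
      ∑ y ∈ Y, (Q.filter (fun v => ¬ G.Adj v y)).card := by
    simp only [card_filter]
    exact sum_comm
  have h4 : ∑ y ∈ Y, (Q.filter (fun v => ¬ G.Adj v y)).card ≤ Y.card * m := by
    rw [← smul_eq_mul]
    apply sum_le_card_nsmul
    intro y hy
    refine le_trans (card_le_card ?_) (hQ y (hY hy))
    intro x hx
    rw [mem_filter] at hx ⊢
    exact ⟨hx.1, fun h => hx.2 h.symm⟩
  have h5 : A.card * (kap + 1) ≤ (2 * m) * (kap + 1) := by
    calc A.card * (kap + 1) ≤ Y.card * m := by rw [h3] at h2; exact h1.trans (h2.trans h4)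
      _ = (2 * m) * kap := by rw [hYc]; ring
      _ ≤ (2 * m) * (kap + 1) := Nat.mul_le_mul_left _ (by omega)
  exact Nat.le_of_mul_le_mul_right h5 (by omega)

/-- Neighbours in a subset of a near-clique. -/
lemma near_sub (G : SimpleGraph V) (Q R : Finset V) (m : ℕ) (hQ : Near G Q m) (hR : R ⊆ Q)
    (y : V) (hy : y ∈ Q) : R.card ≤ (R.filter (fun x => G.Adj y x)).card + m := by
  have h1 := card_filter_add_card_filter_not (s := R) (fun x => G.Adj y x)
  have h2 : (R.filter (fun x => ¬ G.Adj y x)).card ≤ m :=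
    (card_le_card (filter_subset_filter _ hR)).trans (hQ y hy)
  omega

/-- Number of earlier vertices of the class. -/
lemma earlier_card (P : Finset α) (rk cl : α → ℕ) (t : α) (X : Finset α) (ht : t ∈ X)
    (h : ∀ t' ∈ P, cl t' = cl t → t' ∈ X) :
    (P.filter (fun t' => rk t' < rk t ∧ cl t' = cl t)).card + 1 ≤ X.card := by
  have h1 : P.filter (fun t' => rk t' < rk t ∧ cl t' = cl t) ⊆ X.erase t := by
    intro t' ht'
    rw [mem_filter] at ht'
    rw [mem_erase]
    refine ⟨?_, h t' ht'.1 ht'.2.2⟩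
    rintro rfl
    exact lt_irrefl _ ht'.2.1
  have h2 := card_le_card h1
  rw [card_erase_of_mem ht] at h2
  have : 0 < X.card := card_pos.mpr ⟨t, ht⟩
  omega

variable [Fintype α]

/-- A parent different from the root is not a leaf. -/
lemma par_not_leaf (T : SimpleGraph α) (hT : T.IsTree) (h3 : 3 ≤ Fintype.card α) (c : α)
    (par : α → α)
    (hpar : ∀ x, x ≠ c → T.Adj x (par x) ∧ T.dist c (par x) + 1 = T.dist c x) (t : α)
    (ht : t ≠ c) (hp : par t ≠ c) : dg T (par t) ≠ 1 := by
  intro hd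
  obtain ⟨pi, hpi⟩ := leaf_nbr T hT h3
  obtain ⟨-, g2, -⟩ := hpi (par t) hd
  have e1 := g2 t (hpar t ht).1.symm
  have e2 := g2 (par (par t)) (hpar _ hp).1
  have e3 := (hpar t ht).2
  have e4 := (hpar _ hp).2
  rw [e2, ← e1] at e4
  omega

end Pool.Agent.H27.TC
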