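import Pool.Agent.H27.TC.NBad
import Pool.Agent.H27.TC.TOrd
import Pool.Agent.H27.TC.ERGP
import Pool.Agent.H27.TC.EFinB
import Pool.Agent.H27.TC.XAux

set_option autoImplicit false

/-
Common final step of the type II embeddings: root z1 at v in Q, the set Lf of leaves is placed
outside Q, everything else in Q (potential with weight 1, Cv = ∅).
-/

namespace Pool.Agent.H27.TC

open Finset Classical
open Pool.Agent.H28.TreeClique

variable {V α : Type*} [Fintype α]

/-- A non-leaf with the largest number of leaves. -/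
theorem exists_z1 (T : SimpleGraph α) (hT : T.IsTree) (h3c : 3 ≤ Fintype.card α)
    (hLF : (LF T).Nonempty) :
    ∃ z1 ∈ NL T, 1 ≤ (lfs T z1).card ∧ ∀ c, (lfs T c).card ≤ (lfs T z1).card := by
  obtain ⟨pi, hpi⟩ := leaf_nbr T hT h3c
  obtain ⟨z1, -, hz1⟩ := exists_max_image (univ : Finset α) (fun c => (lfs T c).card)
    (by
      obtain ⟨x⟩ : Nonempty α := Fintype.card_pos_iff.mp (by omega)
      exact ⟨x, mem_univ _⟩)
  have hmax : ∀ c, (lfs T c).card ≤ (lfs T z1).card := fun c => hz1 c (mem_univ _)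
  have hl1 : 1 ≤ (lfs T z1).card := by
    obtain ⟨x, hx⟩ := hLF
    rw [LF, mem_filter] at hx
    refine le_trans ?_ (hmax (pi x))
    apply card_pos.mpr
    refine ⟨x, ?_⟩
    rw [lfs, mem_filter]
    exact ⟨mem_univ _, (hpi x hx.2).1.symm, hx.2⟩
  refine ⟨z1, ?_, hl1, hmax⟩
  obtain ⟨x, hx⟩ : (lfs T z1).Nonempty := card_pos.mp (by omega)
  rw [lfs, mem_filter] at hx
  rw [NL, mem_filter]
  refine ⟨mem_univ _, ?_⟩
  rw [(hpi x hx.2.2).2.1 z1 hx.2.1.symm]
  exact (hpi x hx.2.2).2.2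

theorem zgen {K r L q h : ℕ} (P : Par K r L q h) (T : SimpleGraph α) (hT : T.IsTree)
    (hcard : Fintype.card α = K + 1) (G : SimpleGraph V) (Q : Finset V)
    (hQ : Near G Q (35 * h)) (hup : Q.card ≤ 4 * K) (l1 : ℕ) (hl1 : 1 ≤ l1)
    (hl1h : l1 ≤ 1541 * h) (hlfs : ∀ c, (lfs T c).card ≤ l1) (z1 : α) (hz1 : z1 ∈ NL T)
    (Lf : Finset α) (hLf : Lf ⊆ LF T) (v : V) (par : α → α) (rk : α → ℕ)
    (hrk : Function.Injective rk)
    (hpar1 : ∀ x, x ≠ z1 → T.Adj x (par x) ∧ T.dist z1 (par x) + 1 = T.dist z1 x)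
    (hpar2 : ∀ x y, T.Adj x y → (y = par x ∧ x ≠ z1 ∧ T.dist z1 y + 1 = T.dist z1 x) ∨
        (x = par y ∧ y ≠ z1 ∧ T.dist z1 x + 1 = T.dist z1 y))
    (hrk2 : ∀ x y, T.dist z1 x < T.dist z1 y → rk x < rk y)
    (Reg : α → Finset V) (cl : α → ℕ)
    (hdisj : ∀ t ∈ NL T ∪ Lf, ∀ t' ∈ NL T ∪ Lf, cl t ≠ cl t' → Disjoint (Reg t) (Reg t'))
    (PC : Finset α) (hPC : PC ⊆ NL T) (hPCz : z1 ∉ PC) (R0 : Reg z1 = {v})
    (hRN : ∀ t ∈ NL T, Reg t ⊆ Q) (hRL : ∀ t ∈ Lf, Disjoint (Reg t) Q)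
    (hz : ∀ t', cl t' = cl z1 → t' = z1)
    (h1 : ∀ t ∈ NL T ∪ Lf, t ≠ z1 → ∀ y ∈ Reg (par t),
      ((NL T ∪ Lf).filter (fun t' => rk t' < rk t ∧ cl t' = cl t)).card +
        (if t ∈ PC then 32 * (35 * h) else 1) ≤ ((Reg t).filter (fun x => G.Adj y x)).card)
    (hPCl : ∀ t ∈ PC, Disjoint (lfs T t) Lf)
    (hsum : K / 2 + 140 * h ≤ ∑ t ∈ PC, (lfs T t).card)
    (hq1 : K + 1 + l1 / 4 ≤ Q.card + (Lf ∪ lfs T z1).card)
    (hq2 : K ≤ (nb G Q v).card + Lf.card) : Emb T G := by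
  obtain ⟨-, -, -, -, hbig, hh3, -⟩ := par_facts P
  have h3c : 3 ≤ Fintype.card α := by omega
  obtain ⟨pi, hpi⟩ := leaf_nbr T hT h3c
  have : Nonempty V := ⟨v⟩
  have hNLF := card_NL_LF T
  rw [hcard] at hNLF
  have hz1d : dg T z1 ≠ 1 := by
    rw [NL, mem_filter] at hz1
    exact hz1.2
  set P0 := NL T ∪ Lf with hP0
  set L0 := lfs T z1 \ Lf with hL0
  set Sl := (LF T \ Lf) \ lfs T z1 with hSl
  have hNP : ∀ t ∈ NL T, t ∈ P0 := fun t ht => mem_union_left _ ht
  have hz1P : z1 ∈ P0 := hNP z1 hz1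
  have hLfd : ∀ t ∈ Lf, dg T t = 1 := by
    intro t ht
    have := hLf ht
    rw [LF, mem_filter] at this
    exact this.2
  have hparP : ∀ t ∈ P0, t ≠ z1 → par t ∈ P0 := by
    intro t ht htz
    rw [hP0, mem_union] at ht
    rcases ht with ht | ht
    · exact hNP _ (par_NL T hz1 par hpar1 ht htz)
    · apply hNP
      rw [NL, mem_filter]
      refine ⟨mem_univ _, ?_⟩
      have g1 := hpi t (hLfd t ht)
      rw [g1.2.1 _ (hpar1 t htz).1]
      exact g1.2.2
  obtain ⟨φ, i1, i2, i3, i4⟩ := rgp G P0 rk hrk.injOn par (P0.erase z1)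
    (by
      intro t ht
      rw [mem_erase] at ht
      refine ⟨ht.2, hparP t ht.2 ht.1, hrk2 _ _ ?_⟩
      have := (hpar1 t ht.1).2
      omega)
    Reg cl hdisj PC (fun t ht => hNP t (hPC ht)) Q (35 * h) (by omega) hQ
    (fun t ht => hRN t (hPC ht))
    (by
      intro t ht y' hy'
      rw [mem_erase] at ht
      exact h1 t ht.2 ht.1 y' hy')
    (by
      intro t ht htC
      have h1 : t = z1 := by
        by_contra h
        exact htC (mem_erase.mpr ⟨h, ht⟩)
      have htPC : t ∉ PC := fun h => hPCz (h1 ▸ h)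
      rw [if_neg htPC, h1, R0, card_singleton]
      have h2 := card_earlier P0 {z1} rk cl z1 (mem_singleton_self _) (by
        intro t' _ _ h4
        rw [mem_singleton]
        exact hz t' h4)
      rw [card_singleton] at h2
      exact h2)
    (fun t => (lfs T t).card) l1 hl1 (fun t _ => hlfs t) (fun _ => 1) (70 * h)
  simp only [sum_const, smul_eq_mul, mul_one] at i4
  set Bg := Q.filter (fun ρ => ∑ t ∈ PC.filter (fun t => G.Adj (φ t) ρ),
    (lfs T t).card ≤ 70 * h) with hBg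
  have hBgc : 4 * Bg.card ≤ l1 := by
    refine bad1 P l1 ((∑ t ∈ PC, (lfs T t).card - 2 * (70 * h)) / l1) Bg.card hl1 hl1h ?_
      (by omega)
    rw [← Nat.div_div_eq_div_mul]
    apply Nat.div_le_div_right
    omega
  -- sizes
  have hLfl : lfs T z1 ⊆ LF T := by
    intro x hx
    rw [lfs, mem_filter] at hx
    rw [LF, mem_filter]
    exact ⟨mem_univ _, hx.2.2⟩
  have hP0c : P0.card = (NL T).card + Lf.card := by
    rw [hP0, card_union_of_disjoint]
    rw [disjoint_left]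
    intro t ht ht'
    rw [NL, mem_filter] at ht
    exact ht.2 (hLfd t ht')
  have hLu : (Lf ∪ lfs T z1).card = Lf.card + L0.card := by
    rw [hL0, ← union_sdiff_self_eq_union, card_union_of_disjoint disjoint_sdiff]
  have hSlc : Sl.card + Lf.card + L0.card = (LF T).card := by
    have e1 : Sl = LF T \ (Lf ∪ lfs T z1) := by
      rw [hSl]
      ext t
      rw [mem_sdiff, mem_sdiff, mem_sdiff, mem_union]
      tauto
    have e2 := card_sdiff_add_card_eq_card (union_subset hLf hLfl)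
    rw [← e1] at e2
    omega
  have hφz1 : φ z1 = v := by
    have := i2 z1 hz1P
    rw [R0, mem_singleton] at this
    exact this
  have hSlm : ∀ l ∈ Sl, dg T l = 1 ∧ l ∉ Lf ∧ ¬ T.Adj z1 l := by
    intro l hl
    rw [hSl, mem_sdiff, mem_sdiff, LF, mem_filter] at hl
    refine ⟨hl.1.1.2, hl.1.2, fun h => hl.2 ?_⟩
    rw [lfs, mem_filter]
    exact ⟨mem_univ _, h, hl.1.1.2⟩
  have hSlpi : ∀ l ∈ Sl, pi l ∈ NL T := by
    intro l hl
    obtain ⟨l1', l2, l3⟩ := hSlm l hl
    rw [NL, mem_filter]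
    exact ⟨mem_univ _, (hpi l l1').2.2⟩
  refine finishB T G P0 Sl L0 ?_ ?_ ?_ ?_ z1 hz1P φ Q (35 * h) hQ pi ?_ ?_ i1 ?_ _ rfl
    ?_ ∅ (empty_subset _) (by simp) (nb G Q v) ?_ (Or.inr ?_)
  · intro t
    by_cases g1 : dg T t = 1
    · by_cases g2 : t ∈ Lf
      · left; exact mem_union_right _ g2
      · by_cases g4 : t ∈ lfs T z1
        · right; right
          rw [hL0, mem_sdiff]
          exact ⟨g4, g2⟩
        · right; left
          rw [hSl, mem_sdiff, mem_sdiff, LF, mem_filter]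
          exact ⟨⟨⟨mem_univ _, g1⟩, g2⟩, g4⟩
    · left
      apply hNP
      rw [NL, mem_filter]
      exact ⟨mem_univ _, g1⟩
  · rw [disjoint_left]
    intro t ht ht'
    obtain ⟨l1', l2, l3⟩ := hSlm t ht'
    rw [hP0, mem_union] at ht
    rcases ht with g1 | g1
    · rw [NL, mem_filter] at g1
      exact g1.2 l1'
    · exact l2 g1
  · rw [disjoint_left]
    intro t ht ht'
    rw [hP0, mem_union] at ht
    rw [hL0, mem_sdiff, lfs, mem_filter] at ht'
    rcases ht with g1 | g1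
    · rw [NL, mem_filter] at g1
      exact g1.2 ht'.1.2.2
    · exact ht'.2 g1
  · rw [disjoint_left]
    intro t ht ht'
    rw [hL0, mem_sdiff, lfs, mem_filter] at ht'
    exact (hSlm t ht).2.2 ht'.1.2.1
  · intro l hl
    obtain ⟨p1, p2, p3⟩ := hpi l (hSlm l hl).1
    have g1 := hSlpi l hl
    exact ⟨p1, p2, hNP _ g1, hRN _ g1 (i2 _ (hNP _ g1))⟩
  · intro l hl b hb
    rw [hL0, mem_sdiff, lfs, mem_filter] at hl
    rw [(hpi l hl.1.2.2).2.1 b hb, (hpi l hl.1.2.2).2.1 z1 hl.1.2.1.symm]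
  · intro x hx y hy hxy
    rcases hpar2 x y hxy with ⟨g1, g2, -⟩ | ⟨g1, g2, -⟩
    · have := i3 x (mem_erase.mpr ⟨g2, hx⟩)
      rw [← g1] at this
      exact this.symm
    · have := i3 y (mem_erase.mpr ⟨g2, hy⟩)
      rw [← g1] at this
      exact this
  · have g1 : ((Q \ P0.image φ).filter
        (fun ρ => (Sl.filter (fun l => G.Adj (φ (pi l)) ρ)).card ≤ 2 * (35 * h))) ⊆ Bg := by
      intro ρ hρ
      rw [mem_filter, mem_sdiff] at hρ
      rw [hBg, mem_filter]
      refine ⟨hρ.1.1, ?_⟩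
      refine le_trans (sum_lfs_le T hT h3c _
        (Sl.filter (fun l => G.Adj (φ (pi l)) ρ)) ?_) (by omega)
      intro t ht x hx
      rw [mem_filter] at ht
      have hxt := hx
      rw [lfs, mem_filter] at hx
      have hpx : t = pi x := (hpi x hx.2.2).2.1 t hx.2.1.symm
      rw [mem_filter, hSl, mem_sdiff, mem_sdiff, LF, mem_filter]
      refine ⟨⟨⟨⟨mem_univ _, hx.2.2⟩, fun h => ?_⟩, fun h => ?_⟩, ?_⟩
      · exact disjoint_left.mp (hPCl t ht.1) hxt h
      · rw [lfs, mem_filter] at h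
        apply hPCz
        rw [(hpi x hx.2.2).2.1 z1 h.2.1.symm, ← hpx]
        exact ht.1
      · rw [← hpx]
        exact ht.2
    have g2 := card_le_card g1
    have g4 : Q.card ≤ (Q \ P0.image φ).card + (NL T).card := by
      have g5 : Q ⊆ (Q \ P0.image φ) ∪ (NL T).image φ := by
        intro x hx
        rw [mem_union, mem_sdiff]
        by_cases hxi : x ∈ P0.image φ
        · right
          rw [mem_image] at hxi ⊢
          obtain ⟨t, ht, rfl⟩ := hxi
          refine ⟨t, ?_, rfl⟩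
          have htL : t ∉ Lf := by
            intro h
            exact disjoint_left.mp (hRL t h) (i2 t ht) hx
          rw [hP0, mem_union] at ht
          exact ht.resolve_right htL
        · left; exact ⟨hx, hxi⟩
      exact (card_le_card g5).trans ((card_union_le _ _).trans
        (Nat.add_le_add_left card_image_le _))
    omega
  · intro x hx
    rw [hφz1]
    unfold nb at hx
    exact (mem_filter.mp hx).2
  · have g1 : P0.image φ ∩ nb G Q v ⊆ ((NL T).erase z1).image φ := by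
      intro x hx
      rw [mem_inter, mem_image, nb, mem_filter] at hx
      obtain ⟨⟨t, ht, rfl⟩, g2, g3⟩ := hx
      rw [mem_image]
      refine ⟨t, ?_, rfl⟩
      rw [mem_erase]
      refine ⟨fun h => ?_, ?_⟩
      · rw [h, hφz1] at g3
        exact g3.ne rfl
      · have htL : t ∉ Lf := by
          intro h
          exact disjoint_left.mp (hRL t h) (i2 t ht) g2
        rw [hP0, mem_union] at ht
        exact ht.resolve_right htL
    have g2 := (card_le_card g1).trans card_image_le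
    have g3 := card_erase_add_one hz1
    have g4 : ((∅ : Finset V) \ nb G Q v).card = 0 := by simp
    omega

end Pool.Agent.H27.TC
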