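import Pool.Agent.H27.TC.ZAux
import Pool.Agent.H27.TC.TOrd
import Pool.Agent.H27.TC.TLeaf
import Pool.Agent.H27.TC.ERG
import Pool.Agent.H27.TC.EFinA

set_option autoImplicit false

/-
[H27 TC ZE1]  Type I trees with at least 2p leaves: p leaves are placed outside Q, their neighbours in
the special set Y.

leaf_sel with Ex = ∅, lm = K + 1 (|lfs T c| <= |T|): Lf (p leaves), I (independent, |I| <= p, I ⊆ NL), the
neighbours of Lf are in I. A spread, |A| >= 140 h; A' := A \ Lf \ I, |A'| >= 140 h - 2 kap >= 105 h + 2 kap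
(4 kap <= 120 q <= 35 h as 10000 q <= h).
Atyp = {v in Q : kap < |{y in Y : not Adj v y}|}: sum over v in Q of |{y in Y : not Adj v y}| = sum over
y in Y of |{v in Q : not Adj y v}| <= 2 kap * 35 h, so (kap + 1) |Atyp| <= 70 kap h and |Atyp| <= 70 h. For
v in Q \ Atyp: |nb Y v| >= kap.
Root c: a vertex not in I and not in Lf (exists: |I| + |Lf| <= 2 kap < K + 1). par, rk (exists_order).
P0 = univ \ A', Con = {t in P0 : t <> c, par t in P0}. Regions: Lf: O (class 0); I: Y (class 1); others
(normal): Q \ Y \ Atyp (class 2). Disjoint (Y ⊆ Q, Q and O disjoint).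
 t in Lf: t <> c is a leaf, par t is its only neighbour, in I ⊆ P0: so t in Con; y' in Y:
   earlier + 1 <= |Lf| = p <= kap <= 2 kap <= |nb O y'|.
 t in I, t in Con: par t not in I (independent) and not in Lf (a leaf is the parent of nobody except if it
   is the root; par t in Lf would be a leaf with neighbour t and its own parent, two neighbours, unless it
   is the root c, excluded): so par t normal, y' in Q \ Atyp: earlier + 1 <= |I| <= p <= kap <= |nb Y y'|.
   t in I not in Con: |Y| = 2 kap >= |I|.
 t normal in Con: par t in I or normal (not in Lf as before), y' in Q: |nb (Q \ Y \ Atyp) y'| >=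
   |Q| - 2 kap - 70 h - 35 h; earlier + 1 <= number of normal vertices of P0 <= K + 1 - p - |A'| <=
   |Q| - |A'| (hcnt) <= |Q| - 105 h - 2 kap. Not in Con: same with |Q \ Y \ Atyp|.
finishA (m = 35 h): a in A', b adjacent to a: b not in A'; b not in Lf (the only neighbour of b in Lf is in I,
 a not in I); so phi b in Y or in Q \ Y \ Atyp, in Q. hcount: vertices with phi t in Q are not in Lf:
 |A'| + (K + 1 - |A'| - p) <= |Q|.
-/

namespace Pool.Agent.H27.TC

open Finset Classical
open Pool.Agent.H28.TreeClique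

variable {V α : Type*} [Fintype α]

theorem e1 {K r L q h : ℕ} (P : Par K r L q h) (T : SimpleGraph α) (hT : T.IsTree)
    (hcard : Fintype.card α = K + 1) (hI : TypeI T (140 * h)) (G : SimpleGraph V)
    (Q O : Finset V) (hQ : Near G Q (35 * h)) (hQO : Disjoint Q O) (p kap : ℕ) (hp : 1 ≤ p)
    (hpk : p ≤ kap) (hk : kap ≤ 30 * q) (hcnt : K + 1 ≤ Q.card + p)
    (hleaf : 2 * p ≤ (LF T).card) (Y : Finset V) (hY : Y ⊆ Q) (hYc : Y.card = 2 * kap)
    (hYo : ∀ y ∈ Y, 2 * kap ≤ (nb G O y).card) : Emb T G := by
  obtain ⟨hr, hrK, hq, hqh, hbig, hh3, -⟩ := par_facts P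
  have h3 : 3 ≤ Fintype.card α := by omega
  obtain ⟨A, ⟨hA1, hA2, hA3⟩, hAc⟩ := hI
  obtain ⟨Lf, I, hLf, hLfc, hIN, -, hIc, hLI, hII, -⟩ := leaf_sel T hT h3 p (K + 1) ∅ (by
    intro c
    rw [← hcard]
    exact card_le_univ _) (by rw [sum_empty]; omega)
  have hLfI : ∀ t ∈ Lf, t ∉ I := by
    intro t ht htI
    have h1 := (mem_filter.mp (hLf ht)).2
    have h2 := (mem_filter.mp (hIN htI)).2
    exact h2 h1
  set Atyp := Q.filter (fun v => kap < (Y.filter (fun y => ¬ G.Adj v y)).card) with hAt
  have hAtc : Atyp.card ≤ 70 * h := by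
    have g0 := atyp_card G Q Y (35 * h) kap hQ hY hYc
    rw [← hAt] at g0
    omega
  -- the root
  obtain ⟨c, hc⟩ : ∃ c, c ∉ I ∪ Lf := by
    by_contra hcon
    push Not at hcon
    have h1 : (univ : Finset α) ⊆ I ∪ Lf := fun x _ => hcon x
    have h2 := (card_le_card h1).trans (card_union_le _ _)
    rw [card_univ] at h2
    omega
  rw [mem_union, not_or] at hc
  obtain ⟨hcI, hcL⟩ := hc
  obtain ⟨par, rk, hrk, hpar, hedge, hlt⟩ := exists_order T hT c
  set A' := (A \ Lf) \ I with hA'
  have hA'c : 140 * h ≤ A'.card + 2 * p := by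
    have g1 := le_card_sdiff Lf A
    have g2 := le_card_sdiff I (A \ Lf)
    rw [← hA'] at g2
    omega
  have hA'A : A' ⊆ A := sdiff_subset.trans sdiff_subset
  have hA'L : ∀ t ∈ A', t ∉ Lf := fun t ht => (mem_sdiff.mp (mem_sdiff.mp ht).1).2
  have hA'I : ∀ t ∈ A', t ∉ I := fun t ht => (mem_sdiff.mp ht).2
  set P0 : Finset α := univ.filter (fun t => t ∉ A') with hP0
  have memP0 : ∀ t, t ∈ P0 ↔ t ∉ A' := by
    intro t
    rw [hP0, mem_filter]
    simp
  set Con : Finset α := P0.filter (fun t => t ≠ c ∧ par t ∈ P0) with hCon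
  set N0 := (Q \ Y) \ Atyp with hN0
  have hN0Q : N0 ⊆ Q := sdiff_subset.trans sdiff_subset
  set Reg : α → Finset V := fun t => if t ∈ Lf then O else if t ∈ I then Y else N0 with hReg
  set cl : α → ℕ := fun t => if t ∈ Lf then 0 else if t ∈ I then 1 else 2 with hcl
  have regL : ∀ t ∈ Lf, Reg t = O ∧ cl t = 0 := by
    intro t ht
    simp only [hReg, hcl, if_pos ht, and_self]
  have regI : ∀ t ∈ I, Reg t = Y ∧ cl t = 1 := by
    intro t ht
    have : t ∉ Lf := fun h => hLfI t h ht
    simp only [hReg, hcl, if_neg this, if_pos ht, and_self]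
  have regN : ∀ t, t ∉ Lf → t ∉ I → Reg t = N0 ∧ cl t = 2 := by
    intro t ht ht'
    simp only [hReg, hcl, if_neg ht, if_neg ht', and_self]
  have regQ : ∀ t, t ∉ Lf → Reg t ⊆ Q := by
    intro t ht
    by_cases htI : t ∈ I
    · rw [(regI t htI).1]; exact hY
    · rw [(regN t ht htI).1]; exact hN0Q
  have parL : ∀ t, t ≠ c → par t ∉ Lf := by
    intro t ht hpl
    have hpc : par t ≠ c := by
      intro h
      rw [h] at hpl
      exact hcL hpl
    exact par_not_leaf T hT h3 c par hpar t ht hpc (mem_filter.mp (hLf hpl)).2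
  have hne : Y.Nonempty := card_pos.mp (by omega)
  obtain ⟨y0, hy0⟩ := hne
  haveI : Nonempty V := ⟨y0⟩
  -- number of normal vertices
  have hnorm : ((P0 \ Lf) \ I).card + A'.card + p ≤ K + 1 := by
    have d1 : Disjoint ((P0 \ Lf) \ I) A' := by
      rw [disjoint_left]
      intro x hx hx'
      exact (memP0 x).mp (mem_sdiff.mp (mem_sdiff.mp hx).1).1 hx'
    have d2 : Disjoint (((P0 \ Lf) \ I) ∪ A') Lf := by
      rw [disjoint_left]
      intro x hx hx'
      rw [mem_union] at hx
      rcases hx with hx | hx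
      · exact (mem_sdiff.mp (mem_sdiff.mp hx).1).2 hx'
      · exact hA'L x hx hx'
    have g1 : ((((P0 \ Lf) \ I) ∪ A') ∪ Lf).card ≤ Fintype.card α := card_le_univ _
    rw [card_union_of_disjoint d2, card_union_of_disjoint d1, hLfc, hcard] at g1
    exact g1
  have hN0c : Q.card ≤ N0.card + 2 * kap + 70 * h := by
    have g1 := le_card_sdiff Y Q
    have g2 := le_card_sdiff Atyp (Q \ Y)
    rw [← hN0] at g2
    omega
  have hearN : ∀ t ∈ P0, t ∉ Lf → t ∉ I →
      (P0.filter (fun t' => rk t' < rk t ∧ cl t' = cl t)).card + 1 ≤ ((P0 \ Lf) \ I).card := by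
    intro t ht htL htI
    apply earlier_card P0 rk cl t
    · exact mem_sdiff.mpr ⟨mem_sdiff.mpr ⟨ht, htL⟩, htI⟩
    · intro t' ht' hcc
      rw [(regN t htL htI).2] at hcc
      refine mem_sdiff.mpr ⟨mem_sdiff.mpr ⟨ht', ?_⟩, ?_⟩
      · intro hx
        rw [(regL t' hx).2] at hcc
        omega
      · intro hx
        rw [(regI t' hx).2] at hcc
        omega
  have hearI : ∀ t ∈ P0, t ∈ I →
      (P0.filter (fun t' => rk t' < rk t ∧ cl t' = cl t)).card + 1 ≤ p := by
    intro t ht htI
    refine (earlier_card P0 rk cl t I htI ?_).trans hIc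
    intro t' ht' hcc
    rw [(regI t htI).2] at hcc
    by_contra hx
    by_cases hx' : t' ∈ Lf
    · rw [(regL t' hx').2] at hcc
      omega
    · rw [(regN t' hx' hx).2] at hcc
      omega
  obtain ⟨φ, f1, f2, f3⟩ := rg G P0 rk hrk.injOn par Con (by
      intro t ht
      rw [hCon, mem_filter] at ht
      refine ⟨ht.1, ht.2.2, hlt _ _ ?_⟩
      have := (hpar t ht.2.1).2
      omega) Reg cl (by
      intro t ht t' ht' hcc
      by_cases h1 : t ∈ Lf <;> by_cases h2 : t' ∈ Lf
      · rw [(regL t h1).2, (regL t' h2).2] at hcc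
        exact absurd rfl hcc
      · rw [(regL t h1).1]
        exact (disjoint_of_subset_left (regQ t' h2) hQO).symm
      · rw [(regL t' h2).1]
        exact disjoint_of_subset_left (regQ t h1) hQO
      · have hYN : Disjoint Y N0 := by
          rw [disjoint_left]
          intro x hx hx'
          exact (mem_sdiff.mp (mem_sdiff.mp hx').1).2 hx
        by_cases h4 : t ∈ I <;> by_cases h5 : t' ∈ I
        · rw [(regI t h4).2, (regI t' h5).2] at hcc
          exact absurd rfl hcc
        · rw [(regI t h4).1, (regN t' h2 h5).1]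
          exact hYN
        · rw [(regI t' h5).1, (regN t h1 h4).1]
          exact hYN.symm
        · rw [(regN t h1 h4).2, (regN t' h2 h5).2] at hcc
          exact absurd rfl hcc) (by
      intro t ht y hy
      rw [hCon, mem_filter] at ht
      obtain ⟨htP, htc, hpP⟩ := ht
      have hpL := parL t htc
      have hyQ : y ∈ Q := regQ _ hpL hy
      by_cases htL : t ∈ Lf
      · -- leaf
        have hpI : par t ∈ I := hLI t htL (par t) (hpar t htc).1
        rw [(regI _ hpI).1] at hy
        have g1 := hYo y hy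
        rw [(regL t htL).1]
        have g2 : (P0.filter (fun t' => rk t' < rk t ∧ cl t' = cl t)).card + 1 ≤ p := by
          rw [← hLfc]
          apply earlier_card P0 rk cl t Lf htL
          intro t' ht' hcc
          rw [(regL t htL).2] at hcc
          by_contra hx
          by_cases hx' : t' ∈ I
          · rw [(regI t' hx').2] at hcc
            omega
          · rw [(regN t' hx hx').2] at hcc
            omega
        have g3 : (O.filter (fun x => G.Adj y x)).card = (nb G O y).card := rfl
        omega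
      · by_cases htI : t ∈ I
        · have hpI : par t ∉ I := fun hx => hII t htI (par t) hx (hpar t htc).1
          rw [(regN _ hpL hpI).1] at hy
          rw [(regI t htI).1]
          have g1 : (Y.filter (fun z => ¬ G.Adj y z)).card ≤ kap := by
            by_contra hc
            push Not at hc
            exact (mem_sdiff.mp hy).2 (mem_filter.mpr ⟨hyQ, hc⟩)
          have g2 := card_filter_add_card_filter_not (s := Y) (fun z => G.Adj y z)
          have g3 := hearI t htP htI
          omega
        · rw [(regN t htL htI).1]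
          have g1 := near_sub G Q N0 (35 * h) hQ hN0Q y hyQ
          have g2 := hearN t htP htL htI
          omega) (by
      intro t ht htC
      by_cases htL : t ∈ Lf
      · exfalso
        apply htC
        rw [hCon, mem_filter]
        have htc : t ≠ c := by
          intro h
          rw [h] at htL
          exact hcL htL
        have hpI : par t ∈ I := hLI t htL (par t) (hpar t htc).1
        exact ⟨ht, htc, (memP0 _).mpr (fun hx => hA'I _ hx hpI)⟩
      · by_cases htI : t ∈ I
        · rw [(regI t htI).1]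
          have g3 := hearI t ht htI
          omega
        · rw [(regN t htL htI).1]
          have g2 := hearN t ht htL htI
          omega)
  refine finishA T G A' φ Q (35 * h) hQ ?_ ?_ ?_ ?_ ?_ (by omega) ?_
  · intro a ha b hab
    have hbA : b ∉ A' := fun hb => hA2 a (hA'A ha) b (hA'A hb) hab
    refine ⟨hbA, ?_⟩
    have hbL : b ∉ Lf := fun hb => hA'I a ha (hLI b hb a hab.symm)
    exact regQ b hbL (f2 b ((memP0 b).mpr hbA))
  · intro a ha
    exact hA1 a (hA'A ha)
  · intro a ha a' ha' b hab hab'
    exact hA3 a (hA'A ha) a' (hA'A ha') b hab hab'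
  · intro s hs t ht hst
    exact f1 ((memP0 s).mpr hs) ((memP0 t).mpr ht) hst
  · intro x y hx hy hxy
    rcases hedge x y hxy with ⟨g1, g2, -⟩ | ⟨g1, g2, -⟩
    · have : x ∈ Con := by
        rw [hCon, mem_filter]
        exact ⟨(memP0 x).mpr hx, g2, by rw [← g1]; exact (memP0 y).mpr hy⟩
      rw [g1]
      exact (f3 x this).symm
    · have : y ∈ Con := by
        rw [hCon, mem_filter]
        exact ⟨(memP0 y).mpr hy, g2, by rw [← g1]; exact (memP0 x).mpr hx⟩
      rw [g1]
      exact f3 y this
  · have g1 : univ.filter (fun t => t ∉ A' ∧ φ t ∈ Q) ⊆ P0 \ Lf := by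
      intro t ht
      rw [mem_filter] at ht
      rw [mem_sdiff]
      refine ⟨(memP0 t).mpr ht.2.1, fun hx => ?_⟩
      have g2 := f2 t ((memP0 t).mpr ht.2.1)
      rw [(regL t hx).1] at g2
      exact (disjoint_left.mp hQO ht.2.2) g2
    have g2 := card_le_card g1
    have d1 : Disjoint (P0 \ Lf) A' := by
      rw [disjoint_left]
      intro x hx hx'
      exact (memP0 x).mp (mem_sdiff.mp hx).1 hx'
    have d2 : Disjoint ((P0 \ Lf) ∪ A') Lf := by
      rw [disjoint_left]
      intro x hx hx'
      rw [mem_union] at hx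
      rcases hx with hx | hx
      · exact (mem_sdiff.mp hx).2 hx'
      · exact hA'L x hx hx'
    have g3 : (((P0 \ Lf) ∪ A') ∪ Lf).card ≤ Fintype.card α := card_le_univ _
    rw [card_union_of_disjoint d2, card_union_of_disjoint d1, hLfc, hcard] at g3
    omega

end Pool.Agent.H27.TC
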