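import Pool.Agent.H27.TC.NBad
import Pool.Agent.H27.TC.TOrd
import Pool.Agent.H27.TC.TBas
import Pool.Agent.H27.TC.ERGP
import Pool.Agent.H27.TC.EFinB
import Pool.Agent.H27.TC.XAux
import Pool.Agent.H27.TC.ZAux

set_option autoImplicit false

/-
[H27 TC ZUniv]  Type II: |Q| = K, v in Q adjacent to all of Q, and an edge y x with y in Q, x not in Q.

m = 35 h. l1 = max |lfs T c|, attained at z1 in NL, 1 <= l1 <= 1541 h; moreover l1 >= 2 since
|LF| >= K + 1 - 1540 h > |NL|.
CASE y = v. l0 in lfs z1. P0 = NL ∪ {l0}, L0 = lfs z1 \ {l0}, Sl = LF \ lfs z1. Root z1 at v; regions: z1: {v}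
 (class 0), l0: {x} (class 1), NL \ {z1}: Q.erase v (class 2) = PC. Con = P0 \ {z1}.
 l0: par l0 = z1, y' = v adjacent to x. Others: as in ZOver.
 sum_{PC} |lfs| = |LF| - l1. |B| 4^N <= |Q| <= 4K, 4 |B| <= l1.
 |Q \ phi(P0)| = K - |NL|, |Sl| = K + 1 - |NL| - l1: difference l1 - 1 >= |B| (4|B| <= l1, l1 >= 2).
 S' = nb Q v, |S'| = K - 1: |L0| + (|NL| - 1) + |Sl| = (l1 - 1) + (|NL| - 1) + (K + 1 - |NL| - l1) = K - 1.
CASE y <> v (so Adj v y). z2 in NL, z2 <> z1, with a leaf l0 in lfs z2 (exists: sum_lfs, |LF| > l1).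
 P0 = NL ∪ {l0}, L0 = lfs z1, Sl = LF \ {l0} \ lfs z1. Regions: z1: {v} (class 0), z2: {y} (class 1),
 l0: {x} (class 2), other t in NL (class 3, = PC): {w in Q \ {v, y} : T.Adj t z2 -> G.Adj y w}; size >=
 |Q| - 2 - 35 h. Con = P0 \ {z1}.
 z2: par z2 = z1: y' = v adjacent to y; par z2 = other t: y' in Reg t adjacent to y. l0: par l0 = z2.
 t in PC: y' in Q: |nb (Reg t) y'| >= |Q| - 2 - 70 h >= 1540 h + 1120 h.
 sum_{PC} |lfs| = |LF| - l1 - |lfs z2| >= K + 1 - 1540 h - 2 * 1541 h >= K/2 + 140 h.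
 |Q \ phi(P0)| = K - |NL|, |Sl| = K + 1 - |NL| - 1 - l1: difference l1 >= |Bd|. (Slots at t in PC: all of
 lfs t.) S' = nb Q v: l1 + (|NL| - 1) + |Sl| = K - 1 <= |S'|.
Cv = ∅ in both cases.
-/

namespace Pool.Agent.H27.TC

open Finset Classical
open Pool.Agent.H28.TreeClique

variable {V α : Type*} [Fintype α]

lemma sum_ins_le {β : Type*} (a : β) (s : Finset β) (f : β → ℕ) :
    ∑ t ∈ insert a s, f t ≤ f a + ∑ t ∈ s, f t := by
  by_cases ha : a ∈ s
  · rw [insert_eq_of_mem ha]
    exact Nat.le_add_left _ _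
  · rw [sum_insert ha]

/-- A vertex with the largest number of leaves. -/
lemma exists_max_lfs (T : SimpleGraph α) (hT : T.IsTree) (h3 : 3 ≤ Fintype.card α)
    (hLF : (NL T).card < (LF T).card) :
    ∃ z1 ∈ NL T, (∀ c, (lfs T c).card ≤ (lfs T z1).card) ∧ 2 ≤ (lfs T z1).card := by
  obtain ⟨pi, hpi⟩ := leaf_nbr T hT h3
  obtain ⟨z1, -, hz1⟩ := exists_max_image (univ : Finset α) (fun c => (lfs T c).card)
    (by
      obtain ⟨x⟩ : Nonempty α := Fintype.card_pos_iff.mp (by omega)
      exact ⟨x, mem_univ _⟩)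
  have hmax : ∀ c, (lfs T c).card ≤ (lfs T z1).card := fun c => hz1 c (mem_univ _)
  have h2 : 2 ≤ (lfs T z1).card := by
    by_contra hc
    push Not at hc
    have g1 := sum_lfs T hT h3
    have g2 : ∑ c ∈ NL T, (lfs T c).card ≤ (NL T).card * 1 := by
      rw [← smul_eq_mul]
      apply sum_le_card_nsmul
      intro c _
      have := hmax c
      omega
    omega
  refine ⟨z1, ?_, hmax, h2⟩
  obtain ⟨x, hx⟩ : (lfs T z1).Nonempty := card_pos.mp (by omega)
  rw [lfs, mem_filter] at hx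
  rw [NL, mem_filter]
  refine ⟨mem_univ _, ?_⟩
  rw [(hpi x hx.2.2).2.1 z1 hx.2.1.symm]
  exact (hpi x hx.2.2).2.2

lemma univ_aux {K r L q h : ℕ} (P : Par K r L q h) (T : SimpleGraph α) (hT : T.IsTree)
    (hcard : Fintype.card α = K + 1) (hNLc : (NL T).card ≤ 1540 * h) (G : SimpleGraph V)
    (Q : Finset V) (hQ : Near G Q (35 * h)) (hQK : Q.card = K)
    (v : V) (hvQ : v ∈ Q) (hv : K ≤ (nb G Q v).card + 1) (y x : V) (hy : y ∈ Q) (hx : x ∉ Q)
    (hyx : G.Adj y x) (z1 z2 l0 : α) (hz1 : z1 ∈ NL T) (hz2 : z2 ∈ NL T)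
    (hmax : ∀ c, (lfs T c).card ≤ (lfs T z1).card) (hl2 : 2 ≤ (lfs T z1).card)
    (hl1h : (lfs T z1).card ≤ 1541 * h) (hl0 : l0 ∈ lfs T z2)
    (hcase : (z2 = z1 ∧ y = v) ∨ (z2 ≠ z1 ∧ y ≠ v)) : Emb T G := by
  obtain ⟨hr, hrK, hq, hqh, hbig, hh3, -⟩ := par_facts P
  have h3c : 3 ≤ Fintype.card α := by omega
  obtain ⟨pi, hpi⟩ := leaf_nbr T hT h3c
  haveI : Nonempty V := ⟨y⟩
  have hNLF := card_NL_LF T
  rw [hcard] at hNLF
  obtain ⟨par, rk, hrk, hpar1, hpar2, hrk2⟩ := exists_order T hT z1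
  have hl0' : T.Adj z2 l0 ∧ dg T l0 = 1 := by
    rw [lfs, mem_filter] at hl0
    exact hl0.2
  have hl0N : l0 ∉ NL T := by
    intro hc
    rw [NL, mem_filter] at hc
    exact hc.2 hl0'.2
  have hpil0 : pi l0 = z2 := ((hpi l0 hl0'.2).2.1 z2 hl0'.1.symm).symm
  -- v is adjacent to everything in Q
  have hvall : ∀ w ∈ Q, w ≠ v → G.Adj v w := by
    intro w hw hwv
    have g1 : nb G Q v ⊆ Q.erase v := by
      intro u hu
      rw [nb, mem_filter] at hu
      rw [mem_erase]
      exact ⟨hu.2.ne', hu.1⟩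
    have g2 : nb G Q v = Q.erase v := by
      apply eq_of_subset_of_card_le g1
      rw [card_erase_of_mem hvQ]
      omega
    have g3 : w ∈ nb G Q v := by
      rw [g2]
      exact mem_erase.mpr ⟨hwv, hw⟩
    rw [nb, mem_filter] at g3
    exact g3.2
  set P0 := insert l0 (NL T) with hP0
  set L0 := (lfs T z1).erase l0 with hL0
  set Sl := ((LF T).erase l0) \ lfs T z1 with hSl
  have memNL : ∀ t, t ∈ NL T ↔ dg T t ≠ 1 := by
    intro t
    rw [NL, mem_filter]
    simp
  have memLF : ∀ t, t ∈ LF T ↔ dg T t = 1 := by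
    intro t
    rw [LF, mem_filter]
    simp
  have memlfs : ∀ c t, t ∈ lfs T c ↔ T.Adj c t ∧ dg T t = 1 := by
    intro c t
    rw [lfs, mem_filter]
    simp
  have hlfsLF : ∀ c, lfs T c ⊆ LF T := by
    intro c t ht
    rw [memLF]
    exact ((memlfs c t).mp ht).2
  have hP0c : P0.card = (NL T).card + 1 := card_insert_of_notMem hl0N
  have hz1P : z1 ∈ P0 := mem_insert_of_mem hz1
  have hz2P : z2 ∈ P0 := mem_insert_of_mem hz2
  have hl0z1 : l0 ≠ z1 := by
    intro hc
    rw [hc] at hl0N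
    exact hl0N hz1
  have hl0z2 : l0 ≠ z2 := by
    intro hc
    rw [hc] at hl0N
    exact hl0N hz2
  have hparl0 : par l0 = z2 := by
    rw [← hpil0]
    exact (hpi l0 hl0'.2).2.1 _ (hpar1 l0 hl0z1).1
  have hparN : ∀ t ∈ NL T, t ≠ z1 → par t ∈ NL T := fun t ht htz => par_NL T hz1 par hpar1 ht htz
  have hparP : ∀ t ∈ P0, t ≠ z1 → par t ∈ NL T := by
    intro t ht htz
    rw [hP0, mem_insert] at ht
    rcases ht with rfl | ht
    · rw [hparl0]; exact hz2
    · exact hparN t ht htz
  -- regions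
  set RN : α → Finset V := fun t => (Q \ {v, y}).filter (fun w => T.Adj t z2 → G.Adj y w) with hRN
  set Reg : α → Finset V := fun t => if t = z1 then {v} else if t = z2 then {y} else
    if t = l0 then {x} else RN t with hReg
  set cl : α → ℕ := fun t => if t = z1 then 0 else if t = z2 then 1 else
    if t = l0 then 2 else 3 with hcl
  have R1 : Reg z1 = {v} ∧ cl z1 = 0 := by simp [hReg, hcl]
  have R2 : Reg z2 = {y} := by
    rcases hcase with ⟨h1, h2⟩ | ⟨h1, h2⟩
    · rw [h1, R1.1, h2]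
    · simp [hReg, h1]
  have R2c : z2 ≠ z1 → cl z2 = 1 := by
    intro h1
    simp [hcl, h1]
  have R3 : Reg l0 = {x} ∧ cl l0 = 2 := by simp [hReg, hcl, hl0z1, hl0z2]
  have R4 : ∀ t, t ≠ z1 → t ≠ z2 → t ≠ l0 → Reg t = RN t ∧ cl t = 3 := by
    intro t h1 h2 h3
    simp [hReg, hcl, h1, h2, h3]
  have hquad : ∀ t, t = z1 ∨ (t ≠ z1 ∧ t = z2) ∨ t = l0 ∨ (t ≠ z1 ∧ t ≠ z2 ∧ t ≠ l0) := by
    intro t
    by_cases h1 : t = z1
    · left; exact h1
    by_cases h2 : t = z2
    · right; left; exact ⟨h1, h2⟩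
    by_cases h3 : t = l0
    · right; right; left; exact h3
    right; right; right; exact ⟨h1, h2, h3⟩
  have hRNQ : ∀ t, RN t ⊆ Q := fun t => (filter_subset _ _).trans sdiff_subset
  have hRQ : ∀ t ∈ NL T, Reg t ⊆ Q := by
    intro t ht
    rcases hquad t with h1 | ⟨-, h1⟩ | h1 | ⟨h1, h2, h3⟩
    · rw [h1, R1.1, singleton_subset_iff]; exact hvQ
    · rw [h1, R2, singleton_subset_iff]; exact hy
    · rw [h1] at ht
      exact absurd ht hl0N
    · rw [(R4 t h1 h2 h3).1]
      exact hRNQ t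
  have hRNc : ∀ t, Q.card ≤ (RN t).card + 2 + 35 * h := by
    intro t
    have g0 : Q.card ≤ (Q \ {v, y}).card + 2 := by
      have := le_card_sdiff {v, y} Q
      have := card_le_two (a := v) (b := y)
      omega
    have g1 := near_sub G Q (Q \ {v, y}) (35 * h) hQ sdiff_subset y hy
    have g2 : (Q \ {v, y}).filter (fun w => G.Adj y w) ⊆ RN t := by
      intro w hw
      rw [mem_filter] at hw
      simp only [hRN, mem_filter]
      exact ⟨hw.1, fun _ => hw.2⟩
    have g3 := card_le_card g2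
    omega
  set PC := ((NL T).erase z1).erase z2 with hPC
  have hPCm : ∀ t, t ∈ PC ↔ t ≠ z2 ∧ t ≠ z1 ∧ t ∈ NL T := by
    intro t
    rw [hPC, mem_erase, mem_erase]
  have hPCc : PC.card ≤ 1540 * h :=
    ((card_le_card ((erase_subset _ _).trans (erase_subset _ _))).trans hNLc)
  have hPCR : ∀ t ∈ PC, Reg t = RN t ∧ cl t = 3 := by
    intro t ht
    rw [hPCm] at ht
    exact R4 t ht.2.1 ht.1 (fun hc => hl0N (hc ▸ ht.2.2))
  have hPC3 : ∀ t ∈ P0, cl t = 3 → t ∈ PC := by
    intro t ht h4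
    rw [hPCm]
    rcases hquad t with h1 | ⟨h0, h1⟩ | h1 | ⟨h1, h2, h3⟩
    · rw [h1, R1.2] at h4; omega
    · rw [h1, R2c (h1 ▸ h0)] at h4; omega
    · rw [h1, R3.2] at h4; omega
    · rw [hP0, mem_insert] at ht
      exact ⟨h2, h1, ht.resolve_left h3⟩
  obtain ⟨φ, i1, i2, i3, i4⟩ := rgp G P0 rk hrk.injOn par (P0.erase z1)
    (by
      intro t ht
      rw [mem_erase] at ht
      refine ⟨ht.2, mem_insert_of_mem (hparP t ht.2 ht.1), hrk2 _ _ ?_⟩
      have := (hpar1 t ht.1).2
      omega)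
    Reg cl
    (by
      have hvN : ∀ t, Disjoint ({v} : Finset V) (RN t) := by
        intro t
        rw [disjoint_singleton_left]
        intro hc
        have := (mem_sdiff.mp (filter_subset _ _ hc)).2
        exact this (by simp)
      have hyN : ∀ t, Disjoint ({y} : Finset V) (RN t) := by
        intro t
        rw [disjoint_singleton_left]
        intro hc
        have := (mem_sdiff.mp (filter_subset _ _ hc)).2
        exact this (by simp)
      have hxN : ∀ t, Disjoint ({x} : Finset V) (RN t) := by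
        intro t
        rw [disjoint_singleton_left]
        intro hc
        exact hx (hRNQ t hc)
      have hvx : Disjoint ({v} : Finset V) {x} := by
        rw [disjoint_singleton_left, mem_singleton]
        intro hc
        exact hx (hc ▸ hvQ)
      have hyx' : Disjoint ({y} : Finset V) {x} := by
        rw [disjoint_singleton_left, mem_singleton]
        intro hc
        exact hx (hc ▸ hy)
      have hvy : z2 ≠ z1 → Disjoint ({v} : Finset V) {y} := by
        intro hz
        rw [disjoint_singleton_left, mem_singleton]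
        intro hc
        rcases hcase with ⟨h1, -⟩ | ⟨-, h2⟩
        · exact hz h1
        · exact h2 hc.symm
      intro t _ t' _ hne
      rcases hquad t with h1 | ⟨h0, h1⟩ | h1 | ⟨h1, h2, h3⟩ <;>
        rcases hquad t' with k1 | ⟨k0, k1⟩ | k1 | ⟨k1, k2, k3⟩
      · rw [h1, k1] at hne; exact absurd rfl hne
      · rw [h1, k1, R1.1, R2]; exact hvy (k1 ▸ k0)
      · rw [h1, k1, R1.1, R3.1]; exact hvx
      · rw [h1, R1.1, (R4 t' k1 k2 k3).1]; exact hvN t'
      · rw [h1, k1, R1.1, R2]; exact (hvy (h1 ▸ h0)).symm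
      · rw [h1, k1] at hne; exact absurd rfl hne
      · rw [h1, k1, R2, R3.1]; exact hyx'
      · rw [h1, R2, (R4 t' k1 k2 k3).1]; exact hyN t'
      · rw [h1, k1, R1.1, R3.1]; exact hvx.symm
      · rw [h1, k1, R2, R3.1]; exact hyx'.symm
      · rw [h1, k1] at hne; exact absurd rfl hne
      · rw [h1, R3.1, (R4 t' k1 k2 k3).1]; exact hxN t'
      · rw [k1, R1.1, (R4 t h1 h2 h3).1]; exact (hvN t).symm
      · rw [k1, R2, (R4 t h1 h2 h3).1]; exact (hyN t).symm
      · rw [k1, R3.1, (R4 t h1 h2 h3).1]; exact (hxN t).symm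
      · rw [(R4 t h1 h2 h3).2, (R4 t' k1 k2 k3).2] at hne
        exact absurd rfl hne)
    PC (fun t ht => mem_insert_of_mem ((hPCm t).mp ht).2.2) Q (35 * h) (by omega) hQ
    (fun t ht => hRQ t ((hPCm t).mp ht).2.2)
    (by
      intro t ht y' hy'
      rw [mem_erase] at ht
      obtain ⟨htz, htP⟩ := ht
      have hpN := hparP t htP htz
      have hy'Q := hRQ _ hpN hy'
      rcases hquad t with h1 | ⟨h0, h1⟩ | h1 | ⟨h1, h2, h3⟩
      · exact absurd h1 htz
      · -- t = z2 ≠ z1
        have htPC : t ∉ PC := fun hc => ((hPCm t).mp hc).1 h1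
        rw [if_neg htPC, h1, R2]
        have hz21 : z2 ≠ z1 := h1 ▸ h0
        have g1 := card_earlier P0 {z2} rk cl z2 (mem_singleton_self _) (by
          intro t' ht' _ h4
          rw [R2c hz21] at h4
          rw [mem_singleton]
          rcases hquad t' with k1 | ⟨k0, k1⟩ | k1 | ⟨k1, k2, k3⟩
          · rw [k1, R1.2] at h4; omega
          · exact k1
          · rw [k1, R3.2] at h4; omega
          · rw [(R4 t' k1 k2 k3).2] at h4; omega)
        rw [card_singleton] at g1
        refine g1.trans ?_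
        apply card_pos.mpr
        refine ⟨y, mem_filter.mpr ⟨mem_singleton_self _, ?_⟩⟩
        have hyv : y ≠ v := by
          rcases hcase with ⟨k1, -⟩ | ⟨-, k2⟩
          · exact absurd k1 hz21
          · exact k2
        rcases hquad (par t) with k1 | ⟨k0, k1⟩ | k1 | ⟨k1, k2, k3⟩
        · rw [k1, R1.1, mem_singleton] at hy'
          rw [hy']
          exact hvall y hy hyv
        · exfalso
          have := (hpar1 t htz).1
          rw [k1, h1] at this
          exact T.loopless.irrefl _ this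
        · rw [k1] at hpN
          exact absurd hpN hl0N
        · rw [(R4 _ k1 k2 k3).1] at hy'
          simp only [hRN, mem_filter] at hy'
          apply (hy'.2 ?_).symm
          have := (hpar1 t htz).1.symm
          rw [h1] at this
          rw [h1]
          exact this
      · -- t = l0
        have htPC : t ∉ PC := fun hc => hl0N (h1 ▸ ((hPCm t).mp hc).2.2)
        rw [if_neg htPC, h1, R3.1]
        have g1 := card_earlier P0 {l0} rk cl l0 (mem_singleton_self _) (by
          intro t' ht' _ h4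
          rw [R3.2] at h4
          rw [mem_singleton]
          rcases hquad t' with k1 | ⟨k0, k1⟩ | k1 | ⟨k1, k2, k3⟩
          · rw [k1, R1.2] at h4; omega
          · rw [k1, R2c (k1 ▸ k0)] at h4; omega
          · exact k1
          · rw [(R4 t' k1 k2 k3).2] at h4; omega)
        rw [card_singleton] at g1
        refine g1.trans ?_
        apply card_pos.mpr
        refine ⟨x, mem_filter.mpr ⟨mem_singleton_self _, ?_⟩⟩
        rw [h1, hparl0, R2, mem_singleton] at hy'
        rw [hy']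
        exact hyx
      · have htPC : t ∈ PC := hPC3 t htP (R4 t h1 h2 h3).2
        rw [if_pos htPC, (R4 t h1 h2 h3).1]
        have g1 := near_sub G Q (RN t) (35 * h) hQ (hRNQ t) y' hy'Q
        have g2 := hRNc t
        have g4 := card_earlier P0 PC rk cl t htPC (by
          intro t' ht' _ h4
          rw [(R4 t h1 h2 h3).2] at h4
          exact hPC3 t' ht' h4)
        omega)
    (by
      intro t ht htC
      have h1 : t = z1 := by
        by_contra h
        exact htC (mem_erase.mpr ⟨h, ht⟩)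
      have htPC : t ∉ PC := fun h => ((hPCm t).mp h).2.1 h1
      rw [if_neg htPC, h1, R1.1]
      have g1 := card_earlier P0 {z1} rk cl z1 (mem_singleton_self _) (by
        intro t' ht' _ h4
        rw [R1.2] at h4
        rw [mem_singleton]
        rcases hquad t' with k1 | ⟨k0, k1⟩ | k1 | ⟨k1, k2, k3⟩
        · exact k1
        · rw [k1, R2c (k1 ▸ k0)] at h4; omega
        · rw [k1, R3.2] at h4; omega
        · rw [(R4 t' k1 k2 k3).2] at h4; omega)
      exact g1)
    (fun t => (lfs T t).card) (lfs T z1).card (by omega) (fun t _ => hmax t) (fun _ => 1) (70 * h)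
  simp only [sum_const, smul_eq_mul, mul_one] at i4
  -- the potential
  have hsumPC : K / 2 + 140 * h ≤ ∑ t ∈ PC, (lfs T t).card := by
    have h1 : NL T ⊆ insert z1 (insert z2 PC) := by
      intro t ht
      rw [mem_insert, mem_insert, hPCm]
      by_cases h2 : t = z1
      · left; exact h2
      · by_cases h4 : t = z2
        · right; left; exact h4
        · right; right; exact ⟨h4, h2, ht⟩
    have h2 : ∑ t ∈ NL T, (lfs T t).card ≤ (lfs T z1).card + ((lfs T z2).card +
        ∑ t ∈ PC, (lfs T t).card) := by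
      refine (sum_le_sum_of_subset h1).trans ?_
      refine (sum_ins_le _ _ _).trans ?_
      exact Nat.add_le_add_left (sum_ins_le _ _ _) _
    rw [sum_lfs T hT h3c] at h2
    have h5 := hmax z2
    omega
  set Bg := Q.filter (fun ρ => ∑ t ∈ PC.filter (fun t => G.Adj (φ t) ρ),
    (lfs T t).card ≤ 70 * h) with hBg
  have hBgc : 4 * Bg.card ≤ (lfs T z1).card := by
    refine bad1 P (lfs T z1).card ((∑ t ∈ PC, (lfs T t).card - 2 * (70 * h)) / (lfs T z1).card)
      Bg.card (by omega) hl1h ?_ (by omega)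
    rw [← Nat.div_div_eq_div_mul]
    apply Nat.div_le_div_right
    omega
  -- sizes
  have hSlm : ∀ l, l ∈ Sl ↔ l ≠ l0 ∧ dg T l = 1 ∧ ¬ T.Adj z1 l := by
    intro l
    rw [hSl, mem_sdiff, mem_erase, memLF, memlfs]
    constructor
    · rintro ⟨⟨g1, g2⟩, g3⟩
      exact ⟨g1, g2, fun hc => g3 ⟨hc, g2⟩⟩
    · rintro ⟨g1, g2, g3⟩
      exact ⟨⟨g1, g2⟩, fun hc => g3 hc.1⟩
  have hL0m : ∀ l, l ∈ L0 ↔ l ≠ l0 ∧ T.Adj z1 l ∧ dg T l = 1 := by
    intro l
    rw [hL0, mem_erase, memlfs]
  have d1 : Disjoint P0 Sl := by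
    rw [disjoint_left]
    intro t ht ht'
    rw [hSlm] at ht'
    rw [hP0, mem_insert] at ht
    rcases ht with h1 | h1
    · exact ht'.1 h1
    · exact (memNL t).mp h1 ht'.2.1
  have d2 : Disjoint P0 L0 := by
    rw [disjoint_left]
    intro t ht ht'
    rw [hL0m] at ht'
    rw [hP0, mem_insert] at ht
    rcases ht with h1 | h1
    · exact ht'.1 h1
    · exact (memNL t).mp h1 ht'.2.2
  have d3 : Disjoint Sl L0 := by
    rw [disjoint_left]
    intro t ht ht'
    rw [hL0m] at ht'
    rw [hSlm] at ht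
    exact ht.2.2 ht'.2.1
  have hcov : ∀ t, t ∈ P0 ∨ t ∈ Sl ∨ t ∈ L0 := by
    intro t
    rw [hSlm, hL0m, hP0, mem_insert, memNL]
    tauto
  have hpart : P0.card + (Sl.card + L0.card) = K + 1 := by
    rw [← hcard, ← card_univ, ← card_union_of_disjoint d3]
    rw [← card_union_of_disjoint (by rw [disjoint_union_right]; exact ⟨d1, d2⟩)]
    congr 1
    ext t
    simp only [mem_union, mem_univ, iff_true]
    exact hcov t
  have hSlc : Sl.card + (lfs T z1).card + (NL T).card ≤ K + 1 := by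
    have g1 : ((LF T) \ lfs T z1).card = (LF T).card - (lfs T z1).card :=
      card_sdiff_of_subset (hlfsLF z1)
    have g2 : Sl ⊆ (LF T) \ lfs T z1 := by
      rw [hSl]
      exact sdiff_subset_sdiff (erase_subset _ _) (subset_refl _)
    have g3 := card_le_card g2
    have g4 := card_le_card (hlfsLF z1)
    omega
  have hφz1 : φ z1 = v := by
    have := i2 z1 hz1P
    rw [R1.1, mem_singleton] at this
    exact this
  have hφl0 : φ l0 = x := by
    have := i2 l0 (mem_insert_self _ _)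
    rw [R3.1, mem_singleton] at this
    exact this
  have hφQ : ∀ t ∈ NL T, φ t ∈ Q := fun t ht => hRQ t ht (i2 t (mem_insert_of_mem ht))
  refine finishB T G P0 Sl L0 hcov d1 d2 d3 z1 hz1P φ Q (35 * h) hQ pi ?_ ?_ i1 ?_ _ rfl
    ?_ ∅ (empty_subset _) (by simp) (nb G Q v) ?_ (Or.inr ?_)
  · intro l hl
    rw [hSlm] at hl
    obtain ⟨p1, p2, p3⟩ := hpi l hl.2.1
    have g1 : pi l ∈ NL T := (memNL _).mpr p3
    exact ⟨p1, p2, mem_insert_of_mem g1, hφQ _ g1⟩
  · intro l hl b hb
    rw [hL0m] at hl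
    rw [(hpi l hl.2.2).2.1 b hb, (hpi l hl.2.2).2.1 z1 hl.2.1.symm]
  · intro s hs t ht hst
    rcases hpar2 s t hst with ⟨h1, h2, -⟩ | ⟨h1, h2, -⟩
    · have := i3 s (mem_erase.mpr ⟨h2, hs⟩)
      rw [← h1] at this
      exact this.symm
    · have := i3 t (mem_erase.mpr ⟨h2, ht⟩)
      rw [← h1] at this
      exact this
  · have h1 : ((Q \ P0.image φ).filter
        (fun ρ => (Sl.filter (fun l => G.Adj (φ (pi l)) ρ)).card ≤ 2 * (35 * h))) ⊆ Bg := by
      intro ρ hρ
      rw [mem_filter, mem_sdiff] at hρ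
      rw [hBg, mem_filter]
      refine ⟨hρ.1.1, ?_⟩
      refine le_trans (sum_lfs_le T hT h3c _
        (Sl.filter (fun l => G.Adj (φ (pi l)) ρ)) ?_) (by omega)
      intro t ht l hl
      rw [mem_filter, hPCm] at ht
      rw [memlfs] at hl
      have hpx : t = pi l := (hpi l hl.2).2.1 t hl.1.symm
      rw [mem_filter, hSlm]
      refine ⟨⟨?_, hl.2, ?_⟩, ?_⟩
      · rintro rfl
        exact ht.1.1 (hpx.trans hpil0)
      · intro hc
        apply ht.1.2.1
        rw [hpx, (hpi l hl.2).2.1 z1 hc.symm]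
      · rw [← hpx]
        exact ht.2
    have h2 := card_le_card h1
    have h4 : Q.card ≤ (Q \ P0.image φ).card + (NL T).card := by
      have h5 : Q ⊆ (Q \ P0.image φ) ∪ (NL T).image φ := by
        intro w hw
        rw [mem_union, mem_sdiff]
        by_cases hxi : w ∈ P0.image φ
        · right
          rw [mem_image] at hxi ⊢
          obtain ⟨t, ht, rfl⟩ := hxi
          rw [hP0, mem_insert] at ht
          rcases ht with h6 | h6
          · rw [h6, hφl0] at hw
            exact absurd hw hx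
          · exact ⟨t, h6, rfl⟩
        · left; exact ⟨hw, hxi⟩
      exact (card_le_card h5).trans ((card_union_le _ _).trans
        (Nat.add_le_add_left card_image_le _))
    omega
  · intro w hw
    rw [hφz1]
    rw [nb, mem_filter] at hw
    exact hw.2
  · have h1 : P0.image φ ∩ nb G Q v ⊆ ((NL T).erase z1).image φ := by
      intro w hw
      rw [mem_inter, mem_image, nb, mem_filter] at hw
      obtain ⟨⟨t, ht, rfl⟩, hw1, hw2⟩ := hw
      rw [hP0, mem_insert] at ht
      rw [mem_image]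
      refine ⟨t, mem_erase.mpr ⟨?_, ?_⟩, rfl⟩
      · rintro rfl
        rw [hφz1] at hw2
        exact G.loopless.irrefl _ hw2
      · rcases ht with h6 | h6
        · rw [h6, hφl0] at hw1
          exact absurd hw1 hx
        · exact h6
    have h2 := (card_le_card h1).trans card_image_le
    rw [card_erase_of_mem hz1] at h2
    have h7 : ((∅ : Finset V) \ nb G Q v).card = 0 := by simp
    have h8 : 0 < (NL T).card := card_pos.mpr ⟨z1, hz1⟩
    omega

theorem univ_case {K r L q h : ℕ} (P : Par K r L q h) (T : SimpleGraph α) (hT : T.IsTree)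
    (hcard : Fintype.card α = K + 1) (hII : TypeII T (1540 * h) (1541 * h)) (G : SimpleGraph V)
    (Q : Finset V) (hQ : Near G Q (35 * h)) (hQK : Q.card = K)
    (v : V) (hvQ : v ∈ Q) (hv : K ≤ (nb G Q v).card + 1) (y x : V) (hy : y ∈ Q) (hx : x ∉ Q)
    (hyx : G.Adj y x) : Emb T G := by
  obtain ⟨hr, hrK, hq, hqh, hbig, hh3, -⟩ := par_facts P
  obtain ⟨hNLc, hlfs⟩ := hII
  have h3c : 3 ≤ Fintype.card α := by omega
  have hNLF := card_NL_LF T
  rw [hcard] at hNLF
  obtain ⟨z1, hz1, hmax, hl2⟩ := exists_max_lfs T hT h3c (by omega)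
  by_cases hyv : y = v
  · obtain ⟨l0, hl0⟩ : (lfs T z1).Nonempty := card_pos.mp (by omega)
    exact univ_aux P T hT hcard hNLc G Q hQ hQK v hvQ hv y x hy hx hyx z1 z1 l0 hz1 hz1 hmax hl2
      (hlfs z1) hl0 (Or.inl ⟨rfl, hyv⟩)
  · obtain ⟨z2, hz2, hz21, hne⟩ : ∃ z2 ∈ NL T, z2 ≠ z1 ∧ 0 < (lfs T z2).card := by
      by_contra hcon
      push Not at hcon
      have g1 := sum_lfs T hT h3c
      have g2 : ∑ c ∈ (NL T).erase z1, (lfs T c).card = 0 := by
        apply sum_eq_zero
        intro c hc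
        rw [mem_erase] at hc
        have := hcon c hc.2 hc.1
        omega
      have g3 := add_sum_erase (NL T) (fun c => (lfs T c).card) hz1
      have g4 := hlfs z1
      omega
    obtain ⟨l0, hl0⟩ := card_pos.mp hne
    exact univ_aux P T hT hcard hNLc G Q hQ hQK v hvQ hv y x hy hx hyx z1 z2 l0 hz1 hz2 hmax hl2
      (hlfs z1) hl0 (Or.inr ⟨hz21, hyv⟩)

end Pool.Agent.H27.TC
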