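import Pool.Agent.H27.TC.XThm
import Pool.Agent.H27.TC.YChao
import Pool.Agent.H27.TC.YCore
import Pool.Agent.H27.TC.YAvg
import Pool.Agent.H27.TC.YGam
import Pool.Agent.H27.TC.YDef
import Pool.Agent.H27.TC.YStar
import Pool.Agent.H27.TC.ZFinI
import Pool.Agent.H27.TC.ZE3
import Pool.Agent.H27.TC.ZOver
import Pool.Agent.H27.TC.ZUniv

set_option autoImplicit false

/-
[H27 TC YThm]  Assembly of Theorem Y (done by helper27).
-/

namespace Pool.Agent.H27.TC

open Finset Classical
open Pool.Agent.H28.TreeClique

variable {V α : Type*} [Fintype α]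

lemma nb_card_lt (G : SimpleGraph V) (Q : Finset V) (v : V) (hv : v ∈ Q) :
    (nb G Q v).card + 1 ≤ Q.card := by
  have h1 : nb G Q v ⊆ Q.erase v := by
    intro x hx
    rw [nb, mem_filter] at hx
    rw [mem_erase]
    exact ⟨hx.2.ne', hx.1⟩
  have h2 := card_le_card h1
  rw [card_erase_of_mem hv] at h2
  have : 0 < Q.card := card_pos.mpr ⟨v, hv⟩
  omega

lemma exists_leaf (T : SimpleGraph α) (hT : T.IsTree) (h3 : 3 ≤ Fintype.card α) :
    ∃ x, dg T x = 1 := by
  by_contra hcon
  push Not at hcon
  have h1 := dg_sum T hT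
  have h2 : ∑ x : α, 2 ≤ ∑ x, dg T x := by
    apply sum_le_sum
    intro x _
    have := dg_pos T hT (by omega) x
    have := hcon x
    omega
  rw [sum_const, card_univ, smul_eq_mul] at h2
  omega

theorem y_thm {K r L q h : ℕ} (P : Par K r L q h) (T : SimpleGraph α) (hT : T.IsTree)
    (hcard : Fintype.card α = K + 1)
    (hty : TypeI T (140 * h) ∨ TypeII T (1540 * h) (1541 * h)) (G : SimpleGraph V)
    (hE : ¬ Emb T G) (S : Finset V)
    (hmin : ∀ S' ⊂ S, (KS G r S').card ≤ F K r S'.card)
    (hbad : F K r S.card < (KS G r S).card) : False := by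
  obtain ⟨hr1, hrK, hq3, hqh, hhK, hh3, hKrq⟩ := par_facts P
  have hSK := y_card P G S hbad
  obtain ⟨C, hCS, hth, hSC, hKS, hne⟩ := y_core P G S hmin hbad
  have hD := thmX P T hT hcard hty G hE C hth
  by_cases hCeq : C = S
  · subst hCeq
    exact y_chao P G C hmin hbad hD
  obtain ⟨hb1, hb2⟩ := hne hCeq
  obtain ⟨u, huC, hu16⟩ := y_avg P G S C hCS hSK hbad hth hSC hKS hD
  have hu := hth u huC
  have hdu := hD u huC
  have hup := clu_le P T hT hcard hty G hE S C hCS u huC hu hdu
  have hsub := core_sub_clu P G S C hCS u huC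
  obtain ⟨hc1, hc2, hc3⟩ := core_card P G C u huC hu hdu
  have hlow : K + 2 ≤ (clu G S C h u).card + 3 * h := by
    have := card_le_card hsub
    omega
  have hN : Near G (clu G S C h u) (35 * h) :=
    clu_near P G S C hCS u huC hu hdu _ hsub (subset_refl _) (by omega)
  have hQS : clu G S C h u ⊆ S := filter_subset _ _
  have hout : ∀ x ∈ S \ clu G S C h u,
      (nb G (clu G S C h u) x).card + 30 * h + 1 ≤ (clu G S C h u).card := by
    intro x hx
    rw [mem_sdiff] at hx
    exact clu_out G S C u _ hsub x hx.1 hx.2 hx.2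
  have hQ1 : K ≤ 16 * ((clu G S C h u).filter
      (fun v => K ≤ (nb G (clu G S C h u) v).card + 6 * q)).card := by
    refine hu16.trans (Nat.mul_le_mul_left _ (card_le_card ?_))
    intro v hv
    rw [mem_filter] at hv ⊢
    exact ⟨hsub hv.1, y_gam0 P G S C hCS hD u huC v hv.1 hv.2⟩
  generalize clu G S C h u = Q at hup hsub hlow hN hQS hout hQ1
  -- the shape of Q
  have hII : TypeII T (1540 * h) (1541 * h) → ∀ v ∈ Q,
      (nb G Q v).card + 2 ≤ K ∧ 1000 * (Q.card - K) + (nb G Q v).card + 1 ≤ K := by
    intro h2 v hv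
    have hlt := nb_card_lt G Q v hv
    by_cases hbig : K + 1 ≤ Q.card
    · by_cases hc : K ≤ (nb G Q v).card + 1 + 1000 * (Q.card - K)
      · exact absurd (over_case P T hT hcard h2 G Q hN hup hbig v hv hc) hE
      · push Not at hc
        constructor
        · have : 1 ≤ Q.card - K := by omega
          omega
        · omega
    · by_cases hc : K ≤ (nb G Q v).card + 1
      · have hQK : Q.card = K := by omega
        obtain ⟨y, hy, x, hx, hyx⟩ := y_cross P G S Q hQS hQK hmin hbad
        exact absurd (univ_case P T hT hcard h2 G Q hN hQK v hv hc y x hy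
          (mem_sdiff.mp hx).2 hyx) hE
      · have : Q.card - K = 0 := by omega
        rw [this]
        omega
  have hI : TypeI T (140 * h) → Q.card + 1 ≤ K := by
    intro h1
    by_contra hcon
    push Not at hcon
    apply hE
    by_cases hbig : K + 1 ≤ Q.card
    · exact bigI P T hT hcard h1 G Q hN hbig
    · have hQK : Q.card = K := by omega
      obtain ⟨y, hy, x, hx, hyx⟩ := y_cross P G S Q hQS hQK hmin hbad
      have h3 : 3 ≤ Fintype.card α := by omega
      obtain ⟨l0, hl0⟩ := exists_leaf T hT h3
      obtain ⟨pi, hpi⟩ := leaf_nbr T hT h3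
      obtain ⟨g1, g2, g3⟩ := hpi l0 hl0
      refine outI P T hT hcard h1 G Q {x} hN ?_ (pi l0) {l0} ?_ ?_ ?_ y hy ?_ ?_
      · rw [disjoint_singleton_right]
        exact (mem_sdiff.mp hx).2
      · refine ⟨?_, ?_⟩
        · rw [mem_singleton]
          exact g1.ne'
        · intro a ha b hab
          rw [mem_singleton] at ha
          subst ha
          right
          exact g2 b hab
      · rw [card_singleton]
        omega
      · rw [card_singleton]
        omega
      · have e1 : (({l0} : Finset α).filter (fun x => T.Adj (pi l0) x)).card ≤ 1 := by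
          refine (card_filter_le _ _).trans ?_
          rw [card_singleton]
        have e2 : 1 ≤ (nb G {x} y).card := by
          apply card_pos.mpr
          exact ⟨x, mem_filter.mpr ⟨mem_singleton_self x, hyx⟩⟩
        omega
      · left
        intro t ht
        rw [mem_singleton] at ht
        subst ht
        exact g1.symm
  have H1 : ∀ v ∈ Q, (nb G Q v).card + 2 ≤ K := by
    intro v hv
    rcases hty with h1 | h2
    · have := hI h1
      have := nb_card_lt G Q v hv
      omega
    · exact (hII h2 v hv).1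
  have H2 : ∀ v ∈ Q, 1000 * (Q.card - K) + (nb G Q v).card + 1 ≤ K := by
    intro v hv
    rcases hty with h1 | h2
    · have h3 := hI h1
      have := nb_card_lt G Q v hv
      have : Q.card - K = 0 := by omega
      rw [this]
      omega
    · exact (hII h2 v hv).2
  obtain ⟨k1, k2, k3, k4, k5⟩ := y_def P G Q hQ1 H1 H2
    (K.choose r - (KS G r Q).card)
    (25 * ((K.choose r - (KS G r Q).card) / (K - 1).choose (r - 1)) + 52) rfl rfl
  generalize hkap : 25 * ((K.choose r - (KS G r Q).card) / (K - 1).choose (r - 1)) + 52 = kap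
    at k3 k4 k5
  have hk1 : 1 ≤ kap := by omega
  have hcnt : K + 1 ≤ Q.card + kap := by
    have h0 : 0 < (Q.filter (fun v => K ≤ (nb G Q v).card + kap)).card := by omega
    obtain ⟨v, hv⟩ := card_pos.mp h0
    rw [mem_filter] at hv
    have := nb_card_lt G Q v hv.1
    omega
  obtain ⟨Cj, hCj, hCj1, hCj2⟩ := y_cj P G S hmin hbad (10 * kap + 1) (by omega) (by omega)
  have hYs := y_star P G S Q Cj hQS hSK hmin hbad hb1 hb2 hup hout kap hk1 k4 hcnt k1.le k5 hCj hCj1
  rcases hty with h1 | h2
  · have h3 := hI h1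
    exact hE (finI P T hT hcard h1 G Q Cj hN (by omega) kap hk1 k4 hcnt hYs hCj2)
  · exact hE (e3 P T hT hcard h2 G Q (Cj \ Q) hN disjoint_sdiff hup kap hk1 k4 hcnt hYs k3)

theorem up_thm {K r L q h : ℕ} (P : Par K r L q h) (T : SimpleGraph α) (hT : T.IsTree)
    (hcard : Fintype.card α = K + 1)
    (hty : TypeI T (140 * h) ∨ TypeII T (1540 * h) (1541 * h)) (G : SimpleGraph V)
    (hE : ¬ Emb T G) (S : Finset V) : (KS G r S).card ≤ F K r S.card := by
  induction S using Finset.strongInduction with
  | _ S ih =>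
    by_contra hcon
    push Not at hcon
    exact y_thm P T hT hcard hty G hE S ih hcon

end Pool.Agent.H27.TC
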