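import Pool.Agent.H27.TC.NPar
import Pool.Agent.H27.TC.TClass
import Pool.Agent.H27.TC.YThm

set_option autoImplicit false

/-
[H27 TC YFin]  The final theorem (done by helper27).
-/

namespace Pool.Agent.H27.TC

open Finset Classical
open Pool.Agent.H28.TreeClique

lemma lfs_eq {α : Type*} [Fintype α] (T : SimpleGraph α) (c : α) :
    univ.filter (fun x => T.Adj c x ∧ T.degree x = 1) = lfs T c := by
  ext x
  rw [lfs, mem_filter, mem_filter, dg_eq]

/-- The upper bound in the main range. -/
theorem upper_main {k r : ℕ} (hr : 2 ^ 10000 ≤ r) (T : SimpleGraph (Fin k)) (hT : T.IsTree)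
    (hkr : 4 * r + 2 ≤ 3 * k) {V : Type*} (G : SimpleGraph V) (hG : T.Free G) (S : Finset V) :
    (KS G r S).card ≤ F (k - 1) r S.card := by
  obtain ⟨L, q, h, P⟩ := exists_par r (k - 1) hr (by omega)
  obtain ⟨hr1, hrK, hq3, hqh, hhK, hh3, hKrq⟩ := par_facts P
  have hcard : Fintype.card (Fin k) = k - 1 + 1 := by rw [Fintype.card_fin]; omega
  have hE : ¬ Emb T G := free_of_not_emb T G hG
  rcases classify T hT (by rw [hcard]; omega) (140 * h) (by omega) with hI | hNL
  · exact up_thm P T hT hcard (Or.inl hI) G hE S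
  have hNL' : (NL T).card ≤ 1540 * h := by omega
  by_cases hmax : ∀ c, (lfs T c).card ≤ 1541 * h
  · exact up_thm P T hT hcard (Or.inr ⟨hNL', hmax⟩) G hE S
  push Not at hmax
  obtain ⟨c, hc⟩ := hmax
  have hm : (univ.filter (fun x => T.Adj c x ∧ T.degree x ≠ 1)).card ≤ 1540 * h := by
    refine (card_le_card ?_).trans hNL'
    intro x hx
    rw [mem_filter] at hx
    rw [NL, mem_filter, dg_eq]
    exact ⟨mem_univ _, hx.2.2⟩
  have hl := lfs_eq T c
  refine hub_upper T hT c G (by omega) (by omega) (Fintype.card_fin k) _ _ rfl rfl ?_ hG S.card S rfl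
  rw [hl]
  generalize (univ.filter (fun x => T.Adj c x ∧ T.degree x ≠ 1)).card = m at hm
  generalize (lfs T c).card = lam at hc
  have hmax2 : max 2 m ≤ 1540 * h := max_le (by omega) hm
  have hhalf := half P (k - 1540 * h) (r - 1) (L + 2) (by omega) (by omega)
  rw [← P.hh] at hhalf
  have h1 : (k - 2 - lam).choose (r - 1) ≤ (k - 1540 * h - h).choose (r - 1) :=
    Nat.choose_le_choose _ (by omega)
  have h2 : (k - 1540 * h).choose (r - 1) ≤ (k - max 2 m).choose (r - 1) :=
    Nat.choose_le_choose _ (by omega)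
  have h3 : r ≤ 2 ^ (L + 2) := P.hr1.trans (Nat.pow_le_pow_right (by norm_num) (by omega))
  calc r * (k - 2 - lam).choose (r - 1)
      ≤ 2 ^ (L + 2) * (k - 1540 * h - h).choose (r - 1) := Nat.mul_le_mul h3 h1
    _ = (k - 1540 * h - h).choose (r - 1) * 2 ^ (L + 2) := mul_comm _ _
    _ ≤ _ := hhalf.trans h2

theorem all_final (r : ℕ) (hr : 2 ^ 10000 ≤ r) (k : ℕ) (hk : 2 ≤ k) (T : SimpleGraph (Fin k))
    (hT : T.IsTree) (n : ℕ) :
    (∀ G : SimpleGraph (Fin n), T.Free G →
        {s : Finset (Fin n) | G.IsNClique r s}.ncard ≤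
          (n / (k - 1)) * Nat.choose (k - 1) r + Nat.choose (n % (k - 1)) r) ∧
      (∃ G : SimpleGraph (Fin n), T.Free G ∧
        {s : Finset (Fin n) | G.IsNClique r s}.ncard =
          (n / (k - 1)) * Nat.choose (k - 1) r + Nat.choose (n % (k - 1)) r) := by
  have h3r : 3 ≤ r := by
    refine le_trans ?_ hr
    calc 3 ≤ 2 ^ 2 := by norm_num
      _ ≤ 2 ^ 10000 := Nat.pow_le_pow_right (by norm_num) (by norm_num)
  by_cases hcase : 3 * k ≤ 4 * r + 1
  · exact final k hk T hT r h3r (Or.inl hcase) n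
  push Not at hcase
  have hup : ∀ G : SimpleGraph (Fin n), T.Free G →
        {s : Finset (Fin n) | G.IsNClique r s}.ncard ≤
          (n / (k - 1)) * Nat.choose (k - 1) r + Nat.choose (n % (k - 1)) r := by
    intro G hG
    rw [ncard_cliques]
    have h1 := upper_main hr T hT (by omega) G hG univ
    rw [card_univ, Fintype.card_fin] at h1
    exact h1
  refine ⟨hup, blockGraph n (k - 1), blockGraph_free hk T hT n, ?_⟩
  apply le_antisymm (hup _ (blockGraph_free hk T hT n))
  rw [ncard_cliques]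
  exact blockGraph_count n (k - 1) r (by omega) (by omega)

end Pool.Agent.H27.TC
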